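import Pool.Agent.Helper60.Slit.ChiB
import Pool.Agent.Lead.IP.ValueB
/-! MODULE ZCHI: the normalisation.  `Dt m b = (∏ sin 2b_i) * DD m (xx b)` (`sin(2(3k+1)b)/sin 2b`, `sin(2(3k+2)b)/sin 2b`
are `ph (2k)`, `ph (2k+1)` at `2cos 2b` up to a unitriangular change of basis), `Dl m b = (∏ sin 2b_i) * VV m (xx b)`
(`Dl_eq`), then `Z_form`, `Chi_mul` for generic `b` and continuity (`Z_Sep`, `Sep.continuous`, `Chi_continuous_real`). -/
namespace IP.Slit
open IP Finset Real

theorem zchi_cos6 (x : ℝ) : (2 * Real.cos (2 * x)) ^ 3 - 3 * (2 * Real.cos (2 * x)) = 2 * Real.cos (6 * x) := by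
  rw [show 6 * x = 3 * (2 * x) by ring, Real.cos_three_mul]
  ring

theorem zchi_ph_step (k : ℕ) (y : ℝ) : (ph ℝ (k + 2)).eval y = (y ^ 3 - 3 * y) * (ph ℝ k).eval y := by
  rw [ph_eval, ph_eval, show (k + 2) / 2 = k / 2 + 1 by omega, show (k + 2) % 2 = k % 2 by omega]
  ring

theorem zchi_ph_zero (y : ℝ) : (ph ℝ 0).eval y = 1 := by
  rw [ph_eval]
  norm_num

theorem zchi_ph_one (y : ℝ) : (ph ℝ 1).eval y = y := by
  rw [ph_eval]
  norm_num

theorem zchi_ph_two (y : ℝ) : (ph ℝ 2).eval y = y ^ 3 - 3 * y := by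
  rw [zchi_ph_step 0, zchi_ph_zero, mul_one]

theorem zchi_ph_three (y : ℝ) : (ph ℝ 3).eval y = (y ^ 3 - 3 * y) * y := by
  rw [zchi_ph_step 1, zchi_ph_one]

/-- one step of the recursion of the coefficients -/
theorem zchi_sum_shift (n : ℕ) (u : ℕ → ℝ) (y : ℝ) :
    ∑ k ∈ range (n + 2), (if k < 2 then 0 else u (k - 2)) * (ph ℝ k).eval y =
      (y ^ 3 - 3 * y) * ∑ k ∈ range n, u k * (ph ℝ k).eval y := by
  rw [sum_range_succ', sum_range_succ']
  simp only [show (0 + 1 : ℕ) < 2 by omega, show (0 : ℕ) < 2 by omega, if_true, zero_mul, add_zero]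
  rw [mul_sum]
  refine sum_congr rfl fun k _ => ?_
  rw [if_neg (by omega), show k + 1 + 1 - 2 = k by omega, show k + 1 + 1 = k + 2 by omega, zchi_ph_step]
  ring

theorem zchi_sum_ext {n N : ℕ} (h : n ≤ N) (u : ℕ → ℝ) (hu : ∀ k, n ≤ k → u k = 0) (y : ℝ) :
    ∑ k ∈ range N, u k * (ph ℝ k).eval y = ∑ k ∈ range n, u k * (ph ℝ k).eval y := by
  symm
  apply sum_subset (range_subset_range.2 h)
  intro k _ hk
  rw [mem_range, not_lt] at hk
  rw [hu k hk, zero_mul]

/-- the functions `sin (2 μ_j x)` in the basis of the module -/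
theorem zchi_exp : ∀ j : ℕ, ∃ u : ℕ → ℝ, (∀ k, j < k → u k = 0) ∧ u j = 1 ∧
    ∀ x : ℝ, Real.sin (2 * mu j * x) =
      Real.sin (2 * x) * ∑ k ∈ range (j + 1), u k * (ph ℝ k).eval (2 * Real.cos (2 * x))
  | 0 => by
    refine ⟨fun k => if k = 0 then 1 else 0, fun k hk => if_neg (by omega), if_pos rfl, fun x => ?_⟩
    simp [mu, zchi_ph_zero]
  | 1 => by
    refine ⟨fun k => if k = 1 then 1 else 0, fun k hk => if_neg (by omega), if_pos rfl, fun x => ?_⟩
    rw [sum_range_succ, sum_range_succ, sum_range_zero]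
    simp only [mu, zchi_ph_one]
    norm_num
    rw [show 4 * x = 2 * (2 * x) by ring, Real.sin_two_mul]
    ring
  | 2 => by
    refine ⟨fun k => if k = 2 then 1 else if k = 1 then 1 else 0, fun k hk => ?_, if_pos rfl, fun x => ?_⟩
    · simp only [show ¬ k = 2 by omega, show ¬ k = 1 by omega, if_false]
    · rw [sum_range_succ, sum_range_succ, sum_range_succ, sum_range_zero, zchi_ph_two, zchi_ph_one,
        zchi_ph_zero, zchi_cos6]
      norm_num [mu]
      have h8 : Real.sin (8 * x) = 2 * Real.cos (6 * x) * Real.sin (2 * x) + Real.sin (4 * x) := by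
        rw [show 8 * x = 2 * x + 6 * x by ring, show 4 * x = 6 * x - 2 * x by ring, Real.sin_add,
          Real.sin_sub]
        ring
      rw [h8, show 4 * x = 2 * (2 * x) by ring, Real.sin_two_mul (2 * x)]
      ring
  | 3 => by
    refine ⟨fun k => if k = 3 then 1 else if k = 0 then 1 else 0, fun k hk => ?_, if_pos rfl, fun x => ?_⟩
    · simp only [show ¬ k = 3 by omega, show ¬ k = 0 by omega, if_false]
    · rw [sum_range_succ, sum_range_succ, sum_range_succ, sum_range_succ, sum_range_zero, zchi_ph_three,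
        zchi_ph_two, zchi_ph_one, zchi_ph_zero, zchi_cos6]
      norm_num [mu]
      have h8 : Real.sin (10 * x) = 2 * Real.cos (6 * x) * Real.sin (4 * x) + Real.sin (2 * x) := by
        rw [show 10 * x = 4 * x + 6 * x by ring, show 2 * x = 6 * x - 4 * x by ring, Real.sin_add,
          Real.sin_sub]
        ring
      rw [h8, show 4 * x = 2 * (2 * x) by ring, Real.sin_two_mul (2 * x)]
      ring
  | j + 4 => by
    obtain ⟨u, hu1, hu2, hu3⟩ := zchi_exp (j + 2)
    obtain ⟨v, hv1, hv2, hv3⟩ := zchi_exp j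
    refine ⟨fun k => (if k < 2 then 0 else u (k - 2)) - v k, fun k hk => ?_, ?_, fun x => ?_⟩
    · dsimp only
      rw [if_neg (by omega), hu1 (k - 2) (by omega), hv1 k (by omega), sub_zero]
    · dsimp only
      rw [if_neg (by omega), show j + 4 - 2 = j + 2 by omega, hu2, hv1 (j + 4) (by omega), sub_zero]
    · rw [dB_sin_mu_rec, hu3, hv3]
      have h1 : ∑ k ∈ range (j + 4 + 1), ((if k < 2 then 0 else u (k - 2)) - v k) *
          (ph ℝ k).eval (2 * Real.cos (2 * x)) =
          ((2 * Real.cos (2 * x)) ^ 3 - 3 * (2 * Real.cos (2 * x))) *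
            (∑ k ∈ range (j + 2 + 1), u k * (ph ℝ k).eval (2 * Real.cos (2 * x))) -
          ∑ k ∈ range (j + 1), v k * (ph ℝ k).eval (2 * Real.cos (2 * x)) := by
        simp only [sub_mul]
        rw [sum_sub_distrib, show j + 4 + 1 = (j + 2 + 1) + 2 by omega, zchi_sum_shift,
          zchi_sum_ext (show j + 1 ≤ j + 2 + 1 + 2 by omega) v (fun k hk => hv1 k (by omega))]
        ring
      rw [h1, zchi_cos6]
      ring

theorem Dt_DD (m : ℕ) (b : ℕ → ℝ) : Dt m b = (∏ i ∈ range m, Real.sin (2 * b i)) * DD m (xx b) := by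
  choose u hu1 hu2 hu3 using zchi_exp
  have h1 : (Matrix.of fun i j : Fin m => Real.sin (2 * mu j * b i)) =
      Matrix.diagonal (fun i : Fin m => Real.sin (2 * b i)) *
        ((Matrix.of fun i j : Fin m => (ph ℝ j).eval (xx b i)) * (Matrix.of fun k j : Fin m => u j k)) := by
    ext i j
    rw [Matrix.diagonal_mul, Matrix.of_apply, hu3, Matrix.mul_apply]
    congr 1
    rw [← zchi_sum_ext (show (j : ℕ) + 1 ≤ m from j.2) (u j) (fun k hk => hu1 j k (by omega)),
      ← Fin.sum_univ_eq_sum_range (fun k => u j k * (ph ℝ k).eval (2 * Real.cos (2 * b i)))]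
    refine sum_congr rfl fun k _ => ?_
    simp only [Matrix.of_apply, xx]
    ring
  have h2 : Matrix.det (Matrix.of fun k j : Fin m => u j k) = 1 := by
    rw [Matrix.det_of_isUpperTriangular]
    · apply prod_eq_one
      intro i _
      simp only [Matrix.of_apply]
      exact hu2 i
    · intro i j hij
      have hij' : (j : ℕ) < i := hij
      simp only [Matrix.of_apply]
      exact hu1 j i hij'
  unfold Dt
  rw [h1, Matrix.det_mul, Matrix.det_mul, h2, mul_one, Matrix.det_diagonal,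
    Fin.prod_univ_eq_prod_range (fun i => Real.sin (2 * b i))]
  rfl

theorem Dl_VV (m : ℕ) (b : ℕ → ℝ) : Dl m b = (∏ i ∈ range m, Real.sin (2 * b i)) * VV m (xx b) := by
  rw [Dl_eq]
  unfold VV xx
  congr 1
  refine prod_congr rfl fun j _ => prod_congr rfl fun i _ => ?_
  ring

theorem zchi_TP_pow (k : ℕ) : TP (2 * k) (fun x => (2 * Real.cos (2 * x)) ^ k) := by
  induction k with
  | zero =>
    simp only [pow_zero]
    exact TP.const 1
  | succ k ih =>
    have h1 : TP 2 (fun x => 2 * Real.cos (2 * x)) := by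
      have := (TP.cos_mul 2).smul 2
      simpa using this
    have h2 := ih.mul h1
    rw [show 2 * (k + 1) = 2 * k + 2 by ring]
    simpa only [pow_succ] using h2

theorem zchi_TP_poly {n : ℕ} (P : Polynomial ℝ) (hP : P.natDegree ≤ n) :
    TP (2 * n) (fun x => P.eval (2 * Real.cos (2 * x))) := by
  have h : (fun x : ℝ => P.eval (2 * Real.cos (2 * x))) =
      fun x => ∑ k ∈ range (n + 1), P.coeff k * (2 * Real.cos (2 * x)) ^ k := by
    funext x
    exact Polynomial.eval_eq_sum_range' (by omega) _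
  rw [h]
  apply TP.sum
  intro k hk
  rw [mem_range] at hk
  have h1 := ((zchi_TP_pow k).mono (n - k)).smul (P.coeff k)
  rwa [show 2 * k + 2 * (n - k) = 2 * n by omega] at h1

theorem zchi_xx_update (b : ℕ → ℝ) (j : ℕ) (x : ℝ) :
    xx (Function.update b j x) = Function.update (xx b) j (2 * Real.cos (2 * x)) := by
  funext i
  unfold xx
  by_cases h : i = j
  · subst h
    rw [Function.update_self, Function.update_self]
  · rw [Function.update_of_ne h, Function.update_of_ne h]

theorem zchi_Sep (n : ℕ) : Sep (2 * n + 1) (2 * n) (fun b => Chi (2 * n + 1) (xx b)) := by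
  constructor
  · intro b j hj
    obtain ⟨P, hP, h⟩ := Chi_poly hj (xx b)
    have h1 : (fun x : ℝ => Chi (2 * n + 1) (xx (Function.update b j x))) =
        fun x => P.eval (2 * Real.cos (2 * x)) := by
      funext x
      rw [zchi_xx_update, h]
    rw [h1]
    exact zchi_TP_poly P (by omega)
  · intro b b' h
    apply Chi_congr
    intro i hi
    unfold xx
    rw [h i hi]

theorem Z_Chi (n : ℕ) (b : ℕ → ℝ) : 4 ^ (n ^ 2) * Z n b = Chi (2 * n + 1) (xx b) := by
  have hF : Sep (2 * n + 1) (2 * n) (fun b => 4 ^ (n ^ 2) * Z n b - Chi (2 * n + 1) (xx b)) :=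
    ((Z_Sep n).smul (4 ^ (n ^ 2))).sub (zchi_Sep n)
  have hG := Dl_Sep (2 * n + 1)
  have h := hF.eq_zero_of_mul hG (by
    obtain ⟨ε, hε⟩ := (vb_Dl_ne (2 * n + 1)).exists
    exact ⟨_, hε⟩) (fun b hb => ?_) b
  · linarith
  · have h1 := Z_form n b
    rw [Dt_DD, Dl_VV, ← Chi_mul] at h1
    rw [Dl_VV] at hb
    have h2 : (4 ^ (n ^ 2) * Z n b - Chi (2 * n + 1) (xx b)) *
        ((∏ i ∈ range (2 * n + 1), Real.sin (2 * b i)) * VV (2 * n + 1) (xx b)) = 0 := by
      linear_combination h1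
    rcases mul_eq_zero.1 h2 with h3 | h3
    · exact h3
    · exact absurd h3 hb

theorem Chi_pos (n : ℕ) : 0 < Chi (2 * n + 1) (fun _ => (2 : ℝ)) := by
  have h : xx (fun _ => (0 : ℝ)) = fun _ => (2 : ℝ) := by
    funext j
    unfold xx
    rw [mul_zero, Real.cos_zero, mul_one]
  rw [← h, ← Z_Chi, Z_zero]
  exact cm_pos _
end IP.Slit
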