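import Pool.Agent.Helper60.Slit.Defs
/-! MODULE CHI-A: the polynomials `Chi r x`.
`Chi_mul`: Newton interpolation `f (x_i) = Σ_{l ≤ i} (dd x f l)(x_l) ∏_{s < l} (x_i - x_s)` (lower triangular times the matrix of `Chi`).
`Chi_span`: the same in the last row (`ph K j` at `y`); `dd x (ph K j) r` at `y` comes with the factor `∏_{i<r} (y - x_i)`. -/
namespace IP.Slit
open Finset Polynomial
variable {K : Type*} [Field K]

theorem chiA_c_natDegree : (X ^ 3 - C 3 * X : K[X]).natDegree = 3 := by
  compute_degree!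

theorem chiA_c_monic : (X ^ 3 - C 3 * X : K[X]).Monic := by
  monicity!

theorem chiA_ph_monic (j : ℕ) : (ph K j).Monic := by
  unfold ph
  exact (chiA_c_monic.pow _).mul (monic_X.pow _)

theorem ph_natDegree (j : ℕ) : (ph K j).natDegree = j + j / 2 := by
  unfold ph
  rw [(chiA_c_monic.pow _).natDegree_mul (monic_X.pow _), chiA_c_monic.natDegree_pow,
    chiA_c_natDegree, natDegree_X_pow]
  omega

theorem ph_eval (j : ℕ) (x : K) : (ph K j).eval x = (x ^ 3 - 3 * x) ^ (j / 2) * x ^ (j % 2) := by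
  unfold ph
  simp only [eval_mul, eval_pow, eval_sub, eval_X, eval_C]

theorem chiA_dq (f : K[X]) (a : K) : f = C (f.eval a) + (X - C a) * dq f a := by
  unfold dq
  have h := modByMonic_add_div f (X - C a)
  rw [modByMonic_X_sub_C_eq_C_eval] at h
  exact h.symm

theorem chiA_newton (x : ℕ → K) (f : K[X]) (n : ℕ) :
    f = ∑ l ∈ range n, C ((dd x f l).eval (x l)) * ∏ s ∈ range l, (X - C (x s)) +
      dd x f n * ∏ s ∈ range n, (X - C (x s)) := by
  induction n with
  | zero => simp [dd]
  | succ n ih =>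
    rw [sum_range_succ, prod_range_succ]
    have h := chiA_dq (dd x f n) (x n)
    conv_lhs => rw [ih, h]
    show _ = _ + (dq (dd x f n) (x n)) * _
    ring

theorem chiA_newton_eval (x : ℕ → K) (f : K[X]) {n r : ℕ} (h : n < r) :
    f.eval (x n) = ∑ l ∈ range r, (∏ s ∈ range l, (x n - x s)) * (dd x f l).eval (x l) := by
  have h1 := congrArg (eval (x n)) (chiA_newton x f r)
  rw [eval_add, eval_finsetSum, eval_mul, eval_prod (range r)] at h1
  have h2 : ∏ s ∈ range r, eval (x n) (X - C (x s)) = 0 :=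
    prod_eq_zero (mem_range.2 h) (by simp)
  rw [h2, mul_zero, add_zero] at h1
  rw [h1]
  refine sum_congr rfl fun l _ => ?_
  rw [eval_mul, eval_C, eval_prod, mul_comm]
  simp only [eval_sub, eval_X, eval_C]

theorem Chi_mul (r : ℕ) (x : ℕ → K) : Chi r x * VV r x = DD r x := by
  have h1 : (Matrix.of fun i j : Fin r => (ph K j).eval (x i)) =
      (Matrix.of fun i l : Fin r => ∏ s ∈ range (l : ℕ), (x i - x s)) *
        (Matrix.of fun l j : Fin r => (dd x (ph K j) l).eval (x l)) := by
    ext i j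
    rw [Matrix.mul_apply]
    simp only [Matrix.of_apply]
    rw [chiA_newton_eval x (ph K j) i.2, ← Fin.sum_univ_eq_sum_range]
  unfold DD Chi VV
  rw [h1, Matrix.det_mul, mul_comm]
  congr 1
  rw [Matrix.det_of_isLowerTriangular]
  · simp only [Matrix.of_apply]
    rw [Fin.prod_univ_eq_prod_range (fun i => ∏ s ∈ range i, (x i - x s)) r]
  · intro i j hij
    have hij' : (i : ℕ) < j := hij
    exact prod_eq_zero (mem_range.2 hij') (sub_self _)

theorem chiA_dd_congr {x y : ℕ → K} (f : K[X]) {n : ℕ} (h : ∀ i < n, x i = y i) : dd x f n = dd y f n := by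
  induction n with
  | zero => rfl
  | succ n ih =>
    show dq (dd x f n) (x n) = dq (dd y f n) (y n)
    rw [ih (fun i hi => h i (by omega)), h n (by omega)]

theorem Chi_congr {r : ℕ} {x y : ℕ → K} (h : ∀ i < r, x i = y i) : Chi r x = Chi r y := by
  unfold Chi
  congr 1
  ext i j
  simp only [Matrix.of_apply]
  rw [chiA_dd_congr (y := y) _ (fun l hl => h l (by omega)), h i i.2]

theorem DD_congr {r : ℕ} {x y : ℕ → K} (h : ∀ i < r, x i = y i) : DD r x = DD r y := by
  unfold DD
  congr 1
  ext i j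
  simp only [Matrix.of_apply]
  rw [h i i.2]

theorem VV_congr {r : ℕ} {x y : ℕ → K} (h : ∀ i < r, x i = y i) : VV r x = VV r y := by
  unfold VV
  refine prod_congr rfl fun j hj => prod_congr rfl fun i hi => ?_
  rw [mem_range] at hi hj
  rw [h j hj, h i (by omega)]

theorem ka_congr {r : ℕ} {x y : ℕ → K} (h : ∀ i < r, x i = y i) (l : ℕ) : ka r x l = ka r y l := by
  unfold ka
  congr 1
  ext i j
  simp only [Matrix.of_apply]
  split_ifs with h1
  · rw [chiA_dd_congr (y := y) _ (fun l hl => h l (by omega)), h i h1]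
  · rfl
  · rfl

theorem Chi_zero (x : ℕ → K) : Chi 0 x = 1 := by
  unfold Chi
  exact Matrix.det_fin_zero

theorem chiA_ph0 : ph K 0 = 1 := by simp [ph]
theorem chiA_ph1 : ph K 1 = X := by simp [ph]
theorem chiA_ph2 : ph K 2 = X ^ 3 - C 3 * X := by simp [ph]

/-- uniqueness of the quotient -/
theorem chiA_dq_unique {f g : K[X]} {a c : K} (h : f = C c + (X - C a) * g) : dq f a = g := by
  have h1 := chiA_dq f a
  have h2 : f.eval a = c := by rw [h]; simp
  rw [h2, h] at h1
  have h3 : (X - C a) * g = (X - C a) * dq (C c + (X - C a) * g) a := add_left_cancel h1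
  rw [← h] at h3
  exact (mul_left_cancel₀ (X_sub_C_ne_zero a) h3).symm

theorem chiA_dq_one (a : K) : dq (1 : K[X]) a = 0 := chiA_dq_unique (c := 1) (by simp)
theorem chiA_dq_X (a : K) : dq (X : K[X]) a = 1 := chiA_dq_unique (c := a) (by ring)
theorem chiA_dq_zero (a : K) : dq (0 : K[X]) a = 0 := chiA_dq_unique (c := 0) (by simp)

theorem Chi_one (x : ℕ → K) : Chi 1 x = 1 := by
  unfold Chi
  rw [Matrix.det_fin_one]
  simp [dd, chiA_ph0]

theorem Chi_two (x : ℕ → K) : Chi 2 x = 1 := by
  unfold Chi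
  rw [Matrix.det_fin_two]
  simp [dd, chiA_ph0, chiA_ph1, chiA_dq_one, chiA_dq_X]

theorem Chi_three (x : ℕ → K) : Chi 3 x = x 0 + x 1 + x 2 := by
  have e1 : dq (X ^ 3 - C 3 * X : K[X]) (x 0) = X ^ 2 + C (x 0) * X + C (x 0 ^ 2 - 3) := by
    apply chiA_dq_unique (c := x 0 ^ 3 - 3 * x 0)
    simp only [C_sub, C_mul, C_pow]
    ring
  have e2 : dq (X ^ 2 + C (x 0) * X + C (x 0 ^ 2 - 3)) (x 1) = X + C (x 0 + x 1) := by
    apply chiA_dq_unique (c := x 1 ^ 2 + x 0 * x 1 + (x 0 ^ 2 - 3))
    simp only [C_sub, C_add, C_mul, C_pow]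
    ring
  have d22 : dd x (ph K 2) 2 = X + C (x 0 + x 1) := by
    show dq (dq (ph K 2) (x 0)) (x 1) = _
    rw [chiA_ph2, e1, e2]
  have d10 : dd x (ph K 0) 1 = 0 := by
    show dq (ph K 0) (x 0) = _
    rw [chiA_ph0, chiA_dq_one]
  have d20 : dd x (ph K 0) 2 = 0 := by
    show dq (dq (ph K 0) (x 0)) (x 1) = _
    rw [chiA_ph0, chiA_dq_one, chiA_dq_zero]
  have d11 : dd x (ph K 1) 1 = 1 := by
    show dq (ph K 1) (x 0) = _
    rw [chiA_ph1, chiA_dq_X]
  have d21 : dd x (ph K 1) 2 = 0 := by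
    show dq (dq (ph K 1) (x 0)) (x 1) = _
    rw [chiA_ph1, chiA_dq_X, chiA_dq_one]
  have d00 : dd x (ph K 0) 0 = 1 := chiA_ph0
  unfold Chi
  rw [Matrix.det_fin_three]
  simp only [Matrix.of_apply, Fin.val_zero, Fin.val_one, Fin.val_two, d22, d10, d20, d11, d21, d00]
  simp only [eval_add, eval_X, eval_C, eval_zero, eval_one]
  ring

theorem VV_ne_zero {r : ℕ} {x : ℕ → K} : VV r x ≠ 0 ↔ ∀ j < r, ∀ i < j, x i ≠ x j := by
  unfold VV
  rw [prod_ne_zero_iff]
  constructor
  · intro h j hj i hi he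
    exact (prod_ne_zero_iff.1 (h j (mem_range.2 hj))) i (mem_range.2 hi) (by rw [he, sub_self])
  · intro h j hj
    rw [prod_ne_zero_iff]
    intro i hi
    exact sub_ne_zero.2 (h j (mem_range.1 hj) i (mem_range.1 hi)).symm


theorem chiA_VV (r : ℕ) (x : ℕ → K) : VV r x = (Matrix.vandermonde fun i : Fin r => x i).det := by
  unfold VV
  rw [Matrix.det_vandermonde, Finset.prod_comm' (s := univ) (t := fun i => Ioi i)
    (t' := univ) (s' := fun j : Fin r => Iio j) (by simp), ← Fin.prod_univ_eq_prod_range]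
  refine prod_congr rfl fun j _ => ?_
  have h1 : range (j : ℕ) = (Iio j).map Fin.valEmbedding := by
    rw [Fin.map_valEmbedding_Iio, Nat.Iio_eq_range]
  rw [h1, prod_map]
  rfl

/-- exchange of two rows -/
theorem chiA_det_swap {r i : ℕ} (h : i + 1 < r) (x : ℕ → K) (F : ℕ → K → K) :
    Matrix.det (Matrix.of fun a j : Fin r => F j (x (Equiv.swap i (i + 1) a))) =
      -Matrix.det (Matrix.of fun a j : Fin r => F j (x a)) := by
  have h1 : (Matrix.of fun a j : Fin r => F j (x (Equiv.swap i (i + 1) a))) =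
      (Matrix.of fun a j : Fin r => F j (x a)).submatrix
        (Equiv.swap (⟨i, by omega⟩ : Fin r) ⟨i + 1, h⟩) id := by
    ext a j
    simp only [Matrix.submatrix_apply, Matrix.of_apply, id]
    congr 2
    by_cases h2 : a = ⟨i, by omega⟩
    · subst h2
      rw [Equiv.swap_apply_left, Equiv.swap_apply_left]
    · by_cases h3 : a = ⟨i + 1, h⟩
      · subst h3
        rw [Equiv.swap_apply_right, Equiv.swap_apply_right]
      · rw [Equiv.swap_apply_of_ne_of_ne h2 h3, Equiv.swap_apply_of_ne_of_ne]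
        · intro h4; exact h2 (Fin.ext h4)
        · intro h4; exact h3 (Fin.ext h4)
  rw [h1, Matrix.det_permute, Equiv.Perm.sign_swap]
  · simp
  · intro h2
    have := congrArg Fin.val h2
    simp at this

theorem DD_swap {r i : ℕ} (h : i + 1 < r) (x : ℕ → K) : DD r (fun j => x (Equiv.swap i (i + 1) j)) = -DD r x :=
  chiA_det_swap h x fun j y => (ph K j).eval y

theorem VV_swap {r i : ℕ} (h : i + 1 < r) (x : ℕ → K) : VV r (fun j => x (Equiv.swap i (i + 1) j)) = -VV r x := by
  rw [chiA_VV, chiA_VV]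
  exact chiA_det_swap h x fun j y => y ^ j

theorem DD_eq_zero {r i j : ℕ} (hi : i < r) (hj : j < r) (hij : i ≠ j) {x : ℕ → K} (h : x i = x j) : DD r x = 0 := by
  unfold DD
  refine Matrix.det_zero_of_row_eq (i := ⟨i, hi⟩) (j := ⟨j, hj⟩) (fun h2 => hij (congrArg Fin.val h2)) ?_
  funext l
  simp only [Matrix.of_apply, h]

/-- expansion of a determinant in one row -/
theorem chiA_expand {r i : ℕ} (h : i < r) (x : ℕ → K) (F : ℕ → K → K) :
    ∃ w : Fin r → K, ∀ y, Matrix.det (Matrix.of fun a j : Fin r => F j (Function.update x i y a)) =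
      ∑ j : Fin r, w j * F j y := by
  classical
  refine ⟨fun j => ((Matrix.of fun a j : Fin r => F j (x a)).updateRow ⟨i, h⟩ (Pi.single j 1)).det, fun y => ?_⟩
  rw [Matrix.det_eq_sum_mul_adjugate_row _ ⟨i, h⟩]
  refine sum_congr rfl fun j _ => ?_
  rw [Matrix.adjugate_apply, mul_comm]
  congr 1
  · congr 1
    ext a l
    by_cases ha : a = ⟨i, h⟩
    · subst ha
      rw [Matrix.updateRow_self, Matrix.updateRow_self]
    · rw [Matrix.updateRow_ne ha, Matrix.updateRow_ne ha]
      simp only [Matrix.of_apply]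
      rw [Function.update_of_ne]
      intro h2
      exact ha (Fin.ext h2)
  · simp only [Matrix.of_apply, Function.update_self]

/-- `DD` is a polynomial in every argument -/
theorem DD_poly {r i : ℕ} (h : i < r) (x : ℕ → K) : ∃ P : K[X], P.natDegree ≤ (r - 1) + (r - 1) / 2 ∧
    ∀ y, DD r (Function.update x i y) = P.eval y := by
  obtain ⟨w, hw⟩ := chiA_expand h x fun j y => (ph K j).eval y
  refine ⟨∑ j : Fin r, C (w j) * ph K j, ?_, fun y => ?_⟩
  · refine natDegree_sum_le_of_forall_le _ _ fun j _ => ?_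
    refine (natDegree_C_mul_le _ _).trans ?_
    rw [ph_natDegree]
    omega
  · unfold DD
    rw [hw, eval_finsetSum]
    simp only [eval_mul, eval_C]

theorem VV_poly {r i : ℕ} (h : i < r) (x : ℕ → K) : ∃ P : K[X], P.natDegree ≤ r - 1 ∧
    ∀ y, VV r (Function.update x i y) = P.eval y := by
  obtain ⟨w, hw⟩ := chiA_expand h x fun j y => y ^ j
  refine ⟨∑ j : Fin r, C (w j) * X ^ (j : ℕ), ?_, fun y => ?_⟩
  · refine natDegree_sum_le_of_forall_le _ _ fun j _ => ?_
    refine (natDegree_C_mul_le _ _).trans ?_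
    rw [natDegree_X_pow]
    omega
  · rw [chiA_VV]
    refine (hw y).trans ?_
    rw [eval_finsetSum]
    simp only [eval_mul, eval_C, eval_pow, eval_X]

/-- the matrix with a free last row -/
noncomputable def chiA_mat (r : ℕ) (x : ℕ → K) (v : ℕ → K) : Matrix (Fin (r + 1)) (Fin (r + 1)) K :=
  Matrix.of fun i j : Fin (r + 1) => if (i : ℕ) < r then (dd x (ph K j) i).eval (x i) else v j

theorem chiA_mat_update (r : ℕ) (x v w : ℕ → K) :
    (chiA_mat r x v).updateRow (Fin.last r) (fun j => w j) = chiA_mat r x w := by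
  ext i j
  by_cases hi : i = Fin.last r
  · subst hi
    rw [Matrix.updateRow_self]
    simp [chiA_mat]
  · rw [Matrix.updateRow_ne hi]
    have : (i : ℕ) < r := by
      have h1 := i.2
      have h2 : (i : ℕ) ≠ r := fun h => hi (Fin.ext h)
      omega
    simp [chiA_mat, this]

theorem chiA_mat_det (r : ℕ) (x v : ℕ → K) :
    (chiA_mat r x v).det = ∑ j ∈ range (r + 1), ka r x j * v j := by
  classical
  rw [Matrix.det_eq_sum_mul_adjugate_row _ (Fin.last r), ← Fin.sum_univ_eq_sum_range]
  refine sum_congr rfl fun j _ => ?_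
  rw [Matrix.adjugate_apply, mul_comm]
  congr 1
  · unfold ka
    congr 1
    ext i l
    by_cases hi : i = Fin.last r
    · subst hi
      rw [Matrix.updateRow_self]
      simp only [Matrix.of_apply, Fin.val_last, lt_irrefl, if_false]
      by_cases hl : l = j
      · subst hl
        rw [Pi.single_eq_same, if_pos rfl]
      · rw [Pi.single_eq_of_ne hl, if_neg (fun h => hl (Fin.ext h))]
    · rw [Matrix.updateRow_ne hi]
      have : (i : ℕ) < r := by
        have h1 := i.2
        have h2 : (i : ℕ) ≠ r := fun h => hi (Fin.ext h)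
        omega
      simp [chiA_mat, this]
  · simp [chiA_mat]

theorem chiA_Chi_mat (r : ℕ) (x : ℕ → K) (y : K) :
    Chi (r + 1) (Function.update x r y) = (chiA_mat r x fun j => (dd x (ph K j) r).eval y).det := by
  unfold Chi chiA_mat
  congr 1
  ext i j
  simp only [Matrix.of_apply]
  split_ifs with hi
  · rw [Function.update_of_ne (by omega), chiA_dd_congr (y := x) _ (fun l hl => by
      rw [Function.update_of_ne (by omega)])]
  · have hi' : (i : ℕ) = r := by have := i.2; omega
    rw [hi', Function.update_self, chiA_dd_congr (y := x) _ (fun l hl => by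
      rw [Function.update_of_ne (by omega)])]

theorem chiA_Chi_sum (r : ℕ) (x : ℕ → K) (y : K) :
    Chi (r + 1) (Function.update x r y) = ∑ j ∈ range (r + 1), ka r x j * (dd x (ph K j) r).eval y := by
  rw [chiA_Chi_mat, chiA_mat_det]

theorem ka_top (r : ℕ) (x : ℕ → K) : ka r x r = Chi r x := by
  unfold ka
  rw [Matrix.det_succ_row _ (Fin.last r), sum_eq_single (Fin.last r)]
  · simp only [Matrix.of_apply, Fin.val_last, lt_irrefl, if_false, if_true, mul_one]
    rw [← two_mul, pow_mul, neg_one_sq, one_pow, one_mul]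
    unfold Chi
    congr 1
    ext i j
    simp
  · intro j _ hj
    simp only [Matrix.of_apply, Fin.val_last, lt_irrefl, if_false]
    rw [if_neg (fun h : (j : ℕ) = r => hj (Fin.ext h))]
    ring
  · intro h
    exact absurd (mem_univ _) h

/-- as an element of the module -/
theorem Chi_span (r : ℕ) (x : ℕ → K) (y : K) :
    Chi (r + 1) (Function.update x r y) * ∏ i ∈ range r, (y - x i) = ∑ j ∈ range (r + 1), ka r x j * (ph K j).eval y := by
  rw [← chiA_mat_det r x fun j => (ph K j).eval y, chiA_Chi_mat,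
    ← chiA_mat_update r x (fun j => (dd x (ph K j) r).eval y) fun j => (ph K j).eval y]
  have h1 := Matrix.det_updateRow_sum (chiA_mat r x fun j => (dd x (ph K j) r).eval y) (Fin.last r)
    (fun k : Fin (r + 1) => ∏ s ∈ range (k : ℕ), (y - x s))
  rw [smul_eq_mul, Fin.val_last] at h1
  rw [mul_comm, ← h1]
  congr 2
  funext j
  rw [Finset.sum_apply, Fin.sum_univ_castSucc]
  simp only [Pi.smul_apply, smul_eq_mul, chiA_mat, Matrix.of_apply, Fin.val_castSucc, Fin.is_lt,
    if_true, Fin.val_last, lt_irrefl, if_false]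
  have h2 := congrArg (eval y) (chiA_newton x (ph K j) r)
  rw [eval_add, eval_finsetSum, eval_mul, eval_prod (range r)] at h2
  rw [h2, Fin.sum_univ_eq_sum_range (fun k => (∏ s ∈ range k, (y - x s)) *
    eval (x k) (dd x (ph K j) k)) r]
  simp only [eval_mul, eval_C, eval_prod, eval_sub, eval_X]
  rw [mul_comm (eval y (dd x (ph K j) r))]
  congr 1
  exact sum_congr rfl fun l _ => mul_comm _ _

/-- degree and top coefficient of the divided differences -/
theorem chiA_dq_deg {f : K[X]} {d : ℕ} (a : K) (h : f.natDegree ≤ d + 1) :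
    (dq f a).natDegree ≤ d ∧ (dq f a).coeff d = f.coeff (d + 1) := by
  have h1 : (dq f a).natDegree ≤ d := by
    unfold dq
    rw [natDegree_divByMonic _ (monic_X_sub_C a), natDegree_X_sub_C]
    omega
  refine ⟨h1, ?_⟩
  have h2 := congrArg (fun p => p.coeff (d + 1)) (chiA_dq f a)
  simp only [coeff_add, coeff_C_succ, sub_mul, coeff_sub, coeff_X_mul, coeff_C_mul] at h2
  rw [coeff_eq_zero_of_natDegree_lt (show (dq f a).natDegree < d + 1 by omega)] at h2
  rw [h2]
  ring

theorem chiA_dq_const {f : K[X]} (a : K) (h : f.natDegree = 0) : dq f a = 0 := by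
  rw [eq_C_of_natDegree_eq_zero h]
  exact chiA_dq_unique (c := f.coeff 0) (by simp)

theorem chiA_dd_deg (x : ℕ → K) {f : K[X]} {d : ℕ} (h : f.natDegree ≤ d) (n : ℕ) :
    (n ≤ d → (dd x f n).natDegree ≤ d - n ∧ (dd x f n).coeff (d - n) = f.coeff d) ∧
      (d < n → dd x f n = 0) := by
  induction n with
  | zero => exact ⟨fun _ => ⟨h, rfl⟩, fun h => absurd h (Nat.not_lt_zero _)⟩
  | succ n ih =>
    refine ⟨fun hn => ?_, fun hn => ?_⟩
    · obtain ⟨h1, h2⟩ := ih.1 (by omega)
      obtain ⟨h3, h4⟩ := chiA_dq_deg (d := d - (n + 1)) (x n) (f := dd x f n)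
        (by rw [show d - (n + 1) + 1 = d - n by omega]; exact h1)
      refine ⟨h3, ?_⟩
      show (dq (dd x f n) (x n)).coeff _ = _
      rw [h4, show d - (n + 1) + 1 = d - n by omega, h2]
    · show dq (dd x f n) (x n) = 0
      rcases Nat.lt_or_ge d n with h1 | h1
      · rw [ih.2 h1, chiA_dq_zero]
      · have h2 := (ih.1 h1).1
        exact chiA_dq_const _ (by omega)

/-- degree and leading coefficient in the last argument -/
theorem Chi_lead (r : ℕ) (x : ℕ → K) : ∃ P : K[X], P.natDegree ≤ r / 2 ∧ P.coeff (r / 2) = Chi r x ∧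
    ∀ y, Chi (r + 1) (Function.update x r y) = P.eval y := by
  refine ⟨∑ j ∈ range (r + 1), C (ka r x j) * dd x (ph K j) r, ?_, ?_, fun y => ?_⟩
  · refine natDegree_sum_le_of_forall_le _ _ fun j hj => ?_
    rw [mem_range] at hj
    refine (natDegree_C_mul_le _ _).trans ?_
    have h1 := chiA_dd_deg x (ph_natDegree (K := K) j).le r
    rcases Nat.lt_or_ge (j + j / 2) r with h2 | h2
    · rw [h1.2 h2]
      simp
    · exact (h1.1 h2).1.trans (by omega)
  · rw [finsetSum_coeff, sum_range_succ, sum_eq_zero, zero_add, coeff_C_mul]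
    · have h1 := (chiA_dd_deg x (ph_natDegree (K := K) r).le r).1 (by omega)
      have h2 := h1.2
      rw [show r + r / 2 - r = r / 2 by omega] at h2
      have h3 := (chiA_ph_monic (K := K) r).coeff_natDegree
      rw [ph_natDegree] at h3
      rw [h2, h3, mul_one, ka_top]
    · intro j hj
      rw [mem_range] at hj
      rw [coeff_C_mul]
      have h1 := chiA_dd_deg x (ph_natDegree (K := K) j).le r
      rcases Nat.lt_or_ge (j + j / 2) r with h2 | h2
      · rw [h1.2 h2]
        simp
      · rw [coeff_eq_zero_of_natDegree_lt (lt_of_le_of_lt (h1.1 h2).1 (by omega)), mul_zero]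
  · rw [chiA_Chi_sum, eval_finsetSum]
    simp only [eval_mul, eval_C]

end IP.Slit
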