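import Pool.Agent.Helper60.Slit.ChiA
/-! MODULE CHI-B: symmetry, degree, continuity of `Chi`.
The definitions make sense over every commutative ring and commute with ring homomorphisms, so `Chi r x` is the value at `x`
of a universal polynomial; the symmetry is proved in the field of rational functions. -/
namespace IP.Slit
open Finset Polynomial

/-! ### the same definitions over a commutative ring -/
section ring
variable {R S : Type*} [CommRing R] [CommRing S]

noncomputable def chiB_ph (R : Type*) [CommRing R] (j : ℕ) : R[X] := (X ^ 3 - C 3 * X) ^ (j / 2) * X ^ (j % 2)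

noncomputable def chiB_dd (x : ℕ → R) (f : R[X]) : ℕ → R[X]
  | 0 => f
  | i + 1 => chiB_dd x f i /ₘ (X - C (x i))

noncomputable def chiB_Chi (r : ℕ) (x : ℕ → R) : R :=
  Matrix.det (Matrix.of fun i j : Fin r => (chiB_dd x (chiB_ph R j) i).eval (x i))

noncomputable def chiB_ka (r : ℕ) (x : ℕ → R) (l : ℕ) : R :=
  Matrix.det (Matrix.of fun i j : Fin (r + 1) =>
    if (i : ℕ) < r then (chiB_dd x (chiB_ph R j) i).eval (x i) else if (j : ℕ) = l then 1 else 0)

theorem chiB_ph_map (φ : R →+* S) (j : ℕ) : (chiB_ph R j).map φ = chiB_ph S j := by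
  unfold chiB_ph
  rw [Polynomial.map_mul, Polynomial.map_pow, Polynomial.map_pow, Polynomial.map_sub, Polynomial.map_mul,
    Polynomial.map_pow, Polynomial.map_X, Polynomial.map_C, map_ofNat φ 3]

theorem chiB_dd_map (φ : R →+* S) (x : ℕ → R) (f : R[X]) (n : ℕ) :
    (chiB_dd x f n).map φ = chiB_dd (fun i => φ (x i)) (f.map φ) n := by
  induction n with
  | zero => rfl
  | succ n ih =>
    show (chiB_dd x f n /ₘ (X - C (x n))).map φ = chiB_dd (fun i => φ (x i)) (f.map φ) n /ₘ (X - C (φ (x n)))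
    rw [Polynomial.map_divByMonic φ (monic_X_sub_C _), ih, Polynomial.map_sub, Polynomial.map_X, Polynomial.map_C]

theorem chiB_Chi_map (φ : R →+* S) (r : ℕ) (x : ℕ → R) :
    chiB_Chi r (fun i => φ (x i)) = φ (chiB_Chi r x) := by
  unfold chiB_Chi
  rw [RingHom.map_det]
  congr 1
  ext i j
  simp only [Matrix.of_apply, RingHom.mapMatrix_apply, Matrix.map_apply]
  rw [← chiB_ph_map φ j, ← chiB_dd_map, Polynomial.eval_map, Polynomial.eval₂_at_apply]

theorem chiB_ka_map (φ : R →+* S) (r : ℕ) (x : ℕ → R) (l : ℕ) :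
    chiB_ka r (fun i => φ (x i)) l = φ (chiB_ka r x l) := by
  unfold chiB_ka
  rw [RingHom.map_det]
  congr 1
  ext i j
  simp only [Matrix.of_apply, RingHom.mapMatrix_apply, Matrix.map_apply]
  split_ifs
  · rw [← chiB_ph_map φ j, ← chiB_dd_map, Polynomial.eval_map, Polynomial.eval₂_at_apply]
  · simp
  · simp

end ring

variable {K : Type*} [Field K]

theorem chiB_dd_eq (x : ℕ → K) (f : K[X]) (n : ℕ) : dd x f n = chiB_dd x f n := by
  induction n with
  | zero => rfl
  | succ n ih =>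
    show dq (dd x f n) (x n) = chiB_dd x f n /ₘ (X - C (x n))
    rw [ih]
    rfl

theorem chiB_Chi_eq (r : ℕ) (x : ℕ → K) : Chi r x = chiB_Chi r x := by
  unfold Chi chiB_Chi
  congr 1
  ext i j
  simp only [Matrix.of_apply]
  rw [chiB_dd_eq]
  rfl

theorem chiB_ka_eq (r : ℕ) (x : ℕ → K) (l : ℕ) : ka r x l = chiB_ka r x l := by
  unfold ka chiB_ka
  congr 1
  ext i j
  simp only [Matrix.of_apply, chiB_dd_eq]
  rfl

/-! ### symmetry -/

/-- the permutation of `Fin r` -/
def chiB_fin {r : ℕ} (e : Equiv.Perm ℕ) (he : ∀ j, e j < r ↔ j < r) : Equiv.Perm (Fin r) where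
  toFun i := ⟨e i, (he i).2 i.2⟩
  invFun i := ⟨e.symm i, (he _).1 (by rw [Equiv.apply_symm_apply]; exact i.2)⟩
  left_inv i := by
    apply Fin.ext
    simp
  right_inv i := by
    apply Fin.ext
    simp

theorem chiB_det_perm {r : ℕ} (e : Equiv.Perm ℕ) (he : ∀ j, e j < r ↔ j < r) (x : ℕ → K) (F : ℕ → K → K) :
    Matrix.det (Matrix.of fun a j : Fin r => F j (x (e a))) =
      ((Equiv.Perm.sign (chiB_fin e he) : ℤ) : K) * Matrix.det (Matrix.of fun a j : Fin r => F j (x a)) := by
  rw [← Matrix.det_permute]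
  rfl

theorem chiB_Chi_perm {r : ℕ} (e : Equiv.Perm ℕ) (he : ∀ j, e j < r ↔ j < r) {x : ℕ → K} (hx : VV r x ≠ 0) :
    Chi r (fun j => x (e j)) = Chi r x := by
  have h1 : DD r (fun j => x (e j)) = ((Equiv.Perm.sign (chiB_fin e he) : ℤ) : K) * DD r x :=
    chiB_det_perm e he x fun j y => (ph K j).eval y
  have h2 : VV r (fun j => x (e j)) = ((Equiv.Perm.sign (chiB_fin e he) : ℤ) : K) * VV r x := by
    rw [chiA_VV, chiA_VV]
    exact chiB_det_perm e he x fun j y => y ^ j
  rw [← Chi_mul, ← Chi_mul, h2] at h1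
  have hs : ((Equiv.Perm.sign (chiB_fin e he) : ℤ) : K) ≠ 0 := by
    rcases Int.units_eq_one_or (Equiv.Perm.sign (chiB_fin e he)) with h | h <;> rw [h] <;> simp
  apply mul_right_cancel₀ (mul_ne_zero hs hx)
  rw [h1]
  ring

theorem Chi_perm [CharZero K] {r : ℕ} (e : Equiv.Perm ℕ) (he : ∀ j, e j < r ↔ j < r) (x : ℕ → K) :
    Chi r (fun j => x (e j)) = Chi r x := by
  have hinj : Function.Injective (algebraMap (MvPolynomial ℕ K) (FractionRing (MvPolynomial ℕ K))) :=
    IsFractionRing.injective _ _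
  have key : chiB_Chi r (fun j => (MvPolynomial.X (e j) : MvPolynomial ℕ K)) =
      chiB_Chi r (fun j => (MvPolynomial.X j : MvPolynomial ℕ K)) := by
    apply hinj
    rw [← chiB_Chi_map, ← chiB_Chi_map, ← chiB_Chi_eq, ← chiB_Chi_eq]
    refine chiB_Chi_perm (x := fun j => algebraMap (MvPolynomial ℕ K) (FractionRing (MvPolynomial ℕ K))
      (MvPolynomial.X j)) e he ?_
    rw [VV_ne_zero]
    intro j _ i hi h
    have h1 := MvPolynomial.X_injective (hinj h)
    omega
  have h1 := congrArg (MvPolynomial.eval x) key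
  rw [← chiB_Chi_map, ← chiB_Chi_map] at h1
  simp only [MvPolynomial.eval_X] at h1
  rw [chiB_Chi_eq, chiB_Chi_eq, h1]

theorem Chi_swap [CharZero K] {r i : ℕ} (h : i + 1 < r) (x : ℕ → K) : Chi r (fun j => x (Equiv.swap i (i + 1) j)) = Chi r x := by
  refine Chi_perm (Equiv.swap i (i + 1)) (fun j => ?_) x
  by_cases h1 : j = i
  · rw [h1, Equiv.swap_apply_left]
    omega
  · by_cases h2 : j = i + 1
    · rw [h2, Equiv.swap_apply_right]
      omega
    · rw [Equiv.swap_apply_of_ne_of_ne h1 h2]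

/-- `Chi` is a polynomial in every argument -/
theorem Chi_poly [CharZero K] {r i : ℕ} (h : i < r) (x : ℕ → K) : ∃ P : K[X], P.natDegree ≤ (r - 1) / 2 ∧
    ∀ y, Chi r (Function.update x i y) = P.eval y := by
  obtain ⟨r, rfl⟩ : ∃ s, r = s + 1 := ⟨r - 1, by omega⟩
  have he : ∀ j, Equiv.swap i r j < r + 1 ↔ j < r + 1 := by
    intro j
    by_cases h1 : j = i
    · rw [h1, Equiv.swap_apply_left]
      omega
    · by_cases h2 : j = r
      · rw [h2, Equiv.swap_apply_right]
        omega
      · rw [Equiv.swap_apply_of_ne_of_ne h1 h2]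
  obtain ⟨P, hP1, _, hP2⟩ := Chi_lead r (fun j => x (Equiv.swap i r j))
  refine ⟨P, by simpa using hP1, fun y => ?_⟩
  rw [← hP2 y, ← Chi_perm (Equiv.swap i r) he]
  congr 1
  funext j
  by_cases h1 : j = r
  · rw [h1, Equiv.swap_apply_right, Function.update_self, Function.update_self]
  · rw [Function.update_of_ne h1, Function.update_of_ne]
    intro h2
    apply h1
    have h3 := congrArg (Equiv.swap i r) h2
    rw [Equiv.swap_apply_self, Equiv.swap_apply_left] at h3
    exact h3

/-! ### real and complex arguments, continuity -/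

theorem Chi_ofReal (r : ℕ) (x : ℕ → ℝ) : Chi r (fun i => (x i : ℂ)) = ((Chi r x : ℝ) : ℂ) := by
  rw [chiB_Chi_eq, chiB_Chi_eq]
  exact chiB_Chi_map Complex.ofRealHom r x

theorem ka_ofReal (r : ℕ) (x : ℕ → ℝ) (l : ℕ) : ka r (fun i => (x i : ℂ)) l = ((ka r x l : ℝ) : ℂ) := by
  rw [chiB_ka_eq, chiB_ka_eq]
  exact chiB_ka_map Complex.ofRealHom r x l

theorem chiB_Chi_universal (r : ℕ) (x : ℕ → K) :
    Chi r x = MvPolynomial.eval x (chiB_Chi r (fun j => (MvPolynomial.X j : MvPolynomial ℕ K))) := by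
  rw [← chiB_Chi_map, chiB_Chi_eq]
  simp only [MvPolynomial.eval_X]

theorem chiB_ka_universal (r : ℕ) (x : ℕ → K) (l : ℕ) :
    ka r x l = MvPolynomial.eval x (chiB_ka r (fun j => (MvPolynomial.X j : MvPolynomial ℕ K)) l) := by
  rw [← chiB_ka_map, chiB_ka_eq]
  simp only [MvPolynomial.eval_X]

theorem Chi_continuous_real (r : ℕ) : Continuous (fun x : ℕ → ℝ => Chi r x) := by
  simp only [chiB_Chi_universal]
  exact MvPolynomial.continuous_eval _

theorem Chi_continuous_complex (r : ℕ) : Continuous (fun x : ℕ → ℂ => Chi r x) := by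
  simp only [chiB_Chi_universal]
  exact MvPolynomial.continuous_eval _

theorem ka_continuous_real (r l : ℕ) : Continuous (fun x : ℕ → ℝ => ka r x l) := by
  simp only [chiB_ka_universal]
  exact MvPolynomial.continuous_eval _

theorem ka_continuous_complex (r l : ℕ) : Continuous (fun x : ℕ → ℂ => ka r x l) := by
  simp only [chiB_ka_universal]
  exact MvPolynomial.continuous_eval _

end IP.Slit
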