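import Pool.Agent.Helper60.Slit.ChiB
/-! MODULE WHEEL (`x0^2+x0 x1+x1^2 = 3`): the functions `φ_{j+2} - c_0 φ_j = (c - c_0) φ_j` vanish at `x0` and `x1`;
column operations give `DD (r+2) = (x1-x0) ∏ (c_s - c_0) DD r`, `(c_s-c_0) = (s-x0)(s-x1)(s+x0+x1)`.
`Chi_wheel` directly with divided differences. -/
namespace IP.Slit
open Finset Polynomial
variable {K : Type*} [Field K]

theorem qq_fact {a b : K} (h : qq a b = 0) (s : K) :
    (s ^ 3 - 3 * s) - (a ^ 3 - 3 * a) = (s - a) * (s - b) * (s + a + b) := by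
  unfold qq at h
  linear_combination (s - a) * h

/-- expansion with respect to two rows -/
theorem wh_block {r : ℕ} (M : Matrix (Fin (r + 2)) (Fin (r + 2)) K)
    (h0 : ∀ j : Fin r, M 0 j.succ.succ = 0) (h1 : ∀ j : Fin r, M 1 j.succ.succ = 0) :
    M.det = (M 0 0 * M 1 1 - M 0 1 * M 1 0) *
      (M.submatrix (fun i : Fin r => i.succ.succ) (fun i : Fin r => i.succ.succ)).det := by
  rw [Matrix.det_succ_row_zero, Fin.sum_univ_succ, Fin.sum_univ_succ]
  have hz : ∑ i : Fin r, (-1) ^ ((i.succ.succ : Fin (r + 2)) : ℕ) * M 0 i.succ.succ *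
      (M.submatrix Fin.succ (Fin.succAbove i.succ.succ)).det = 0 :=
    Finset.sum_eq_zero fun i _ => by rw [h0]; ring
  rw [hz]
  have e0 : (M.submatrix Fin.succ (Fin.succAbove (0 : Fin (r + 2)))).det =
      M 1 1 * (M.submatrix (fun i : Fin r => i.succ.succ) (fun i : Fin r => i.succ.succ)).det := by
    rw [Matrix.det_succ_row_zero, Fin.sum_univ_succ]
    have hz : ∑ i : Fin r, (-1) ^ ((i.succ : Fin (r + 1)) : ℕ) *
        (M.submatrix Fin.succ (Fin.succAbove (0 : Fin (r + 2)))) 0 i.succ *
        ((M.submatrix Fin.succ (Fin.succAbove (0 : Fin (r + 2)))).submatrix Fin.succ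
          (Fin.succAbove i.succ)).det = 0 :=
      Finset.sum_eq_zero fun i _ => by
        have : (M.submatrix Fin.succ (Fin.succAbove (0 : Fin (r + 2)))) 0 i.succ = 0 := h1 i
        rw [this]; ring
    rw [hz]
    simp only [Fin.val_zero, pow_zero, one_mul, add_zero, Matrix.submatrix_apply,
      Fin.succAbove_zero, Matrix.submatrix_submatrix]
    rfl
  have e1 : (M.submatrix Fin.succ (Fin.succAbove ((0 : Fin (r + 1)).succ))).det =
      M 1 0 * (M.submatrix (fun i : Fin r => i.succ.succ) (fun i : Fin r => i.succ.succ)).det := by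
    rw [Matrix.det_succ_row_zero, Fin.sum_univ_succ]
    have hs : ∀ i : Fin r, Fin.succAbove ((0 : Fin (r + 1)).succ) i.succ = i.succ.succ := by
      intro i
      rw [Fin.succAbove_of_le_castSucc]
      exact Nat.succ_le_succ (Nat.zero_le _)
    have hz : ∑ i : Fin r, (-1) ^ ((i.succ : Fin (r + 1)) : ℕ) *
        (M.submatrix Fin.succ (Fin.succAbove ((0 : Fin (r + 1)).succ))) 0 i.succ *
        ((M.submatrix Fin.succ (Fin.succAbove ((0 : Fin (r + 1)).succ))).submatrix Fin.succ
          (Fin.succAbove i.succ)).det = 0 :=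
      Finset.sum_eq_zero fun i _ => by
        have : (M.submatrix Fin.succ (Fin.succAbove ((0 : Fin (r + 1)).succ))) 0 i.succ = 0 := by
          rw [Matrix.submatrix_apply, hs]
          exact h1 i
        rw [this]; ring
    rw [hz]
    simp only [Fin.val_zero, pow_zero, one_mul, add_zero, Matrix.submatrix_apply,
      Fin.succAbove_zero, Matrix.submatrix_submatrix]
    have h2 : Fin.succAbove ((0 : Fin (r + 1)).succ) 0 = 0 := by
      rw [Fin.succAbove_of_castSucc_lt]
      · rfl
      · exact Nat.zero_lt_one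
    rw [h2]
    congr 2
  rw [e0, e1]
  simp only [Fin.val_zero, pow_zero, one_mul, Fin.val_succ, zero_add, pow_one, add_zero]
  have h3 : (0 : Fin (r + 1)).succ = 1 := rfl
  rw [h3]
  ring

/-- the column operation -/
theorem wh_col {r : ℕ} (M : Matrix (Fin (r + 2)) (Fin (r + 2)) K) (a : K) :
    M.det = (Matrix.of fun i j : Fin (r + 2) => if h : 2 ≤ (j : ℕ) then
      M i j - a * M i ⟨(j : ℕ) - 2, by omega⟩ else M i j).det := by
  let N : Matrix (Fin (r + 2)) (Fin (r + 2)) K :=
    Matrix.of fun k j => if (k : ℕ) + 2 = j then 1 else 0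
  have hU : (1 - a • N).det = 1 := by
    rw [Matrix.det_of_isUpperTriangular]
    · refine Finset.prod_eq_one fun i _ => ?_
      simp [N]
    · intro i j hij
      have hij' : (j : ℕ) < i := hij
      have h1 : ¬ ((i : ℕ) + 2 = j) := by omega
      have h2 : i ≠ j := by
        rintro rfl
        exact lt_irrefl _ hij'
      simp [N, h1, h2]
  have hMN : M.det = (M * (1 - a • N)).det := by
    rw [Matrix.det_mul, hU, mul_one]
  rw [hMN]
  congr 1
  ext i j
  rw [Matrix.mul_sub, Matrix.mul_one, Matrix.mul_smul, Matrix.sub_apply, Matrix.smul_apply,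
    Matrix.of_apply, smul_eq_mul, Matrix.mul_apply]
  split_ifs with h
  · congr 2
    rw [Finset.sum_eq_single ⟨(j : ℕ) - 2, by omega⟩]
    · simp only [N, Matrix.of_apply]
      rw [if_pos (by omega), mul_one]
    · intro k _ hk
      simp only [N, Matrix.of_apply]
      rw [if_neg, mul_zero]
      intro h2
      apply hk
      apply Fin.ext
      change (k : ℕ) = (j : ℕ) - 2
      omega
    · simp
  · rw [Finset.sum_eq_zero, mul_zero, sub_zero]
    intro k _
    simp only [N, Matrix.of_apply]
    rw [if_neg (by omega), mul_zero]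

theorem wh_ph (j : ℕ) : ph K (j + 2) = (X ^ 3 - C 3 * X) * ph K j := by
  unfold ph
  have h1 : (j + 2) / 2 = j / 2 + 1 := by omega
  have h2 : (j + 2) % 2 = j % 2 := by omega
  rw [h1, h2, pow_succ]
  ring

theorem DD_wheel (r : ℕ) (x : ℕ → K) (h : qq (x 0) (x 1) = 0) :
    DD (r + 2) x = (x 1 - x 0) * (∏ i ∈ range r, (x (i + 2) - x 0) * (x (i + 2) - x 1) * (x (i + 2) + x 0 + x 1)) *
      DD r (fun i => x (i + 2)) := by
  unfold DD
  rw [wh_col _ (x 0 ^ 3 - 3 * x 0), wh_block]
  · have e00 : ((Matrix.of fun i j : Fin (r + 2) => if h : 2 ≤ (j : ℕ) then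
        (Matrix.of fun i j : Fin (r + 2) => (ph K j).eval (x i)) i j - (x 0 ^ 3 - 3 * x 0) *
          (Matrix.of fun i j : Fin (r + 2) => (ph K j).eval (x i)) i ⟨(j : ℕ) - 2, by omega⟩
        else (Matrix.of fun i j : Fin (r + 2) => (ph K j).eval (x i)) i j) :
        Matrix (Fin (r + 2)) (Fin (r + 2)) K).submatrix (fun i : Fin r => i.succ.succ)
          (fun i : Fin r => i.succ.succ) =
        Matrix.of fun i j : Fin r => ((x ((i : ℕ) + 2) - x 0) * (x ((i : ℕ) + 2) - x 1) *
          (x ((i : ℕ) + 2) + x 0 + x 1)) *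
          (Matrix.of fun i j : Fin r => (ph K j).eval (x ((i : ℕ) + 2))) i j := by
      ext i j
      simp only [Matrix.submatrix_apply, Matrix.of_apply, Fin.val_succ]
      rw [dif_pos (by omega)]
      have h1 : (j : ℕ) + 1 + 1 - 2 = j := by omega
      have h2 : (j : ℕ) + 1 + 1 = j + 2 := by omega
      have h3 : (i : ℕ) + 1 + 1 = i + 2 := by omega
      rw [h1, h2, h3, wh_ph, eval_mul, ← qq_fact h]
      simp only [eval_sub, eval_pow, eval_X, eval_mul, eval_C]
      ring
    rw [e00, Matrix.det_mul_column]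
    rw [Finset.prod_range fun i => (x (i + 2) - x 0) * (x (i + 2) - x 1) * (x (i + 2) + x 0 + x 1)]
    simp [ph]
    ring
  · intro j
    simp only [Matrix.of_apply, Fin.val_succ, Fin.val_zero]
    rw [dif_pos (by omega)]
    have h1 : (j : ℕ) + 1 + 1 - 2 = j := by omega
    have h2 : (j : ℕ) + 1 + 1 = j + 2 := by omega
    rw [h1, h2, wh_ph, eval_mul]
    simp only [eval_sub, eval_pow, eval_X, eval_mul, eval_C]
    ring
  · intro j
    simp only [Matrix.of_apply, Fin.val_succ, Fin.val_one]
    rw [dif_pos (by omega)]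
    have h1 : (j : ℕ) + 1 + 1 - 2 = j := by omega
    have h2 : (j : ℕ) + 1 + 1 = j + 2 := by omega
    rw [h1, h2, wh_ph, eval_mul]
    simp only [eval_sub, eval_pow, eval_X, eval_mul, eval_C]
    have h3 := qq_fact h (x 1)
    linear_combination (ph K j).eval (x 1) * h3

/-! ### divided differences -/

theorem wh_dq_spec (f : K[X]) (a : K) : f = (X - C a) * dq f a + C (f.eval a) := by
  unfold dq
  have h := modByMonic_add_div f (X - C a)
  rw [modByMonic_X_sub_C_eq_C_eval] at h
  rw [add_comm]
  exact h.symm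

theorem wh_dq_unique {f q : K[X]} {a c : K} (h : f = (X - C a) * q + C c) : dq f a = q := by
  unfold dq
  refine (div_modByMonic_unique q (C c) (monic_X_sub_C a) ⟨?_, ?_⟩).1
  · rw [h]; ring
  · rw [degree_X_sub_C]
    exact degree_C_lt

theorem wh_dq_mul (a : K) (g : K[X]) : dq ((X - C a) * g) a = g :=
  wh_dq_unique (c := 0) (by simp)

theorem wh_dq_sub (f g : K[X]) (a : K) : dq (f - g) a = dq f a - dq g a := by
  refine wh_dq_unique (c := f.eval a - g.eval a) ?_
  have h1 := wh_dq_spec f a
  have h2 := wh_dq_spec g a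
  rw [C_sub]
  linear_combination h1 - h2

theorem wh_dq_add (f g : K[X]) (a : K) : dq (f + g) a = dq f a + dq g a := by
  refine wh_dq_unique (c := f.eval a + g.eval a) ?_
  have h1 := wh_dq_spec f a
  have h2 := wh_dq_spec g a
  rw [C_add]
  linear_combination h1 + h2

theorem wh_dq_Cmul (c : K) (f : K[X]) (a : K) : dq (C c * f) a = C c * dq f a := by
  refine wh_dq_unique (c := c * f.eval a) ?_
  have h1 := wh_dq_spec f a
  rw [C_mul]
  linear_combination (C c) * h1

theorem wh_dq_C (c a : K) : dq (C c : K[X]) a = 0 :=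
  wh_dq_unique (c := c) (by simp)

theorem wh_dd_sub (x : ℕ → K) (f g : K[X]) (i : ℕ) : dd x (f - g) i = dd x f i - dd x g i := by
  induction i with
  | zero => rfl
  | succ i ih =>
    change dq (dd x (f - g) i) (x i) = dq (dd x f i) (x i) - dq (dd x g i) (x i)
    rw [ih, wh_dq_sub]

theorem wh_dd_Cmul (x : ℕ → K) (c : K) (f : K[X]) (i : ℕ) : dd x (C c * f) i = C c * dd x f i := by
  induction i with
  | zero => rfl
  | succ i ih =>
    change dq (dd x (C c * f) i) (x i) = C c * dq (dd x f i) (x i)
    rw [ih, wh_dq_Cmul]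

theorem wh_dd_shift (x : ℕ → K) (f : K[X]) (i : ℕ) :
    dd x f (i + 1) = dd (fun k => x (k + 1)) (dq f (x 0)) i := by
  induction i with
  | zero => rfl
  | succ i ih =>
    change dq (dd x f (i + 1)) (x (i + 1)) = dq (dd (fun k => x (k + 1)) (dq f (x 0)) i) (x (i + 1))
    rw [ih]

theorem wh_dd_mul (x : ℕ → K) (g : K[X]) (i : ℕ) :
    dd x ((X - C (x 0)) * g) (i + 1) = dd (fun k => x (k + 1)) g i := by
  rw [wh_dd_shift, wh_dq_mul]

theorem wh_dd_mul2 (x : ℕ → K) (g : K[X]) (i : ℕ) :
    dd x ((X - C (x 0)) * ((X - C (x 1)) * g)) (i + 2) = dd (fun k => x (k + 2)) g i := by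
  have h1 := wh_dd_mul x ((X - C (x 1)) * g) (i + 1)
  have h2 := wh_dd_mul (fun k => x (k + 1)) g i
  exact h1.trans h2

theorem wh_dd_lin (x : ℕ → K) (s : K) (f : K[X]) (i : ℕ) :
    dd x ((X + C s) * f) (i + 1) =
      (X + C s) * dd x f (i + 1) + C ((dd x f i).eval (x i)) := by
  induction i with
  | zero =>
    change dq ((X + C s) * f) (x 0) = (X + C s) * dq f (x 0) + C (f.eval (x 0))
    refine wh_dq_unique (c := (x 0 + s) * f.eval (x 0)) ?_
    have h1 := wh_dq_spec f (x 0)
    rw [C_mul, C_add]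
    linear_combination (X + C s) * h1
  | succ i ih =>
    change dq (dd x ((X + C s) * f) (i + 1)) (x (i + 1)) =
      (X + C s) * dq (dd x f (i + 1)) (x (i + 1)) + C ((dd x f (i + 1)).eval (x (i + 1)))
    rw [ih, wh_dq_add, wh_dq_C, add_zero]
    refine wh_dq_unique (c := (x (i + 1) + s) * (dd x f (i + 1)).eval (x (i + 1))) ?_
    have h1 := wh_dq_spec (dd x f (i + 1)) (x (i + 1))
    rw [C_mul, C_add]
    linear_combination (X + C s) * h1

/-- the row operation -/
theorem wh_row (r : ℕ) (y : ℕ → K) (s : K) :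
    (Matrix.of fun i j : Fin r => (dd y ((X + C s) * ph K j) i).eval (y i)).det =
      (∏ i ∈ range r, (y i + s)) * Chi r y := by
  let Lo : Matrix (Fin r) (Fin r) K :=
    Matrix.of fun i k => if i = k then y i + s else if (k : ℕ) + 1 = i then 1 else 0
  have h1 : (Matrix.of fun i j : Fin r => (dd y ((X + C s) * ph K j) i).eval (y i)) =
      Lo * Matrix.of fun i j : Fin r => (dd y (ph K j) i).eval (y i) := by
    ext i j
    rw [Matrix.mul_apply, Matrix.of_apply]
    rcases i with ⟨i, hi⟩
    rcases i with _ | i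
    · rw [Finset.sum_eq_single (⟨0, hi⟩ : Fin r)]
      · simp [Lo, dd]
      · intro k _ hk
        simp [Lo, Ne.symm hk]
      · simp
    · have hi' : i < r := by omega
      rw [Finset.sum_eq_add (⟨i + 1, hi⟩ : Fin r) (⟨i, hi'⟩ : Fin r)]
      · change (dd y ((X + C s) * ph K j) (i + 1)).eval (y (i + 1)) = _
        rw [wh_dd_lin]
        simp [Lo]
      · intro h
        have := congrArg Fin.val h
        simp at this
      · intro k _ hk
        have h2 : ¬ ((k : ℕ) + 1 = i + 1) := by
          intro h3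
          apply hk.2
          apply Fin.ext
          change (k : ℕ) = i
          omega
        simp only [Lo, Matrix.of_apply]
        rw [if_neg (Ne.symm hk.1), if_neg h2, zero_mul]
      · simp
      · simp
  rw [h1, Matrix.det_mul, Matrix.det_of_isLowerTriangular]
  · rw [Finset.prod_range fun i => y i + s]
    simp [Lo, Chi]
  · intro i j hij
    have hij' : (i : ℕ) < j := hij
    have h2 : ¬ ((j : ℕ) + 1 = i) := by omega
    have h3 : i ≠ j := by
      rintro rfl
      exact lt_irrefl _ hij'
    simp [Lo, h2, h3]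

theorem wh_cfact {a b : K} (h : qq a b = 0) :
    (X ^ 3 - C 3 * X : K[X]) - C (a ^ 3 - 3 * a) = (X - C a) * ((X - C b) * (X + C (a + b))) := by
  unfold qq at h
  have h' : (C a ^ 2 + C a * C b + C b ^ 2 - C 3 : K[X]) = 0 := by
    rw [← C_pow, ← C_pow, ← C_mul, ← C_add, ← C_add, ← C_sub, h, C_0]
  have h3 : (C (a ^ 3 - 3 * a) : K[X]) = C a ^ 3 - C 3 * C a := by simp
  rw [h3, C_add]
  linear_combination (X - C a) * h'

theorem wh_Chi (r : ℕ) (x : ℕ → K) (h : qq (x 0) (x 1) = 0) :
    Chi (r + 2) x = (∏ i ∈ range r, (x (i + 2) + x 0 + x 1)) * Chi r (fun i => x (i + 2)) := by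
  have hlow : ∀ j i : ℕ, dd x (ph K (j + 2)) i - C (x 0 ^ 3 - 3 * x 0) * dd x (ph K j) i =
      dd x ((X - C (x 0)) * ((X - C (x 1)) * ((X + C (x 0 + x 1)) * ph K j))) i := by
    intro j i
    rw [← wh_dd_Cmul, ← wh_dd_sub]
    congr 1
    rw [wh_ph]
    have := wh_cfact h
    linear_combination (ph K j) * this
  unfold Chi
  rw [wh_col _ (x 0 ^ 3 - 3 * x 0), wh_block]
  · have e00 : ((Matrix.of fun i j : Fin (r + 2) => if h : 2 ≤ (j : ℕ) then
        (Matrix.of fun i j : Fin (r + 2) => (dd x (ph K j) i).eval (x i)) i j -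
          (x 0 ^ 3 - 3 * x 0) *
          (Matrix.of fun i j : Fin (r + 2) => (dd x (ph K j) i).eval (x i)) i
            ⟨(j : ℕ) - 2, by omega⟩
        else (Matrix.of fun i j : Fin (r + 2) => (dd x (ph K j) i).eval (x i)) i j) :
        Matrix (Fin (r + 2)) (Fin (r + 2)) K).submatrix (fun i : Fin r => i.succ.succ)
          (fun i : Fin r => i.succ.succ) =
        Matrix.of fun i j : Fin r =>
          (dd (fun i => x (i + 2)) ((X + C (x 0 + x 1)) * ph K j) i).eval (x ((i : ℕ) + 2)) := by
      ext i j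
      simp only [Matrix.submatrix_apply, Matrix.of_apply, Fin.val_succ]
      rw [dif_pos (by omega)]
      have h1 : (j : ℕ) + 1 + 1 - 2 = j := by omega
      have h2 : (j : ℕ) + 1 + 1 = j + 2 := by omega
      have h3 : (i : ℕ) + 1 + 1 = i + 2 := by omega
      rw [h1, h2, h3]
      have h4 := congrArg (fun p => p.eval (x ((i : ℕ) + 2))) (hlow j (i + 2))
      simp only [eval_sub, eval_mul, eval_C] at h4
      rw [wh_dd_mul2] at h4
      exact h4
    rw [e00, wh_row r (fun i => x (i + 2)) (x 0 + x 1)]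
    have h5 : ∏ i ∈ range r, (x (i + 2) + (x 0 + x 1)) = ∏ i ∈ range r, (x (i + 2) + x 0 + x 1) :=
      Finset.prod_congr rfl fun i _ => by ring
    rw [h5]
    have h6 : dd x (ph K 1) 1 = 1 := by
      change dq (ph K 1) (x 0) = 1
      refine wh_dq_unique (c := x 0) ?_
      simp [ph]
    have h7 : dd x (ph K 0) 1 = 0 := by
      change dq (ph K 0) (x 0) = 0
      refine wh_dq_unique (c := 1) ?_
      simp [ph]
    have h8 : dd x (ph K 0) 0 = 1 := by simp [dd, ph]
    simp only [Matrix.of_apply, Fin.val_zero, Fin.val_one]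
    rw [dif_neg (by omega), dif_neg (by omega), dif_neg (by omega), dif_neg (by omega), h6, h7, h8]
    simp [Chi]
  · intro j
    simp only [Matrix.of_apply, Fin.val_succ, Fin.val_zero]
    rw [dif_pos (by omega)]
    have h1 : (j : ℕ) + 1 + 1 - 2 = j := by omega
    have h2 : (j : ℕ) + 1 + 1 = j + 2 := by omega
    rw [h1, h2]
    have h4 := congrArg (fun p => p.eval (x 0)) (hlow j 0)
    simp only [eval_sub, eval_mul, eval_C] at h4
    rw [h4]
    simp [dd]
  · intro j
    simp only [Matrix.of_apply, Fin.val_succ, Fin.val_one]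
    rw [dif_pos (by omega)]
    have h1 : (j : ℕ) + 1 + 1 - 2 = j := by omega
    have h2 : (j : ℕ) + 1 + 1 = j + 2 := by omega
    rw [h1, h2]
    have h4 := congrArg (fun p => p.eval (x 1)) (hlow j 1)
    simp only [eval_sub, eval_mul, eval_C] at h4
    rw [wh_dd_mul x _ 0] at h4
    rw [h4]
    simp [dd]

theorem Chi_wheel [CharZero K] (r : ℕ) (x : ℕ → K) (h : qq (x 0) (x 1) = 0) (h01 : x 0 ≠ x 1) :
    Chi (r + 2) x = (∏ i ∈ range r, (x (i + 2) + x 0 + x 1)) * Chi r (fun i => x (i + 2)) := by
  have _ := h01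
  exact wh_Chi r x h

/-- the permutation which moves `i`, `i + 1` to the front -/
def wh_e (i : ℕ) : Equiv.Perm ℕ where
  toFun j := if j = 0 then i else if j = 1 then i + 1 else if j < i + 2 then j - 2 else j
  invFun k := if k < i then k + 2 else if k = i then 0 else if k = i + 1 then 1 else k
  left_inv j := by
    dsimp only
    by_cases h0 : j = 0
    · rw [if_pos h0, if_neg (by omega), if_pos rfl, h0]
    rw [if_neg h0]
    by_cases h1 : j = 1
    · rw [if_pos h1, if_neg (by omega), if_neg (by omega), if_pos rfl, h1]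
    rw [if_neg h1]
    by_cases h2 : j < i + 2
    · rw [if_pos h2, if_pos (by omega)]
      omega
    · rw [if_neg h2, if_neg (by omega), if_neg (by omega), if_neg (by omega)]
  right_inv k := by
    dsimp only
    by_cases h0 : k < i
    · rw [if_pos h0, if_neg (by omega), if_neg (by omega), if_pos (by omega)]
      omega
    rw [if_neg h0]
    by_cases h1 : k = i
    · rw [if_pos h1, if_pos rfl, h1]
    rw [if_neg h1]
    by_cases h2 : k = i + 1
    · rw [if_pos h2, if_neg (by omega), if_pos rfl, h2]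
    · rw [if_neg h2, if_neg (by omega), if_neg (by omega), if_neg (by omega)]

theorem wh_e_lt {r i : ℕ} (hi : i ≤ r) (j : ℕ) : wh_e i j < r + 2 ↔ j < r + 2 := by
  change (if j = 0 then i else if j = 1 then i + 1 else if j < i + 2 then j - 2 else j) < r + 2 ↔ _
  split_ifs <;> omega

/-- the wheel pair at the positions `i`, `i+1` -/
theorem Chi_wheel' [CharZero K] {r i : ℕ} (hi : i ≤ r) (x : ℕ → K) (h : qq (x i) (x (i + 1)) = 0) (h01 : x i ≠ x (i + 1)) :
    Chi (r + 2) x = (∏ j ∈ (range (r + 2)).filter (fun j => j ≠ i ∧ j ≠ i + 1), (x j + x i + x (i + 1))) *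
      Chi r (rmv i x) := by
  rw [← Chi_perm (wh_e i) (wh_e_lt hi) x]
  have h0 : (wh_e i) 0 = i := rfl
  have h1 : (wh_e i) 1 = i + 1 := rfl
  have h2 : ∀ j, (wh_e i) (j + 2) = if j < i then j else j + 2 := by
    intro j
    change (if j + 2 = 0 then i else if j + 2 = 1 then i + 1 else if j + 2 < i + 2 then j + 2 - 2
      else j + 2) = if j < i then j else j + 2
    rw [if_neg (by omega), if_neg (by omega)]
    by_cases h3 : j < i
    · rw [if_pos (by omega), if_pos h3]
      omega
    · rw [if_neg (by omega), if_neg h3]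
  have hx : ∀ j, x ((wh_e i) (j + 2)) = rmv i x j := by
    intro j
    rw [h2]
    unfold rmv
    split_ifs <;> rfl
  rw [Chi_wheel r (fun j => x ((wh_e i) j)) (by simpa only [h0, h1] using h)
    (by simpa only [h0, h1] using h01)]
  simp only [h0, h1, hx]
  congr 1
  refine Finset.prod_bij' (fun j _ => if j < i then j else j + 2)
    (fun j _ => if j < i then j else j - 2) ?_ ?_ ?_ ?_ ?_
  · intro j hj
    rw [Finset.mem_range] at hj
    rw [Finset.mem_filter, Finset.mem_range]
    split_ifs <;> omega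
  · intro j hj
    rw [Finset.mem_filter, Finset.mem_range] at hj
    rw [Finset.mem_range]
    split_ifs <;> omega
  · intro j hj
    by_cases h3 : j < i
    · rw [if_pos h3, if_pos h3]
    · rw [if_neg h3, if_neg (by omega)]
      omega
  · intro j hj
    rw [Finset.mem_filter, Finset.mem_range] at hj
    by_cases h3 : j < i
    · rw [if_pos h3, if_pos h3]
    · rw [if_neg h3, if_neg (by omega)]
      omega
  · intro j _
    unfold rmv
    split_ifs <;> rfl

theorem AB_eval (r : ℕ) (x : ℕ → ℂ) (y : ℂ) :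
    Chi (r + 1) (Function.update x r y) * ∏ i ∈ range r, (y - x i) =
      (AP r x).eval (y ^ 3 - 3 * y) + (BP r x).eval (y ^ 3 - 3 * y) * y := by
  rw [Chi_span]
  unfold AP BP
  rw [eval_finsetSum, eval_finsetSum, Finset.sum_mul,
    ← Finset.sum_filter_add_sum_filter_not (range (r + 1)) (fun j => j % 2 = 0)]
  congr 1
  · refine Finset.sum_congr rfl fun j hj => ?_
    rw [Finset.mem_filter] at hj
    rw [ph_eval, hj.2]
    simp
  · have h1 : (range (r + 1)).filter (fun j => ¬ j % 2 = 0) =
        (range (r + 1)).filter (fun j => j % 2 = 1) := by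
      refine Finset.filter_congr fun j _ => ?_
      omega
    rw [h1]
    refine Finset.sum_congr rfl fun j hj => ?_
    rw [Finset.mem_filter] at hj
    rw [ph_eval, hj.2]
    simp only [eval_mul, eval_C, eval_pow, eval_X, pow_one]
    ring

/-- the permutation which moves `j`, `r` to the front -/
def wh_f (j r : ℕ) (hj : j < r) : Equiv.Perm ℕ where
  toFun n := if n = 0 then j else if n = 1 then r else if n < j + 2 then n - 2
    else if n < r + 1 then n - 1 else n
  invFun m := if m = j then 0 else if m = r then 1 else if m < j then m + 2 else if m < r then m + 1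
    else m
  left_inv n := by
    dsimp only
    by_cases h0 : n = 0
    · rw [if_pos h0, if_pos rfl, h0]
    rw [if_neg h0]
    by_cases h1 : n = 1
    · rw [if_pos h1, if_neg (by omega), if_pos rfl, h1]
    rw [if_neg h1]
    by_cases h2 : n < j + 2
    · rw [if_pos h2, if_neg (by omega), if_neg (by omega), if_pos (by omega)]
      omega
    rw [if_neg h2]
    by_cases h3 : n < r + 1
    · rw [if_pos h3, if_neg (by omega), if_neg (by omega), if_neg (by omega), if_pos (by omega)]
      omega
    · rw [if_neg h3, if_neg (by omega), if_neg (by omega), if_neg (by omega), if_neg (by omega)]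
  right_inv m := by
    dsimp only
    by_cases h0 : m = j
    · rw [if_pos h0, if_pos rfl, h0]
    rw [if_neg h0]
    by_cases h1 : m = r
    · rw [if_pos h1, if_neg (by omega), if_pos rfl, h1]
    rw [if_neg h1]
    by_cases h2 : m < j
    · rw [if_pos h2, if_neg (by omega), if_neg (by omega), if_pos (by omega)]
      omega
    rw [if_neg h2]
    by_cases h3 : m < r
    · rw [if_pos h3, if_neg (by omega), if_neg (by omega), if_neg (by omega), if_pos (by omega)]
      omega
    · rw [if_neg h3, if_neg (by omega), if_neg (by omega), if_neg (by omega), if_neg (by omega)]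

theorem wh_prod_skip {M : Type*} [CommMonoid M] {r j : ℕ} (hj : j < r + 1) (f : ℕ → M) :
    ∏ i ∈ (range (r + 1)).erase j, f i = ∏ k ∈ range r, f (skip j k) := by
  symm
  refine Finset.prod_bij' (fun k _ => skip j k) (fun i _ => if i < j then i else i - 1)
    ?_ ?_ ?_ ?_ ?_
  · intro k hk
    rw [Finset.mem_range] at hk
    rw [Finset.mem_erase, Finset.mem_range]
    unfold skip
    split_ifs <;> omega
  · intro i hi
    rw [Finset.mem_erase, Finset.mem_range] at hi
    rw [Finset.mem_range]
    split_ifs <;> omega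
  · intro k hk
    unfold skip
    by_cases h3 : k < j
    · rw [if_pos h3, if_pos h3]
    · rw [if_neg h3, if_neg (by omega)]
      omega
  · intro i hi
    rw [Finset.mem_erase, Finset.mem_range] at hi
    unfold skip
    by_cases h3 : i < j
    · rw [if_pos h3, if_pos h3]
    · rw [if_neg h3, if_neg (by omega)]
      omega
  · intro k _
    rfl

/-- the partner in the wheel relation -/
theorem wh_partner (a : ℂ) : ∃ y : ℂ, qq a y = 0 ∧ y ≠ a := by
  obtain ⟨s, hs⟩ := IsAlgClosed.exists_pow_nat_eq (12 - 3 * a ^ 2) (n := 2) two_pos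
  have h1 : qq a ((-a + s) / 2) = 0 := by
    unfold qq
    linear_combination hs / 4
  have h2 : qq a ((-a - s) / 2) = 0 := by
    unfold qq
    linear_combination hs / 4
  by_cases h3 : (-a + s) / 2 = a
  · refine ⟨_, h2, fun h4 => ?_⟩
    have h5 : a = 0 := by linear_combination (-1/3) * h3 - (1/3) * h4
    have h6 : s = 0 := by linear_combination 2 * h3 + 3 * h5
    rw [h5, h6] at hs
    norm_num at hs
  · exact ⟨_, h1, h3⟩

/-- the value of the polynomial `B` at the arguments; over `ℂ` (take `y` with `qq (x j) y = 0`, `y ≠ x j`) -/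
theorem BP_eval {r : ℕ} (x : ℕ → ℂ) {j : ℕ} (hj : j < r) :
    (BP r x).eval (x j ^ 3 - 3 * x j) = (-1) ^ (r - 1) * (∏ i ∈ (range r).erase j, qq (x j) (x i)) *
      Chi (r - 1) (fun i => x (skip j i)) := by
  obtain ⟨y, hy, hne⟩ := wh_partner (x j)
  obtain ⟨r, rfl⟩ : ∃ r', r = r' + 1 := ⟨r - 1, by omega⟩
  rw [Nat.add_sub_cancel]
  have hc : y ^ 3 - 3 * y = x j ^ 3 - 3 * x j := by
    have := qq_fact hy y
    have h2 : (y - x j) * (y - y) * (y + x j + y) = 0 := by ring
    rw [h2] at this
    exact sub_eq_zero.1 this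
  have e1 := AB_eval (r + 1) x y
  have e2 := AB_eval (r + 1) x (x j)
  rw [hc] at e1
  have hz : ∏ i ∈ range (r + 1), (x j - x i) = 0 :=
    Finset.prod_eq_zero (Finset.mem_range.2 hj) (sub_self _)
  rw [hz, mul_zero] at e2
  have hB : (BP (r + 1) x).eval (x j ^ 3 - 3 * x j) * (y - x j) =
      Chi (r + 1 + 1) (Function.update x (r + 1) y) * ∏ i ∈ range (r + 1), (y - x i) := by
    linear_combination e2 - e1
  -- the wheel
  have hf0 : wh_f j (r + 1) hj 0 = j := rfl
  have hf1 : wh_f j (r + 1) hj 1 = r + 1 := rfl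
  have hf2 : ∀ k < r, wh_f j (r + 1) hj (k + 2) = skip j k := by
    intro k hk
    change (if k + 2 = 0 then j else if k + 2 = 1 then r + 1 else if k + 2 < j + 2 then k + 2 - 2
      else if k + 2 < r + 1 + 1 then k + 2 - 1 else k + 2) = if k < j then k else k + 1
    rw [if_neg (by omega), if_neg (by omega)]
    by_cases h3 : k < j
    · rw [if_pos (by omega), if_pos h3]
      omega
    · rw [if_neg (by omega), if_neg h3, if_pos (by omega)]
      omega
  have hskip : ∀ k < r, skip j k < r + 1 := by
    intro k hk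
    unfold skip
    split_ifs <;> omega
  have hperm : Chi (r + 1 + 1) (Function.update x (r + 1) y) =
      Chi (r + 2) (fun k => Function.update x (r + 1) y (wh_f j (r + 1) hj k)) := by
    rw [Chi_perm (wh_f j (r + 1) hj)]
    intro k
    change (if k = 0 then j else if k = 1 then r + 1 else if k < j + 2 then k - 2
      else if k < r + 1 + 1 then k - 1 else k) < r + 2 ↔ _
    split_ifs <;> omega
  have hx0 : Function.update x (r + 1) y (wh_f j (r + 1) hj 0) = x j := by
    rw [hf0, Function.update_of_ne (by omega)]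
  have hx1 : Function.update x (r + 1) y (wh_f j (r + 1) hj 1) = y := by
    rw [hf1, Function.update_self]
  have hx2 : ∀ k < r, Function.update x (r + 1) y (wh_f j (r + 1) hj (k + 2)) = x (skip j k) := by
    intro k hk
    rw [hf2 k hk, Function.update_of_ne (by have := hskip k hk; omega)]
  rw [hperm, Chi_wheel r _ (by rw [hx0, hx1]; exact hy) (by rw [hx0, hx1]; exact hne.symm)] at hB
  rw [Chi_congr (fun k hk => hx2 k hk),
    Finset.prod_congr rfl (g := fun k => x (skip j k) + x j + y) (fun k hk => by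
      rw [hx2 k (Finset.mem_range.1 hk), hx0, hx1]),
    ← Finset.mul_prod_erase _ _ (Finset.mem_range.2 hj), wh_prod_skip hj] at hB
  rw [wh_prod_skip hj]
  have hne' : y - x j ≠ 0 := sub_ne_zero.2 hne
  apply mul_right_cancel₀ hne'
  rw [hB]
  have hprod : (∏ k ∈ range r, (x (skip j k) + x j + y)) * ∏ k ∈ range r, (y - x (skip j k)) =
      (-1) ^ r * ∏ k ∈ range r, qq (x j) (x (skip j k)) := by
    rw [← Finset.prod_mul_distrib, ← Finset.card_range r, ← Finset.prod_const, Finset.card_range,
      ← Finset.prod_mul_distrib]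
    refine Finset.prod_congr rfl fun k _ => ?_
    unfold qq at *
    linear_combination hy
  linear_combination (y - x j) * Chi r (fun k => x (skip j k)) * hprod

end IP.Slit
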