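import Pool.Agent.Helper53.Slit.TriDefs
import Pool.Agent.Lead.IP.Recur
/-! SLIT STRIP: definitions of the algebraic part.  Everything here was checked numerically. -/
namespace IP.Slit
open IP Finset

/-! ### the amplitude -/

/-- the inhomogeneous amplitude.  Strands: `0..2m` left group, `2m+1` tip strand, `2m+2..2(m+k+1)` right group. -/
noncomputable def SS (m k : ℕ) (b : ℕ → ℝ) : ℝ :=
  tri m k (V m (fun j => -b j)) (V k (fun j => -b (2 * m + 2 + j))) (V (m + k + 1) b)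

/-- `2 cos 2b_j` -/
noncomputable def xx (b : ℕ → ℝ) (j : ℕ) : ℝ := 2 * Real.cos (2 * b j)
/-- `2 cos (2b_j - 2π/3)` -/
noncomputable def xpp (b : ℕ → ℝ) (j : ℕ) : ℝ := 2 * Real.cos (2 * b j - 2 * Real.pi / 3)

/-! ### polynomials over a field -/
section
open Polynomial
variable {K : Type*} [Field K]

/-- the basis `1, X, c, c X, c^2, ...` of the module, `c = X^3 - 3X` -/
noncomputable def ph (K : Type*) [Field K] (j : ℕ) : K[X] := (X ^ 3 - C 3 * X) ^ (j / 2) * X ^ (j % 2)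
noncomputable def DD (r : ℕ) (x : ℕ → K) : K := Matrix.det (Matrix.of fun i j : Fin r => (ph K j).eval (x i))
def VV (r : ℕ) (x : ℕ → K) : K := ∏ j ∈ range r, ∏ i ∈ range j, (x j - x i)
/-- divided difference of a polynomial, `(f - f(a)) / (X - a)` -/
noncomputable def dq (f : K[X]) (a : K) : K[X] := f /ₘ (X - C a)
/-- iterated divided differences -/
noncomputable def dd (x : ℕ → K) (f : K[X]) : ℕ → K[X]
  | 0 => f
  | i + 1 => dq (dd x f i) (x i)
/-- `DD r x / VV r x`, for all (also coinciding) arguments -/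
noncomputable def Chi (r : ℕ) (x : ℕ → K) : K := Matrix.det (Matrix.of fun i j : Fin r => (dd x (ph K j) i).eval (x i))
/-- cofactors of the last row: `Σ_j ka r x j * φ_j(y) = Chi (r+1) (x, y) ∏ (y - x_i)` -/
noncomputable def ka (r : ℕ) (x : ℕ → K) (l : ℕ) : K :=
  Matrix.det (Matrix.of fun i j : Fin (r + 1) =>
    if (i : ℕ) < r then (dd x (ph K j) i).eval (x i) else if (j : ℕ) = l then 1 else 0)
def qq (x y : K) : K := x ^ 2 + x * y + y ^ 2 - 3
/-- the polynomials `A`, `B` with `Chi (r+1) (x, y) ∏ (y - x_i) = A(c) + B(c) y`, `c = y^3 - 3y` -/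
noncomputable def AP (r : ℕ) (x : ℕ → K) : K[X] :=
  ∑ j ∈ (range (r + 1)).filter (fun j => j % 2 = 0), C (ka r x j) * X ^ (j / 2)
noncomputable def BP (r : ℕ) (x : ℕ → K) : K[X] :=
  ∑ j ∈ (range (r + 1)).filter (fun j => j % 2 = 1), C (ka r x j) * X ^ (j / 2)

/-- remove the entries `i`, `i+1` -/
def rmv (i : ℕ) (x : ℕ → K) : ℕ → K := fun j => if j < i then x j else x (j + 2)
/-- the right group followed by `x j` -/
def yj (m k j : ℕ) (x : ℕ → K) : ℕ → K := fun i => if i < 2 * k + 1 then x (2 * m + 2 + i) else x j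

/-- the right hand side of the main identity, `u = t''` -/
noncomputable def AA (m k : ℕ) (u : K) (x : ℕ → K) : K :=
  ∑ j ∈ range (2 * m + 1), (-1) ^ j * (x j - u) * (∏ i ∈ (range (2 * m + 1)).erase j, qq (x j) (x i)) *
    DD (2 * m) (fun i => x (skip j i)) * Chi (2 * k + 2) (yj m k j x) * Chi (2 * (m + k + 1)) (fun i => x (skip j i))

/-- the elements of the module which vanish of order `n` at `X = 2` -/
def IsE (n : ℕ) (κ : ℂ) (A B : ℂ[X]) : Prop :=
  A.natDegree ≤ n / 2 ∧ B.natDegree ≤ n / 2 ∧ B.coeff (n / 2) = κ ∧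
    (X - C 2) ^ n ∣ A.comp (X ^ 3 - C 3 * X) + B.comp (X ^ 3 - C 3 * X) * X
end

/-! ### functions of `ξ` (`ξ = cos ψ`, `X = 2cos 2ψ`, `μ = cos 3ψ`, `c = 2 cos 6ψ`) -/
/-- `μ` -/
noncomputable def muz (z : ℂ) : ℂ := 4 * z ^ 3 - 3 * z
/-- `X` -/
noncomputable def Xz (z : ℂ) : ℂ := 4 * z ^ 2 - 2
/-- `c` -/
noncomputable def cz (z : ℂ) : ℂ := 4 * muz z ^ 2 - 2
end IP.Slit
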