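import Pool.Agent.Helper60.Slit.Wheel
import Pool.Agent.Helper12.Slit.Asym
import Pool.Agent.Helper59.Slit.HomI
import Pool.Agent.Helper53.Slit.IsE
/-! MODULE HOM (owner helper59): the homogeneous value. -/
namespace IP.Slit
open IP Finset Real
open Polynomial in
theorem hom_value (m k : ℕ) {κ1 κ2 κ3 : ℂ} {A1 B1 A2 B2 A3 B3 : ℂ[X]} (h1 : IsE (2 * m + 1) κ1 A1 B1)
    (h2 : IsE (2 * k + 1) κ2 A2 B2) (h3 : IsE (2 * (m + k) + 3) κ3 A3 B3) :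
    (2 * π * Complex.I : ℂ)⁻¹ * (∮ z in C(1, 1 / 10), 24 * muz z * B1.eval (cz z) * B3.eval (cz z) *
      (A2.eval (cz z) + B2.eval (cz z) * Xz z) / (4 * (1 - muz z ^ 2)) ^ (2 * (m + k) + 2)) =
        κ1 * κ2 * κ3 * ((Slit.urn (2 * (m + k) + 3) (2 * m + 1) : ℝ) : ℂ) := hom_value' m k h1 h2 h3
end IP.Slit
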