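import Pool.Agent.Helper60.Slit.Cont
import Pool.Agent.Helper60.Slit.Hom
import Pool.Agent.Helper60.Slit.ZChi
/-! MODULE VALUE (helper60): the finite formula. -/
namespace IP.Slit
open IP Finset Real

theorem va_xx_zero : xx (fun _ => (0 : ℝ)) = fun _ => (2 : ℝ) := by
  funext j
  simp [xx]

theorem va_Chi (r : ℕ) : Chi r (fun _ => (2 : ℂ)) = ((Chi r (fun _ => (2 : ℝ)) : ℝ) : ℂ) := by
  have := Chi_ofReal r (fun _ => (2 : ℝ))
  rw [← this]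
  simp

theorem va_SS (m k : ℕ) : 4 ^ ((m + k + 1) ^ 2 + m ^ 2 + k ^ 2) * SS m k (fun _ => 0) =
    Chi (2 * m + 1) (fun _ => (2 : ℝ)) * Chi (2 * k + 1) (fun _ => (2 : ℝ)) * Chi (2 * (m + k) + 3) (fun _ => (2 : ℝ)) *
      Slit.urn (2 * (m + k) + 3) (2 * m + 1) := by
  have h1 := SS_contour m k
  have h2 := hom_value m k (isE (2 * m + 1) (by omega)) (isE (2 * k + 1) (by omega)) (isE (2 * (m + k) + 3) (by omega))
  have h3 : ((4 ^ ((m + k + 1) ^ 2 + m ^ 2 + k ^ 2) * SS m k (fun _ => 0) : ℝ) : ℂ) =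
      ((Chi (2 * m + 1) (fun _ => (2 : ℝ)) * Chi (2 * k + 1) (fun _ => (2 : ℝ)) * Chi (2 * (m + k) + 3) (fun _ => (2 : ℝ)) *
        Slit.urn (2 * (m + k) + 3) (2 * m + 1) : ℝ) : ℂ) := by
    rw [h1]
    unfold FF
    rw [h2, va_Chi, va_Chi, va_Chi]
    push_cast
    rfl
  exact_mod_cast h3

theorem tri_value (n1 n2 : ℕ) :
    tri n1 n2 (P n1 (fun _ => 0)) (P n2 (fun _ => 0)) (P (n1 + n2 + 1) (fun _ => 0)) =
      Slit.urn (2 * (n1 + n2) + 3) (2 * n1 + 1) := by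
  have h := va_SS n1 n2
  have z1 := Z_Chi n1 (fun _ => 0)
  have z2 := Z_Chi n2 (fun _ => 0)
  have z3 := Z_Chi (n1 + n2 + 1) (fun _ => 0)
  rw [va_xx_zero] at z1 z2 z3
  have p1 := Chi_pos n1
  have p2 := Chi_pos n2
  have p3 := Chi_pos (n1 + n2 + 1)
  rw [show 2 * (n1 + n2 + 1) + 1 = 2 * (n1 + n2) + 3 by ring] at z3 p3
  have hS : SS n1 n2 (fun _ => 0) = tri n1 n2 (V n1 (fun _ => 0)) (V n2 (fun _ => 0)) (V (n1 + n2 + 1) (fun _ => 0)) := by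
    unfold SS
    simp only [neg_zero]
  rw [P_eq n1 zero_Cube, P_eq n2 zero_Cube, P_eq (n1 + n2 + 1) zero_Cube, tri_smul1, tri_smul2, tri_smul3, ← hS]
  rw [← z1] at p1
  rw [← z2] at p2
  rw [← z3] at p3
  have q1 : 0 < Z n1 (fun _ => 0) := (mul_pos_iff_of_pos_left (by positivity)).1 p1
  have q2 : 0 < Z n2 (fun _ => 0) := (mul_pos_iff_of_pos_left (by positivity)).1 p2
  have q3 : 0 < Z (n1 + n2 + 1) (fun _ => 0) := (mul_pos_iff_of_pos_left (by positivity)).1 p3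
  rw [← z1, ← z2, ← z3] at h
  have e : (4 : ℝ) ^ ((n1 + n2 + 1) ^ 2 + n1 ^ 2 + n2 ^ 2) = 4 ^ (n1 ^ 2) * 4 ^ (n2 ^ 2) * 4 ^ ((n1 + n2 + 1) ^ 2) := by
    rw [← pow_add, ← pow_add]
    congr 1
    ring
  rw [e] at h
  have h4 : (4 : ℝ) ^ (n1 ^ 2) * 4 ^ (n2 ^ 2) * 4 ^ ((n1 + n2 + 1) ^ 2) ≠ 0 := by positivity
  have h5 : SS n1 n2 (fun _ => 0) = Z n1 (fun _ => 0) * Z n2 (fun _ => 0) * Z (n1 + n2 + 1) (fun _ => 0) *
      Slit.urn (2 * (n1 + n2) + 3) (2 * n1 + 1) := by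
    apply mul_left_cancel₀ h4
    rw [h]
    ring
  rw [h5]
  field_simp
end IP.Slit
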