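import Pool.Agent.Helper60.Slit.AAbY
/-! MODULE AAb (recursions): the right hand side of the main identity.
RECURSION X: the terms `j = 0, 1` contain `qq (x 0) (x 1) = 0`; for `j ≥ 2` use `DD_wheel` (in `DD (2m+2)`), `Chi_wheel` (in
`Chi (2(m+k+2))`) and `qq (x j) (x 0) * qq (x j) (x 1) = (c_j - c_0) (x_j + x_0 + x_1)`.
RECURSION Y: `Chi_wheel'` in both factors `Chi`.
ANTISYMMETRY: exchange of `x i`, `x (i+1)`: the terms `j = i`, `j = i+1` are exchanged (sign `(-1)^j`), in the other terms `DD` changes sign.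
All statements verified numerically (mod p). -/
namespace IP.Slit
open Finset Polynomial
variable {K : Type*} [Field K]

theorem AAb_skip0 (j : ℕ) : skip (j + 2) 0 = 0 := by
  unfold skip
  rw [if_pos (by omega)]
theorem AAb_skip1 (j : ℕ) : skip (j + 2) 1 = 1 := by
  unfold skip
  rw [if_pos (by omega)]
theorem AAb_skip2 (j l : ℕ) : skip (j + 2) (l + 2) = skip j l + 2 := by
  unfold skip
  split_ifs <;> omega

theorem AAb_prod {r j : ℕ} (hj : j < r + 1) (f : ℕ → K) :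
    ∏ s ∈ Ico 2 (r + 3), f s = f (j + 2) * ∏ l ∈ range r, f (skip j l + 2) := by
  rw [Finset.prod_Ico_eq_prod_range]
  have e : r + 3 - 2 = r + 1 := by omega
  rw [e, ← Finset.mul_prod_erase _ _ (Finset.mem_range.2 hj), wh_prod_skip hj]
  rw [Nat.add_comm 2 j]
  congr 1
  refine Finset.prod_congr rfl fun l _ => ?_
  rw [Nat.add_comm]

theorem AAb_qprod {r j : ℕ} (hj : j < r + 1) (x : ℕ → K) :
    (∏ i ∈ (range (r + 3)).erase (j + 2), qq (x (j + 2)) (x i)) =
      qq (x (j + 2)) (x 0) * qq (x (j + 2)) (x 1) *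
        ∏ i ∈ (range (r + 1)).erase j, qq (x (j + 2)) (x (i + 2)) := by
  rw [wh_prod_skip (r := r + 2) (by omega), Finset.prod_range_succ', Finset.prod_range_succ',
    wh_prod_skip (r := r) hj]
  have e1 : skip (j + 2) (0 + 1) = 1 := AAb_skip1 j
  rw [AAb_skip0, e1]
  have e2 : ∀ l, skip (j + 2) (l + 1 + 1) = skip j l + 2 := fun l => AAb_skip2 j l
  simp only [e2]
  ring

theorem AAb_qq {a b : K} (h : qq a b = 0) (s : K) :
    qq s a * qq s b = ((s ^ 3 - 3 * s) - (a ^ 3 - 3 * a)) * (s + a + b) := by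
  rw [qq_fact h]
  have e1 : qq s a = (s - b) * (s + a + b) := by
    unfold qq at h ⊢
    linear_combination h
  have e2 : qq s b = (s - a) * (s + a + b) := by
    unfold qq at h ⊢
    linear_combination h
  rw [e1, e2]
  ring

theorem AAb_term [CharZero K] {m k j : ℕ} (hj : j < 2 * m + 1) (u : K) (x : ℕ → K) (h : qq (x 0) (x 1) = 0)
    (h01 : x 0 ≠ x 1) : AAa_t (m + 1) k u x (j + 2) =
      (x 1 - x 0) * (∏ s ∈ Ico 2 (2 * m + 3), ((x s ^ 3 - 3 * x s) - (x 0 ^ 3 - 3 * x 0))) *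
      (∏ s ∈ Ico 2 (2 * (m + k) + 5), (x s + x 0 + x 1)) * AAa_t m k u (rmv 0 x) j := by
  have hr : ∀ l, rmv 0 x l = x (l + 2) := fun l => by
    unfold rmv
    rw [if_neg (by omega)]
  have e0 : ((-1) ^ (j + 2) : K) = (-1) ^ j := by rw [pow_add]; norm_num
  have e1 : (∏ i ∈ (range (2 * (m + 1) + 1)).erase (j + 2), qq (x (j + 2)) (x i)) =
      qq (x (j + 2)) (x 0) * qq (x (j + 2)) (x 1) *
        ∏ i ∈ (range (2 * m + 1)).erase j, qq (x (j + 2)) (x (i + 2)) := AAb_qprod hj x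
  have e2 : DD (2 * (m + 1)) (fun i => x (skip (j + 2) i)) =
      (x 1 - x 0) * (∏ l ∈ range (2 * m), ((x (skip j l + 2) ^ 3 - 3 * x (skip j l + 2)) - (x 0 ^ 3 - 3 * x 0))) *
        DD (2 * m) (fun i => x (skip j i + 2)) := by
    have h1 := DD_wheel (2 * m) (fun i => x (skip (j + 2) i)) (by simp only [AAb_skip0, AAb_skip1]; exact h)
    simp only [AAb_skip0, AAb_skip1, AAb_skip2, ← qq_fact h] at h1
    exact h1
  have e3 : Chi (2 * (m + 1 + k + 1)) (fun i => x (skip (j + 2) i)) =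
      (∏ l ∈ range (2 * (m + k) + 2), (x (skip j l + 2) + x 0 + x 1)) *
        Chi (2 * (m + k + 1)) (fun i => x (skip j i + 2)) := by
    have h1 := Chi_wheel (2 * (m + k) + 2) (fun i => x (skip (j + 2) i)) (by simp only [AAb_skip0, AAb_skip1]; exact h)
      (by simp only [AAb_skip0, AAb_skip1]; exact h01)
    simp only [AAb_skip0, AAb_skip1, AAb_skip2] at h1
    have h2 : 2 * (m + 1 + k + 1) = 2 * (m + k) + 2 + 2 := by ring
    have h3 : 2 * (m + k + 1) = 2 * (m + k) + 2 := by ring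
    rw [h2, h3]
    exact h1
  have e4 : yj (m + 1) k (j + 2) x = yj m k j (rmv 0 x) := by
    funext l
    unfold yj
    rw [hr, hr]
    have e5 : 2 * (m + 1) + 2 + l = 2 * m + 2 + l + 2 := by ring
    rw [e5]
  have e6 : (∏ s ∈ Ico 2 (2 * m + 3), ((x s ^ 3 - 3 * x s) - (x 0 ^ 3 - 3 * x 0))) =
      ((x (j + 2) ^ 3 - 3 * x (j + 2)) - (x 0 ^ 3 - 3 * x 0)) *
        ∏ l ∈ range (2 * m), ((x (skip j l + 2) ^ 3 - 3 * x (skip j l + 2)) - (x 0 ^ 3 - 3 * x 0)) :=
    AAb_prod hj fun s => (x s ^ 3 - 3 * x s) - (x 0 ^ 3 - 3 * x 0)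
  have e7 : (∏ s ∈ Ico 2 (2 * (m + k) + 5), (x s + x 0 + x 1)) =
      (x (j + 2) + x 0 + x 1) * ∏ l ∈ range (2 * (m + k) + 2), (x (skip j l + 2) + x 0 + x 1) :=
    AAb_prod (r := 2 * (m + k) + 2) (by omega) fun s => x s + x 0 + x 1
  unfold AAa_t
  rw [e0, e1, e2, e3, e4, e6, e7, AAb_qq h]
  simp only [hr]
  ring

theorem AA_recX [CharZero K] (m k : ℕ) (u : K) (x : ℕ → K) (h : qq (x 0) (x 1) = 0) (h01 : x 0 ≠ x 1) :
    AA (m + 1) k u x = (x 1 - x 0) * (∏ s ∈ Ico 2 (2 * m + 3), ((x s ^ 3 - 3 * x s) - (x 0 ^ 3 - 3 * x 0))) *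
      (∏ s ∈ Ico 2 (2 * (m + k) + 5), (x s + x 0 + x 1)) * AA m k u (rmv 0 x) := by
  have h' : qq (x 1) (x 0) = 0 := by
    unfold qq at h ⊢
    linear_combination h
  have z0 : AAa_t (m + 1) k u x 0 = 0 := by
    unfold AAa_t
    rw [Finset.prod_eq_zero (i := 1) (by rw [Finset.mem_erase, Finset.mem_range]; omega) h]
    ring
  have z1 : AAa_t (m + 1) k u x (0 + 1) = 0 := by
    unfold AAa_t
    rw [Finset.prod_eq_zero (i := 0) (by rw [Finset.mem_erase, Finset.mem_range]; omega) h']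
    ring
  rw [AAa_eq, AAa_eq, Finset.mul_sum]
  have e : 2 * (m + 1) + 1 = 2 * m + 1 + 1 + 1 := by ring
  rw [e, Finset.sum_range_succ', Finset.sum_range_succ', z0, z1, add_zero, add_zero]
  refine Finset.sum_congr rfl fun j hj => ?_
  rw [Finset.mem_range] at hj
  exact AAb_term hj u x h h01
end IP.Slit
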