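import Pool.Agent.Helper60.Slit.Wheel
/-! MODULE AAa (symmetry, degree, continuity): the right hand side of the main identity.
RECURSION X: the terms `j = 0, 1` contain `qq (x 0) (x 1) = 0`; for `j ≥ 2` use `DD_wheel` (in `DD (2m+2)`), `Chi_wheel` (in
`Chi (2(m+k+2))`) and `qq (x j) (x 0) * qq (x j) (x 1) = (c_j - c_0) (x_j + x_0 + x_1)`.
RECURSION Y: `Chi_wheel'` in both factors `Chi`.
ANTISYMMETRY: exchange of `x i`, `x (i+1)`: the terms `j = i`, `j = i+1` are exchanged (sign `(-1)^j`), in the other terms `DD` changes sign.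
All statements verified numerically (mod p). -/
namespace IP.Slit
open Finset Polynomial
variable {K : Type*} [Field K]

/-- the term `j` of `AA` -/
noncomputable def AAa_t (m k : ℕ) (u : K) (x : ℕ → K) (j : ℕ) : K :=
  (-1) ^ j * (x j - u) * (∏ i ∈ (range (2 * m + 1)).erase j, qq (x j) (x i)) *
    DD (2 * m) (fun i => x (skip j i)) * Chi (2 * k + 2) (yj m k j x) * Chi (2 * (m + k + 1)) (fun i => x (skip j i))

theorem AAa_eq (m k : ℕ) (u : K) (x : ℕ → K) : AA m k u x = ∑ j ∈ range (2 * m + 1), AAa_t m k u x j := rfl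

theorem AAa_skip_lt {j l n : ℕ} (h : l < n) : skip j l < n + 1 := by
  unfold skip
  split_ifs <;> omega

theorem AAa_swap_val (i l : ℕ) : Equiv.swap i (i + 1) l = if l = i then i + 1 else if l = i + 1 then i else l :=
  Equiv.swap_apply_def i (i + 1) l

/-- position of `i` after removal of `j` -/
def AAa_us (j i : ℕ) : ℕ := if i < j then i else i - 1

theorem AAa_swap_skip {i j : ℕ} (h1 : j ≠ i) (h2 : j ≠ i + 1) (l : ℕ) :
    Equiv.swap i (i + 1) (skip j l) = skip j (Equiv.swap (AAa_us j i) (AAa_us j i + 1) l) := by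
  rw [AAa_swap_val, AAa_swap_val]
  unfold skip AAa_us
  by_cases h : i < j
  · simp only [h, if_true]
    split_ifs <;> omega
  · simp only [h, if_false]
    split_ifs <;> omega

theorem AAa_swap_skip0 (i l : ℕ) : Equiv.swap i (i + 1) (skip i l) = skip (i + 1) l := by
  rw [AAa_swap_val]
  unfold skip
  split_ifs <;> omega

theorem AAa_swap_skip1 (i l : ℕ) : Equiv.swap i (i + 1) (skip (i + 1) l) = skip i l := by
  rw [AAa_swap_val]
  unfold skip
  split_ifs <;> omega

theorem AA_congr {m k : ℕ} (u : K) {x y : ℕ → K} (h : ∀ i < 2 * (m + k + 1) + 1, x i = y i) : AA m k u x = AA m k u y := by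
  rw [AAa_eq, AAa_eq]
  refine Finset.sum_congr rfl fun j hj => ?_
  rw [Finset.mem_range] at hj
  unfold AAa_t
  have h1 : x j = y j := h j (by omega)
  have h2 : (∏ i ∈ (range (2 * m + 1)).erase j, qq (x j) (x i)) = ∏ i ∈ (range (2 * m + 1)).erase j, qq (y j) (y i) := by
    refine Finset.prod_congr rfl fun i hi => ?_
    rw [Finset.mem_erase, Finset.mem_range] at hi
    rw [h1, h i (by omega)]
  have h3 : DD (2 * m) (fun i => x (skip j i)) = DD (2 * m) (fun i => y (skip j i)) :=
    DD_congr fun i hi => h _ (by have := AAa_skip_lt (j := j) hi; omega)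
  have h4 : Chi (2 * k + 2) (yj m k j x) = Chi (2 * k + 2) (yj m k j y) := by
    refine Chi_congr fun i hi => ?_
    unfold yj
    split_ifs with hik
    · exact h _ (by omega)
    · exact h1
  have h5 : Chi (2 * (m + k + 1)) (fun i => x (skip j i)) = Chi (2 * (m + k + 1)) (fun i => y (skip j i)) :=
    Chi_congr fun i hi => h _ (AAa_skip_lt hi)
  rw [h2, h3, h4, h5, h1]

theorem AA_zero (u : K) (x : ℕ → K) : AA 0 0 u x = x 0 - u := by
  have h1 : (range (2 * 0 + 1)).erase 0 = ∅ := by decide
  have h2 : DD (2 * 0) (fun i => x (skip 0 i)) = 1 := by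
    unfold DD
    exact Matrix.det_fin_zero
  rw [AAa_eq, Finset.sum_range_one]
  unfold AAa_t
  rw [h1, h2, Chi_two, Chi_two, Finset.prod_empty]
  ring

theorem AA_swX [CharZero K] {m k i : ℕ} (h : i < 2 * m) (u : K) (x : ℕ → K) :
    AA m k u (fun j => x (Equiv.swap i (i + 1) j)) = -AA m k u x := by
  have key : ∀ j < 2 * m + 1, AAa_t m k u (fun j => x (Equiv.swap i (i + 1) j)) j =
      -AAa_t m k u x (Equiv.swap i (i + 1) j) := by
    intro j hj
    have hprod : (∏ l ∈ (range (2 * m + 1)).erase j, qq (x (Equiv.swap i (i + 1) j)) (x (Equiv.swap i (i + 1) l))) =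
        ∏ l ∈ (range (2 * m + 1)).erase (Equiv.swap i (i + 1) j), qq (x (Equiv.swap i (i + 1) j)) (x l) := by
      refine Finset.prod_nbij' (fun l => Equiv.swap i (i + 1) l) (fun l => Equiv.swap i (i + 1) l) ?_ ?_ ?_ ?_ ?_
      · intro l hl
        rw [Finset.mem_erase, Finset.mem_range] at hl ⊢
        refine ⟨fun hc => hl.1 ((Equiv.swap i (i + 1)).injective hc), ?_⟩
        rw [AAa_swap_val]
        split_ifs <;> omega
      · intro l hl
        rw [Finset.mem_erase, Finset.mem_range] at hl ⊢
        refine ⟨fun hc => hl.1 ?_, ?_⟩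
        · rw [← hc, Equiv.swap_apply_self]
        · rw [AAa_swap_val]
          split_ifs <;> omega
      · intro l _
        exact Equiv.swap_apply_self _ _ _
      · intro l _
        exact Equiv.swap_apply_self _ _ _
      · intro l _
        rfl
    have hyj : yj m k j (fun j => x (Equiv.swap i (i + 1) j)) = yj m k (Equiv.swap i (i + 1) j) x := by
      funext l
      unfold yj
      split_ifs with hl
      · show x (Equiv.swap i (i + 1) (2 * m + 2 + l)) = _
        rw [AAa_swap_val, if_neg (by omega), if_neg (by omega)]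
      · rfl
    unfold AAa_t
    rw [hprod, hyj]
    by_cases h1 : j = i
    · subst h1
      have e : Equiv.swap j (j + 1) j = j + 1 := Equiv.swap_apply_left _ _
      simp only [AAa_swap_skip0, e]
      rw [pow_succ]
      ring
    · by_cases h2 : j = i + 1
      · subst h2
        have e : Equiv.swap i (i + 1) (i + 1) = i := Equiv.swap_apply_right _ _
        simp only [AAa_swap_skip1, e]
        rw [pow_succ]
        ring
      · have e : Equiv.swap i (i + 1) j = j := Equiv.swap_apply_of_ne_of_ne h1 h2
        have e1 : DD (2 * m) (fun l => x (Equiv.swap i (i + 1) (skip j l))) = -DD (2 * m) (fun l => x (skip j l)) := by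
          have h3 := DD_swap (r := 2 * m) (i := AAa_us j i) (by unfold AAa_us; split_ifs <;> omega)
            (fun l => x (skip j l))
          rw [← h3]
          refine congrArg _ (funext fun l => ?_)
          rw [AAa_swap_skip h1 h2]
        have e2 : Chi (2 * (m + k + 1)) (fun l => x (Equiv.swap i (i + 1) (skip j l))) =
            Chi (2 * (m + k + 1)) (fun l => x (skip j l)) := by
          have h3 := Chi_swap (r := 2 * (m + k + 1)) (i := AAa_us j i) (by unfold AAa_us; split_ifs <;> omega)
            (fun l => x (skip j l))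
          rw [← h3]
          refine congrArg _ (funext fun l => ?_)
          rw [AAa_swap_skip h1 h2]
        simp only [e1, e2, e]
        ring
  rw [AAa_eq, AAa_eq, ← Finset.sum_neg_distrib]
  refine Finset.sum_nbij' (fun l => Equiv.swap i (i + 1) l) (fun l => Equiv.swap i (i + 1) l) ?_ ?_ ?_ ?_ ?_
  · intro l hl
    rw [Finset.mem_range] at hl ⊢
    rw [AAa_swap_val]
    split_ifs <;> omega
  · intro l hl
    rw [Finset.mem_range] at hl ⊢
    rw [AAa_swap_val]
    split_ifs <;> omega
  · intro l _
    exact Equiv.swap_apply_self _ _ _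
  · intro l _
    exact Equiv.swap_apply_self _ _ _
  · intro l hl
    rw [Finset.mem_range] at hl
    exact key l hl

theorem AA_swY [CharZero K] {m k i : ℕ} (h : 2 * m + 2 ≤ i) (h' : i < 2 * (m + k + 1)) (u : K) (x : ℕ → K) :
    AA m k u (fun j => x (Equiv.swap i (i + 1) j)) = AA m k u x := by
  rw [AAa_eq, AAa_eq]
  refine Finset.sum_congr rfl fun j hj => ?_
  rw [Finset.mem_range] at hj
  have h0 : ∀ l < 2 * m + 1, x (Equiv.swap i (i + 1) l) = x l := fun l hl => by
    rw [AAa_swap_val, if_neg (by omega), if_neg (by omega)]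
  unfold AAa_t
  have h2 : (∏ l ∈ (range (2 * m + 1)).erase j, qq (x (Equiv.swap i (i + 1) j)) (x (Equiv.swap i (i + 1) l))) =
      ∏ l ∈ (range (2 * m + 1)).erase j, qq (x j) (x l) := by
    refine Finset.prod_congr rfl fun l hl => ?_
    rw [Finset.mem_erase, Finset.mem_range] at hl
    rw [h0 j hj, h0 l hl.2]
  have h3 : DD (2 * m) (fun l => x (Equiv.swap i (i + 1) (skip j l))) = DD (2 * m) (fun l => x (skip j l)) :=
    DD_congr fun l hl => h0 _ (AAa_skip_lt hl)
  have h4 : Chi (2 * k + 2) (yj m k j (fun j => x (Equiv.swap i (i + 1) j))) = Chi (2 * k + 2) (yj m k j x) := by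
    have h3 := Chi_swap (r := 2 * k + 2) (i := i - (2 * m + 2)) (by omega) (yj m k j x)
    rw [← h3]
    refine congrArg _ (funext fun l => ?_)
    unfold yj
    by_cases hl : l < 2 * k + 1
    · rw [if_pos hl]
      have e : (Equiv.swap (i - (2 * m + 2)) (i - (2 * m + 2) + 1)) l < 2 * k + 1 := by
        rw [AAa_swap_val]
        split_ifs <;> omega
      rw [if_pos e]
      show x (Equiv.swap i (i + 1) (2 * m + 2 + l)) = _
      congr 1
      rw [AAa_swap_val, AAa_swap_val]
      split_ifs <;> omega
    · rw [if_neg hl]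
      have e : ¬ (Equiv.swap (i - (2 * m + 2)) (i - (2 * m + 2) + 1)) l < 2 * k + 1 := by
        rw [AAa_swap_val]
        split_ifs <;> omega
      rw [if_neg e]
      exact h0 j hj
  have h5 : Chi (2 * (m + k + 1)) (fun l => x (Equiv.swap i (i + 1) (skip j l))) =
      Chi (2 * (m + k + 1)) (fun l => x (skip j l)) := by
    have h3 := Chi_swap (r := 2 * (m + k + 1)) (i := AAa_us j i) (by unfold AAa_us; split_ifs <;> omega)
      (fun l => x (skip j l))
    rw [← h3]
    refine congrArg _ (funext fun l => ?_)
    rw [AAa_swap_skip (by omega) (by omega)]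
  rw [h2, h3, h4, h5]
  simp only [h0 j hj]

omit [Field K] in
theorem AAa_upd_same (x : ℕ → K) (j : ℕ) (y : K) : (fun l => Function.update x j y (skip j l)) = fun l => x (skip j l) := by
  funext l
  rw [Function.update_of_ne]
  unfold skip
  split_ifs <;> omega

omit [Field K] in
theorem AAa_upd (x : ℕ → K) {i j : ℕ} (h : j ≠ i) (y : K) : (fun l => Function.update x i y (skip j l)) =
    Function.update (fun l => x (skip j l)) (AAa_us j i) y := by
  funext l
  by_cases hl : l = AAa_us j i
  · rw [hl, Function.update_self]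
    have e : skip j (AAa_us j i) = i := by
      unfold skip AAa_us
      split_ifs <;> omega
    rw [e, Function.update_self]
  · rw [Function.update_of_ne hl, Function.update_of_ne]
    intro hc
    apply hl
    unfold skip at hc
    unfold AAa_us
    split_ifs at hc ⊢ <;> omega

/-- `f` is a polynomial of degree `≤ N` -/
def AAa_P (N : ℕ) (f : K → K) : Prop := ∃ P : K[X], P.natDegree ≤ N ∧ ∀ y, f y = P.eval y

theorem AAa_P_const (c : K) : AAa_P 0 (fun _ : K => c) := ⟨C c, by simp, fun y => by simp⟩
theorem AAa_P_mul {N N' : ℕ} {f g : K → K} (h : AAa_P N f) (h' : AAa_P N' g) : AAa_P (N + N') (fun y => f y * g y) := by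
  obtain ⟨P, hP, hP'⟩ := h
  obtain ⟨Q, hQ, hQ'⟩ := h'
  exact ⟨P * Q, natDegree_mul_le.trans (by omega), fun y => by simp only [hP', hQ', eval_mul]⟩
theorem AAa_P_mono {N N' : ℕ} (hN : N ≤ N') {f : K → K} (h : AAa_P N f) : AAa_P N' f := by
  obtain ⟨P, hP, hP'⟩ := h
  exact ⟨P, hP.trans hN, hP'⟩
theorem AAa_P_sum {ι : Type*} {N : ℕ} {s : Finset ι} {f : ι → K → K} (h : ∀ j ∈ s, AAa_P N (f j)) :
    AAa_P N (fun y => ∑ j ∈ s, f j y) := by
  classical
  induction s using Finset.induction_on with
  | empty => exact ⟨0, by simp, fun y => by simp⟩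
  | insert a s ha ih =>
    obtain ⟨P, hP, hP'⟩ := h a (Finset.mem_insert_self a s)
    obtain ⟨Q, hQ, hQ'⟩ := ih fun j hj => h j (Finset.mem_insert_of_mem hj)
    refine ⟨P + Q, (natDegree_add_le P Q).trans (by omega), fun y => ?_⟩
    have h3 := hQ' y
    simp only at h3 ⊢
    rw [Finset.sum_insert ha, hP', h3, eval_add]
theorem AAa_P_prod {ι : Type*} {N : ℕ} {s : Finset ι} {f : ι → K → K} (h : ∀ j ∈ s, AAa_P N (f j)) :
    AAa_P (s.card * N) (fun y => ∏ j ∈ s, f j y) := by
  classical
  induction s using Finset.induction_on with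
  | empty => exact ⟨1, by simp, fun y => by simp⟩
  | insert a s ha ih =>
    have h1 := AAa_P_mul (h a (Finset.mem_insert_self a s)) (ih fun j hj => h j (Finset.mem_insert_of_mem hj))
    rw [Finset.card_insert_of_notMem ha]
    refine AAa_P_mono (N := N + s.card * N) (by rw [add_mul]; omega) ?_
    obtain ⟨P, hP, hP'⟩ := h1
    refine ⟨P, hP, fun y => ?_⟩
    have h3 := hP' y
    simp only at h3 ⊢
    rw [Finset.prod_insert ha, h3]

theorem AAa_P_qq (a : K) : AAa_P 2 (fun y => qq y a) :=
  ⟨X ^ 2 + C a * X + C (a ^ 2 - 3), by compute_degree, fun y => by unfold qq; simp; ring⟩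
theorem AAa_P_qq' (a : K) : AAa_P 2 (fun y => qq a y) :=
  ⟨X ^ 2 + C a * X + C (a ^ 2 - 3), by compute_degree, fun y => by unfold qq; simp; ring⟩
theorem AAa_P_lin (a : K) : AAa_P 1 (fun y => y - a) :=
  ⟨X - C a, by compute_degree, fun y => by simp⟩

theorem AA_polyX [CharZero K] {m k i : ℕ} (h : i ≤ 2 * m) (u : K) (x : ℕ → K) : ∃ P : K[X], P.natDegree ≤ 4 * m + k + 1 ∧
    ∀ y, AA m k u (Function.update x i y) = P.eval y := by
  show AAa_P (4 * m + k + 1) (fun y => AA m k u (Function.update x i y))
  refine AAa_P_sum fun j hj => ?_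
  rw [Finset.mem_range] at hj
  by_cases hji : j = i
  · subst hji
    have e1 : ∀ y : K, Function.update x j y j = y := fun y => Function.update_self _ _ _
    have f1 : AAa_P 0 (fun _ : K => ((-1) ^ j : K)) := AAa_P_const _
    have f2 : AAa_P 1 (fun y : K => Function.update x j y j - u) := by
      simp only [e1]
      exact AAa_P_lin u
    have f3 : AAa_P (((range (2 * m + 1)).erase j).card * 2) (fun y : K =>
        ∏ l ∈ (range (2 * m + 1)).erase j, qq (Function.update x j y j) (Function.update x j y l)) := by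
      refine AAa_P_prod fun l hl => ?_
      rw [Finset.mem_erase] at hl
      have e2 : ∀ y : K, Function.update x j y l = x l := fun y => Function.update_of_ne hl.1 _ _
      simp only [e1, e2]
      exact AAa_P_qq _
    have f4 : AAa_P 0 (fun y : K => DD (2 * m) (fun l => Function.update x j y (skip j l))) := by
      simp only [AAa_upd_same]
      exact AAa_P_const _
    have f5 : AAa_P k (fun y : K => Chi (2 * k + 2) (yj m k j (Function.update x j y))) := by
      have e3 : ∀ y : K, Chi (2 * k + 2) (yj m k j (Function.update x j y)) =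
          Chi (2 * k + 2) (Function.update (yj m k j x) (2 * k + 1) y) := by
        intro y
        refine Chi_congr fun l hl => ?_
        unfold yj
        by_cases hl2 : l < 2 * k + 1
        · rw [if_pos hl2, Function.update_of_ne (by omega), Function.update_of_ne (by omega), if_pos hl2]
        · have hl3 : l = 2 * k + 1 := by omega
          rw [if_neg hl2, e1, hl3, Function.update_self]
      simp only [e3]
      obtain ⟨P, hP, hP'⟩ := Chi_poly (r := 2 * k + 2) (i := 2 * k + 1) (by omega) (yj m k j x)
      exact ⟨P, hP.trans (by omega), hP'⟩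
    have f6 : AAa_P 0 (fun y : K => Chi (2 * (m + k + 1)) (fun l => Function.update x j y (skip j l))) := by
      simp only [AAa_upd_same]
      exact AAa_P_const _
    have hcard : ((range (2 * m + 1)).erase j).card = 2 * m := by
      rw [Finset.card_erase_of_mem (Finset.mem_range.2 hj), Finset.card_range]
      omega
    rw [hcard] at f3
    exact AAa_P_mono (by omega) (AAa_P_mul (AAa_P_mul (AAa_P_mul (AAa_P_mul (AAa_P_mul f1 f2) f3) f4) f5) f6)
  · have e1 : ∀ y : K, Function.update x i y j = x j := fun y => Function.update_of_ne hji _ _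
    have f1 : AAa_P 0 (fun _ : K => ((-1) ^ j : K)) := AAa_P_const _
    have f2 : AAa_P 0 (fun y : K => Function.update x i y j - u) := by
      simp only [e1]
      exact AAa_P_const _
    have f3 : AAa_P 2 (fun y : K =>
        ∏ l ∈ (range (2 * m + 1)).erase j, qq (Function.update x i y j) (Function.update x i y l)) := by
      have hmem : i ∈ (range (2 * m + 1)).erase j := by
        rw [Finset.mem_erase, Finset.mem_range]
        exact ⟨fun hc => hji hc.symm, by omega⟩
      have e3 : ∀ y : K, (∏ l ∈ (range (2 * m + 1)).erase j, qq (Function.update x i y j) (Function.update x i y l)) =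
          qq (x j) y * ∏ l ∈ ((range (2 * m + 1)).erase j).erase i, qq (x j) (x l) := by
        intro y
        rw [← Finset.mul_prod_erase _ _ hmem, e1, Function.update_self]
        congr 1
        refine Finset.prod_congr rfl fun l hl => ?_
        rw [Finset.mem_erase] at hl
        rw [Function.update_of_ne hl.1]
      simp only [e3]
      exact AAa_P_mul (N := 2) (N' := 0) (AAa_P_qq' _) (AAa_P_const _)
    have hm : 1 ≤ m := by omega
    have hus : AAa_us j i < 2 * m := by
      unfold AAa_us
      split_ifs <;> omega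
    have f4 : AAa_P (3 * m - 2) (fun y : K => DD (2 * m) (fun l => Function.update x i y (skip j l))) := by
      simp only [AAa_upd x hji]
      obtain ⟨P, hP, hP'⟩ := DD_poly (r := 2 * m) (i := AAa_us j i) hus (fun l => x (skip j l))
      exact ⟨P, hP.trans (by omega), hP'⟩
    have f5 : AAa_P 0 (fun y : K => Chi (2 * k + 2) (yj m k j (Function.update x i y))) := by
      have e3 : ∀ y : K, yj m k j (Function.update x i y) = yj m k j x := by
        intro y
        funext l
        unfold yj
        rw [e1, Function.update_of_ne (by omega)]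
      simp only [e3]
      exact AAa_P_const _
    have f6 : AAa_P (m + k) (fun y : K => Chi (2 * (m + k + 1)) (fun l => Function.update x i y (skip j l))) := by
      simp only [AAa_upd x hji]
      obtain ⟨P, hP, hP'⟩ := Chi_poly (r := 2 * (m + k + 1)) (i := AAa_us j i) (by omega) (fun l => x (skip j l))
      exact ⟨P, hP.trans (by omega), hP'⟩
    exact AAa_P_mono (by omega) (AAa_P_mul (AAa_P_mul (AAa_P_mul (AAa_P_mul (AAa_P_mul f1 f2) f3) f4) f5) f6)

theorem AA_polyY [CharZero K] {m k i : ℕ} (h : 2 * m + 2 ≤ i) (h' : i ≤ 2 * (m + k + 1)) (u : K) (x : ℕ → K) :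
    ∃ P : K[X], P.natDegree ≤ m + 2 * k + 1 ∧ ∀ y, AA m k u (Function.update x i y) = P.eval y := by
  show AAa_P (m + 2 * k + 1) (fun y => AA m k u (Function.update x i y))
  refine AAa_P_sum fun j hj => ?_
  rw [Finset.mem_range] at hj
  have e1 : ∀ y : K, ∀ l < 2 * m + 1, Function.update x i y l = x l := fun y l hl => Function.update_of_ne (by omega) _ _
  have f1 : AAa_P 0 (fun _ : K => ((-1) ^ j : K)) := AAa_P_const _
  have f2 : AAa_P 0 (fun y : K => Function.update x i y j - u) := by
    simp only [e1 _ j hj]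
    exact AAa_P_const _
  have f3 : AAa_P 0 (fun y : K =>
      ∏ l ∈ (range (2 * m + 1)).erase j, qq (Function.update x i y j) (Function.update x i y l)) := by
    have e3 : ∀ y : K, (∏ l ∈ (range (2 * m + 1)).erase j, qq (Function.update x i y j) (Function.update x i y l)) =
        ∏ l ∈ (range (2 * m + 1)).erase j, qq (x j) (x l) := by
      intro y
      refine Finset.prod_congr rfl fun l hl => ?_
      rw [Finset.mem_erase, Finset.mem_range] at hl
      rw [e1 y j hj, e1 y l hl.2]
    simp only [e3]
    exact AAa_P_const _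
  have f4 : AAa_P 0 (fun y : K => DD (2 * m) (fun l => Function.update x i y (skip j l))) := by
    have e3 : ∀ y : K, DD (2 * m) (fun l => Function.update x i y (skip j l)) = DD (2 * m) (fun l => x (skip j l)) :=
      fun y => DD_congr fun l hl => e1 y _ (AAa_skip_lt hl)
    simp only [e3]
    exact AAa_P_const _
  have f5 : AAa_P k (fun y : K => Chi (2 * k + 2) (yj m k j (Function.update x i y))) := by
    have e3 : ∀ y : K, yj m k j (Function.update x i y) = Function.update (yj m k j x) (i - (2 * m + 2)) y := by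
      intro y
      funext l
      by_cases hl : l = i - (2 * m + 2)
      · rw [hl, Function.update_self]
        unfold yj
        rw [if_pos (by omega)]
        have e4 : 2 * m + 2 + (i - (2 * m + 2)) = i := by omega
        rw [e4, Function.update_self]
      · rw [Function.update_of_ne hl]
        unfold yj
        rw [e1 y j hj]
        by_cases hl2 : l < 2 * k + 1
        · rw [if_pos hl2, if_pos hl2, Function.update_of_ne (by omega)]
        · rw [if_neg hl2, if_neg hl2]
    simp only [e3]
    obtain ⟨P, hP, hP'⟩ := Chi_poly (r := 2 * k + 2) (i := i - (2 * m + 2)) (by omega) (yj m k j x)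
    exact ⟨P, hP.trans (by omega), hP'⟩
  have f6 : AAa_P (m + k) (fun y : K => Chi (2 * (m + k + 1)) (fun l => Function.update x i y (skip j l))) := by
    simp only [AAa_upd x (show j ≠ i by omega)]
    obtain ⟨P, hP, hP'⟩ := Chi_poly (r := 2 * (m + k + 1)) (i := AAa_us j i) (by unfold AAa_us; split_ifs <;> omega)
      (fun l => x (skip j l))
    exact ⟨P, hP.trans (by omega), hP'⟩
  exact AAa_P_mono (by omega) (AAa_P_mul (AAa_P_mul (AAa_P_mul (AAa_P_mul (AAa_P_mul f1 f2) f3) f4) f5) f6)

theorem AAa_DD_continuous (r : ℕ) : Continuous (fun x : ℕ → ℝ => DD r x) := by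
  unfold DD
  refine Continuous.matrix_det ?_
  refine continuous_matrix fun i j => ?_
  exact (ph ℝ j).continuous.comp (continuous_apply _)

theorem AA_continuous (m k : ℕ) : Continuous (fun p : ℝ × (ℕ → ℝ) => AA m k p.1 p.2) := by
  show Continuous (fun p : ℝ × (ℕ → ℝ) => ∑ j ∈ range (2 * m + 1), AAa_t m k p.1 p.2 j)
  refine continuous_finsetSum _ fun j _ => ?_
  unfold AAa_t
  have hx : ∀ l : ℕ, Continuous (fun p : ℝ × (ℕ → ℝ) => p.2 l) := fun l => (continuous_apply l).comp continuous_snd
  have hq : ∀ l : ℕ, Continuous (fun p : ℝ × (ℕ → ℝ) => qq (p.2 j) (p.2 l)) := by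
    intro l
    unfold qq
    exact (((hx j).pow 2).add ((hx j).mul (hx l))).add ((hx l).pow 2) |>.sub continuous_const
  have hs : Continuous (fun p : ℝ × (ℕ → ℝ) => fun l => p.2 (skip j l)) := continuous_pi fun l => hx _
  have hy : Continuous (fun p : ℝ × (ℕ → ℝ) => yj m k j p.2) := by
    refine continuous_pi fun l => ?_
    unfold yj
    split_ifs
    · exact hx _
    · exact hx _
  refine Continuous.mul (Continuous.mul (Continuous.mul (Continuous.mul (Continuous.mul continuous_const ?_) ?_) ?_) ?_) ?_
  · exact (hx j).sub continuous_fst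
  · exact continuous_finsetProd _ fun l _ => hq l
  · exact (AAa_DD_continuous (2 * m)).comp hs
  · exact (Chi_continuous_real (2 * k + 2)).comp hy
  · exact (Chi_continuous_real (2 * (m + k + 1))).comp hs
end IP.Slit
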