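import Pool.Agent.Helper60.Slit.AAa
/-! MODULE AAb, second part: the recursion in the right group. -/
namespace IP.Slit
open Finset Polynomial
variable {K : Type*} [Field K]

theorem AAbY_prod1 (m k j : ℕ) (x : ℕ → K) (a : K) :
    (∏ s ∈ (range (2 * k + 2 + 2)).filter (fun s => s ≠ 0 ∧ s ≠ 0 + 1), (yj m (k + 1) j x s + a)) =
      (x j + a) * ∏ s ∈ Ico (2 * m + 4) (2 * (m + k) + 5), (x s + a) := by
  have hlast : 2 * k + 3 ∈ (range (2 * k + 2 + 2)).filter (fun s => s ≠ 0 ∧ s ≠ 0 + 1) := by
    rw [Finset.mem_filter, Finset.mem_range]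
    omega
  rw [← Finset.mul_prod_erase _ _ hlast]
  have e1 : yj m (k + 1) j x (2 * k + 3) = x j := by
    unfold yj
    rw [if_neg (by omega)]
  rw [e1]
  congr 1
  refine Finset.prod_nbij' (fun s => 2 * m + 2 + s) (fun s => s - (2 * m + 2)) ?_ ?_ ?_ ?_ ?_
  · intro s hs
    rw [Finset.mem_erase, Finset.mem_filter, Finset.mem_range] at hs
    rw [Finset.mem_Ico]
    omega
  · intro s hs
    rw [Finset.mem_Ico] at hs
    rw [Finset.mem_erase, Finset.mem_filter, Finset.mem_range]
    omega
  · intro s hs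
    rw [Finset.mem_erase, Finset.mem_filter, Finset.mem_range] at hs
    show 2 * m + 2 + s - (2 * m + 2) = s
    omega
  · intro s hs
    rw [Finset.mem_Ico] at hs
    show 2 * m + 2 + (s - (2 * m + 2)) = s
    omega
  · intro s hs
    rw [Finset.mem_erase, Finset.mem_filter, Finset.mem_range] at hs
    unfold yj
    rw [if_pos (by omega)]

theorem AAbY_prod2 {m k j : ℕ} (hj : j < 2 * m + 1) (x : ℕ → K) (a : K) :
    (x j + a) * (∏ s ∈ (range (2 * (m + k + 1) + 2)).filter (fun s => s ≠ 2 * m + 1 ∧ s ≠ 2 * m + 1 + 1), (x (skip j s) + a)) =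
      ∏ s ∈ (range (2 * (m + k) + 5)).filter (fun s => s ≠ 2 * m + 2 ∧ s ≠ 2 * m + 3), (x s + a) := by
  have hmem : j ∈ (range (2 * (m + k) + 5)).filter (fun s => s ≠ 2 * m + 2 ∧ s ≠ 2 * m + 3) := by
    rw [Finset.mem_filter, Finset.mem_range]
    omega
  rw [← Finset.mul_prod_erase _ _ hmem]
  congr 1
  refine Finset.prod_nbij' (fun s => skip j s) (fun s => AAa_us j s) ?_ ?_ ?_ ?_ ?_
  · intro s hs
    rw [Finset.mem_filter, Finset.mem_range] at hs
    rw [Finset.mem_erase, Finset.mem_filter, Finset.mem_range]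
    unfold skip
    split_ifs <;> omega
  · intro s hs
    rw [Finset.mem_erase, Finset.mem_filter, Finset.mem_range] at hs
    rw [Finset.mem_filter, Finset.mem_range]
    unfold AAa_us
    split_ifs <;> omega
  · intro s hs
    show AAa_us j (skip j s) = s
    unfold skip AAa_us
    split_ifs <;> omega
  · intro s hs
    rw [Finset.mem_erase] at hs
    show skip j (AAa_us j s) = s
    unfold skip AAa_us
    split_ifs <;> omega
  · intro s _
    rfl

theorem AA_recY [CharZero K] (m k : ℕ) (u : K) (x : ℕ → K) (h : qq (x (2 * m + 2)) (x (2 * m + 3)) = 0)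
    (h01 : x (2 * m + 2) ≠ x (2 * m + 3)) :
    AA m (k + 1) u x =
      (∏ s ∈ (range (2 * (m + k) + 5)).filter (fun s => s ≠ 2 * m + 2 ∧ s ≠ 2 * m + 3), (x s + x (2 * m + 2) + x (2 * m + 3))) *
      (∏ s ∈ Ico (2 * m + 4) (2 * (m + k) + 5), (x s + x (2 * m + 2) + x (2 * m + 3))) * AA m k u (rmv (2 * m + 2) x) := by
  rw [AAa_eq, AAa_eq, Finset.mul_sum]
  refine Finset.sum_congr rfl fun j hj => ?_
  rw [Finset.mem_range] at hj
  have hr : ∀ l < 2 * m + 1, rmv (2 * m + 2) x l = x l := fun l hl => by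
    unfold rmv
    rw [if_pos (by omega)]
  set a : K := x (2 * m + 2) + x (2 * m + 3) with ha
  have hy0 : yj m (k + 1) j x 0 = x (2 * m + 2) := by
    unfold yj
    rw [if_pos (by omega)]
  have hy1 : yj m (k + 1) j x (0 + 1) = x (2 * m + 3) := by
    unfold yj
    rw [if_pos (by omega)]
  have hs0 : skip j (2 * m + 1) = 2 * m + 2 := by
    unfold skip
    rw [if_neg (by omega)]
  have hs1 : skip j (2 * m + 1 + 1) = 2 * m + 3 := by
    unfold skip
    rw [if_neg (by omega)]
  have e1 : Chi (2 * (k + 1) + 2) (yj m (k + 1) j x) =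
      ((x j + a) * ∏ s ∈ Ico (2 * m + 4) (2 * (m + k) + 5), (x s + a)) * Chi (2 * k + 2) (yj m k j (rmv (2 * m + 2) x)) := by
    have h1 := Chi_wheel' (r := 2 * k + 2) (i := 0) (by omega) (yj m (k + 1) j x) (by rw [hy0, hy1]; exact h)
      (by rw [hy0, hy1]; exact h01)
    rw [hy0, hy1] at h1
    have h2 : rmv 0 (yj m (k + 1) j x) = yj m k j (rmv (2 * m + 2) x) := by
      funext l
      have e0 : rmv 0 (yj m (k + 1) j x) l = yj m (k + 1) j x (l + 2) := by
        unfold rmv
        rw [if_neg (by omega)]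
      rw [e0]
      by_cases hl : l < 2 * k + 1
      · have e5 : rmv (2 * m + 2) x (2 * m + 2 + l) = x (2 * m + 2 + l + 2) := by
          unfold rmv
          rw [if_neg (by omega)]
        unfold yj
        rw [if_pos (by omega), if_pos hl, e5]
        rfl
      · unfold yj
        rw [if_neg (by omega), if_neg hl, hr j hj]
    rw [h2] at h1
    have h3 : ∀ s, yj m (k + 1) j x s + x (2 * m + 2) + x (2 * m + 3) = yj m (k + 1) j x s + a := fun s => by
      rw [ha, add_assoc]
    simp only [h3] at h1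
    rw [AAbY_prod1] at h1
    exact h1
  have e2 : Chi (2 * (m + (k + 1) + 1)) (fun i => x (skip j i)) =
      (∏ s ∈ (range (2 * (m + k + 1) + 2)).filter (fun s => s ≠ 2 * m + 1 ∧ s ≠ 2 * m + 1 + 1), (x (skip j s) + a)) *
        Chi (2 * (m + k + 1)) (fun i => rmv (2 * m + 2) x (skip j i)) := by
    have h1 := Chi_wheel' (r := 2 * (m + k + 1)) (i := 2 * m + 1) (by omega) (fun i => x (skip j i))
      (by simp only [hs0, hs1]; exact h) (by simp only [hs0, hs1]; exact h01)
    simp only [hs0, hs1] at h1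
    have h2 : rmv (2 * m + 1) (fun i => x (skip j i)) = fun i => rmv (2 * m + 2) x (skip j i) := by
      funext l
      by_cases hl : l < 2 * m + 1
      · have e3 : skip j l < 2 * m + 2 := AAa_skip_lt hl
        unfold rmv
        rw [if_pos hl, if_pos e3]
      · have e3 : skip j l = l + 1 := by
          unfold skip
          rw [if_neg (by omega)]
        have e4 : skip j (l + 2) = l + 3 := by
          unfold skip
          rw [if_neg (by omega)]
        unfold rmv
        rw [if_neg hl]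
        simp only [e3, e4]
        rw [if_neg (by omega)]
    rw [h2] at h1
    have h3 : ∀ s, x (skip j s) + x (2 * m + 2) + x (2 * m + 3) = x (skip j s) + a := fun s => by
      rw [ha, add_assoc]
    simp only [h3] at h1
    have h4 : 2 * (m + (k + 1) + 1) = 2 * (m + k + 1) + 2 := by ring
    rw [h4]
    exact h1
  have e3 : (∏ i ∈ (range (2 * m + 1)).erase j, qq (rmv (2 * m + 2) x j) (rmv (2 * m + 2) x i)) =
      ∏ i ∈ (range (2 * m + 1)).erase j, qq (x j) (x i) := by
    refine Finset.prod_congr rfl fun l hl => ?_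
    rw [Finset.mem_erase, Finset.mem_range] at hl
    rw [hr j hj, hr l hl.2]
  have e4 : DD (2 * m) (fun i => rmv (2 * m + 2) x (skip j i)) = DD (2 * m) (fun i => x (skip j i)) :=
    DD_congr fun l hl => hr _ (AAa_skip_lt hl)
  have h3 : ∀ s, x s + x (2 * m + 2) + x (2 * m + 3) = x s + a := fun s => by
    rw [ha, add_assoc]
  unfold AAa_t
  simp only [h3]
  rw [e1, e2, e3, e4, hr j hj, ← AAbY_prod2 hj x a]
  ring
end IP.Slit
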