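import Pool.Agent.Helper60.Slit.SS
import Pool.Agent.Helper60.Slit.AA
/-! MODULE BASE (proved by helper80): the main identity for `(m,k) = (0,0)`, and for `(1,1)` at the special points
`b 3 = b 2 + π/3`, `b 4 = b 1 + π/3`.  There `V 3 b = K 3 2 b • In 2 (V 2 (rem 2 b))`,
`V 2 (rem 2 b) = K 2 1 _ • In 1 (V 1 (b 0, b 5, b 6))`, and `tri 1 1 w v (In 2 (In 1 (single σ)))` is explicit for
the two states `bot 1`, `top 1` (`nb_W_one`).
The right side `AA 1 1 (x 2) x` (`xpp b 3 = xx b 2`): the term `j = 2` is zero; `Chi 6` by `Chi_wheel'` for the pair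
`(2,3)`, `Chi 4` is explicit. -/
namespace IP.Slit
open IP Finset Real

/-! ### small values -/

section
open Polynomial
variable {K : Type*} [Field K]

theorem base_Chi_four (x : ℕ → K) : Chi 4 x =
    3 + (x 0 * x 1 + x 0 * x 2 + x 0 * x 3 + x 1 * x 2 + x 1 * x 3 + x 2 * x 3) := by
  have e1 : dq (X ^ 3 - C 3 * X : K[X]) (x 0) = X ^ 2 + C (x 0) * X + C (x 0 ^ 2 - 3) := by
    apply chiA_dq_unique (c := x 0 ^ 3 - 3 * x 0)
    simp only [C_sub, C_mul, C_pow]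
    ring
  have e2 : dq (X ^ 2 + C (x 0) * X + C (x 0 ^ 2 - 3)) (x 1) = X + C (x 0 + x 1) := by
    apply chiA_dq_unique (c := x 1 ^ 2 + x 0 * x 1 + (x 0 ^ 2 - 3))
    simp only [C_sub, C_add, C_mul, C_pow]
    ring
  have e3 : dq (X + C (x 0 + x 1)) (x 2) = 1 := by
    apply chiA_dq_unique (c := x 2 + x 0 + x 1)
    simp only [C_add]
    ring
  have f0 : ph K 3 = X ^ 4 - C 3 * X ^ 2 := by
    unfold ph
    ring
  have f1 : dq (X ^ 4 - C 3 * X ^ 2 : K[X]) (x 0) = X ^ 3 + C (x 0) * X ^ 2 + C (x 0 ^ 2 - 3) * X +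
      C (x 0 ^ 3 - 3 * x 0) := by
    apply chiA_dq_unique (c := x 0 ^ 4 - 3 * x 0 ^ 2)
    simp only [C_sub, C_mul, C_pow]
    ring
  have f2 : dq (X ^ 3 + C (x 0) * X ^ 2 + C (x 0 ^ 2 - 3) * X + C (x 0 ^ 3 - 3 * x 0)) (x 1) =
      X ^ 2 + C (x 0 + x 1) * X + C (x 0 ^ 2 + x 0 * x 1 + x 1 ^ 2 - 3) := by
    apply chiA_dq_unique (c := x 1 ^ 3 + x 0 * x 1 ^ 2 + (x 0 ^ 2 - 3) * x 1 + (x 0 ^ 3 - 3 * x 0))
    simp only [C_sub, C_add, C_mul, C_pow]
    ring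
  have f3 : dq (X ^ 2 + C (x 0 + x 1) * X + C (x 0 ^ 2 + x 0 * x 1 + x 1 ^ 2 - 3)) (x 2) =
      X + C (x 0 + x 1 + x 2) := by
    apply chiA_dq_unique (c := x 2 ^ 2 + (x 0 + x 1) * x 2 + (x 0 ^ 2 + x 0 * x 1 + x 1 ^ 2 - 3))
    simp only [C_sub, C_add, C_mul, C_pow]
    ring
  have g22 : dd x (ph K 2) 2 = X + C (x 0 + x 1) := by
    show dq (dq (ph K 2) (x 0)) (x 1) = _
    rw [chiA_ph2, e1, e2]
  have g23 : dd x (ph K 2) 3 = 1 := by
    show dq (dd x (ph K 2) 2) (x 2) = _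
    rw [g22, e3]
  have g32 : dd x (ph K 3) 2 = X ^ 2 + C (x 0 + x 1) * X + C (x 0 ^ 2 + x 0 * x 1 + x 1 ^ 2 - 3) := by
    show dq (dq (ph K 3) (x 0)) (x 1) = _
    rw [f0, f1, f2]
  have g33 : dd x (ph K 3) 3 = X + C (x 0 + x 1 + x 2) := by
    show dq (dd x (ph K 3) 2) (x 2) = _
    rw [g32, f3]
  have d01 : dd x (ph K 0) 1 = 0 := by
    show dq (ph K 0) (x 0) = _
    rw [chiA_ph0, chiA_dq_one]
  have d02 : dd x (ph K 0) 2 = 0 := by
    show dq (dd x (ph K 0) 1) (x 1) = _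
    rw [d01, chiA_dq_zero]
  have d03 : dd x (ph K 0) 3 = 0 := by
    show dq (dd x (ph K 0) 2) (x 2) = _
    rw [d02, chiA_dq_zero]
  have d11 : dd x (ph K 1) 1 = 1 := by
    show dq (ph K 1) (x 0) = _
    rw [chiA_ph1, chiA_dq_X]
  have d12 : dd x (ph K 1) 2 = 0 := by
    show dq (dd x (ph K 1) 1) (x 1) = _
    rw [d11, chiA_dq_one]
  have d13 : dd x (ph K 1) 3 = 0 := by
    show dq (dd x (ph K 1) 2) (x 2) = _
    rw [d12, chiA_dq_zero]
  have d00 : dd x (ph K 0) 0 = 1 := chiA_ph0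
  unfold Chi
  rw [Matrix.det_succ_column_zero, Fin.sum_univ_four]
  simp only [Matrix.of_apply, Matrix.det_fin_three, Matrix.submatrix_apply, Fin.zero_succAbove]
  have v1 : (((0 : Fin 3).succ : Fin 4) : ℕ) = 1 := rfl
  have v2 : (((1 : Fin 3).succ : Fin 4) : ℕ) = 2 := rfl
  have v3 : (((2 : Fin 3).succ : Fin 4) : ℕ) = 3 := rfl
  have w0 : ((0 : Fin 4) : ℕ) = 0 := rfl
  have w1 : ((1 : Fin 4) : ℕ) = 1 := rfl
  have w2 : ((2 : Fin 4) : ℕ) = 2 := rfl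
  have w3 : ((3 : Fin 4) : ℕ) = 3 := rfl
  rw [v1, v2, v3, w0, w1, w2, w3, d00, d01, d02, d03, d11, d12, d13, g22, g23, g32, g33]
  simp only [eval_add, eval_X, eval_C, eval_zero, eval_one, eval_mul, eval_pow]
  ring

end

theorem main_zero (b : ℕ → ℝ) :
    4 ^ ((0 + 0 + 1) ^ 2 + 0 ^ 2 + 0 ^ 2) * SS 0 0 b * VV (2 * 0 + 1) (xx b) = AA 0 0 (xpp b (2 * 0 + 1)) (xx b) := by
  have h1 : VV (2 * 0 + 1) (xx b) = 1 := by
    unfold VV
    simp
  have h2 : AA 0 0 (xpp b (2 * 0 + 1)) (xx b) = xx b 0 - xpp b 1 := by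
    have hDD : ∀ y : ℕ → ℝ, DD (2 * 0) y = 1 := fun y => Matrix.det_fin_zero
    unfold AA
    rw [show 2 * 0 + 1 = 1 from rfl, show 2 * 0 + 2 = 2 from rfl, show 2 * (0 + 0 + 1) = 2 from rfl,
      sum_range_one, hDD, Chi_two, Chi_two, show (range 1).erase 0 = ∅ by decide, prod_empty]
    ring
  rw [h1, h2, ← SS_zero]
  norm_num

/-! ### the special point -/

noncomputable def base_X (y : ℝ) : ℝ := 2 * Real.cos (2 * y)

theorem base_conj (y : ℝ) : base_X (y + π / 3) = 2 * Real.cos (2 * y + 2 * π / 3) := by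
  unfold base_X
  congr 2
  ring

theorem base_sum3 (y : ℝ) : base_X y + base_X (y + π / 3) = - (2 * Real.cos (2 * y - 2 * π / 3)) := by
  rw [base_conj]
  unfold base_X
  have h : Real.cos (2 * π / 3) = - (1 / 2) := by
    rw [show 2 * π / 3 = π - π / 3 by ring, Real.cos_pi_sub, Real.cos_pi_div_three]
  rw [Real.cos_add, Real.cos_sub, h]
  ring

theorem base_qq (y : ℝ) : qq (base_X y) (base_X (y + π / 3)) = 0 := by
  rw [base_conj]
  unfold base_X qq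
  have h : Real.cos (2 * π / 3) = - (1 / 2) := by
    rw [show 2 * π / 3 = π - π / 3 by ring, Real.cos_pi_sub, Real.cos_pi_div_three]
  have h' : Real.sin (2 * π / 3) ^ 2 = 3 / 4 := by
    have := Real.sin_sq_add_cos_sq (2 * π / 3)
    rw [h] at this
    linarith
  have h2 := Real.sin_sq_add_cos_sq (2 * y)
  rw [Real.cos_add, h]
  linear_combination (4 * Real.sin (2 * y) ^ 2) * h' + 3 * h2

/-- one factor of `K` -/
theorem base_ss (x a : ℝ) : 4 * (s (x - a) * s (-x - a)) = base_X x + base_X a + base_X (a + π / 3) := by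
  rw [nb_four_ss, add_assoc, base_sum3]
  unfold base_X
  ring

/-- the three one-column vectors -/
theorem base_top (c : ℕ → ℝ) : 4 * V 1 c (top 1) = base_X (c 0) + base_X (c 1) + base_X (c 1 + π / 3) := by
  rw [V_top, ← base_ss]
  unfold f0
  simp [prod_range_succ]

theorem base_bot (c : ℕ → ℝ) : 4 * V 1 c (bot 1) = base_X (c 2) - base_X (c 1 + π / 3) := by
  have h1 : Z 1 c = V 1 c (bot 1) + V 1 c (top 1) := nb_tot_one (V_Sup 1 c)
  have h2 := nb_Z_one c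
  have h3 := base_top c
  have h4 : 4 * Z 1 c = base_X (c 0) + base_X (c 1) + base_X (c 2) := h2
  linarith

theorem base_vec (c : ℕ → ℝ) : V 1 c = Finsupp.single (bot 1) (V 1 c (bot 1)) +
    Finsupp.single (top 1) (V 1 c (top 1)) := by
  classical
  ext σ
  rw [Finsupp.add_apply, Finsupp.single_apply, Finsupp.single_apply]
  by_cases h1 : bot 1 = σ
  · subst h1
    rw [if_pos rfl, if_neg nb_bot_ne_top.symm, add_zero]
  · rw [if_neg h1, zero_add]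
    by_cases h2 : top 1 = σ
    · subst h2
      rw [if_pos rfl]
    · rw [if_neg h2]
      refine vs_mem_Sup.1 (V_Sup 1 c) σ ?_
      intro h
      rcases nb_W_one h with h' | h'
      · exact h1 h'.symm
      · exact h2 h'.symm

/-! ### the crossing indicator -/

theorem base_top01 : (top 1) 0 1 := Or.inr (Or.inl (by simp))
theorem base_s02 (σ : St) : (ins 2 (ins 1 σ)) 0 2 := by
  show (insS 1 (Setoid.comap (coll 0) σ)) 0 2
  refine Or.inr ⟨by omega, by omega, ?_⟩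
  rw [Setoid.comap_rel]
  have h1 : coll 0 (unskip 1 0) = 0 := rfl
  have h2 : coll 0 (unskip 1 2) = 0 := rfl
  rw [h1, h2]
theorem base_s23 {σ : St} (h : σ 0 1) : (ins 2 (ins 1 σ)) 2 3 := by
  show (insS 1 (Setoid.comap (coll 0) σ)) 2 3
  refine Or.inr ⟨by omega, by omega, ?_⟩
  rw [Setoid.comap_rel]
  have h1 : coll 0 (unskip 1 2) = 0 := rfl
  have h2 : coll 0 (unskip 1 3) = 1 := rfl
  rw [h1, h2]
  exact h

theorem base_le {a b c S : St} (h1 : ∀ x y, a x y → S x y) (h2 : ∀ x y, b x y → S x y)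
    (h3 : ∀ x y, c x y → S x y) {x y : ℕ} (h : (a ⊔ b ⊔ c) x y) : S x y := by
  have hl : a ⊔ b ⊔ c ≤ S := by
    refine sup_le (sup_le ?_ ?_) ?_
    · rw [Setoid.le_def]; intro x y; exact h1 x y
    · rw [Setoid.le_def]; intro x y; exact h2 x y
    · rw [Setoid.le_def]; intro x y; exact h3 x y
  rw [Setoid.le_def] at hl
  exact hl h

theorem base_l {a b c : St} {x y : ℕ} (h : a x y) : (a ⊔ b ⊔ c) x y := by
  have hl : a ≤ a ⊔ b ⊔ c := le_sup_of_le_left le_sup_left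
  rw [Setoid.le_def] at hl
  exact hl h
theorem base_m {a b c : St} {x y : ℕ} (h : b x y) : (a ⊔ b ⊔ c) x y := by
  have hl : b ≤ a ⊔ b ⊔ c := le_sup_of_le_left le_sup_right
  rw [Setoid.le_def] at hl
  exact hl h
theorem base_r {a b c : St} {x y : ℕ} (h : c x y) : (a ⊔ b ⊔ c) x y := by
  have hl : c ≤ a ⊔ b ⊔ c := le_sup_right
  rw [Setoid.le_def] at hl
  exact hl h

/-- only the site `1` is separated -/
abbrev base_S1 : St where
  r x y := x = y ∨ (x ≠ 1 ∧ y ≠ 1)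
  iseqv := ⟨fun _ => Or.inl rfl, fun {x y} h => by omega, fun {x y z} h h' => by omega⟩

/-- the sites `< 3` against the sites `≥ 3` -/
abbrev base_S2 : St where
  r x y := x < 3 ↔ y < 3
  iseqv := ⟨fun _ => Iff.rfl, fun {x y} h => h.symm, fun {x y z} h h' => h.trans h'⟩

theorem base_cf_bot (t2 σ : St) : cf 1 1 (bot 1) t2 (ins 2 (ins 1 σ)) = 0 := by
  unfold cf
  rw [if_neg]
  intro h
  have h1 : base_S1 1 (1 + 1 + 1) := by
    refine base_le (S := base_S1) ?_ ?_ ?_ h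
    · intro x y hxy
      rcases (show x = y ∨ _ from hxy) with h' | ⟨h1, h2, _⟩
      · exact Or.inl h'
      · exact Or.inr ⟨h1, h2⟩
    · intro x y hxy
      rcases (show x = y ∨ (x ≤ 1 ∧ y ≤ 1 ∧ (bot 1) x y) from hxy) with h' | ⟨h1, h2, h3⟩
      · exact Or.inl h'
      · rcases (show x = y ∨ (1 ≤ x ∧ 1 ≤ y) from h3) with h4 | h4
        · exact Or.inl h4
        · exact Or.inl (by omega)
    · intro x y hxy
      rcases (show x = y ∨ (1 < x ∧ 1 < y ∧ _) from hxy) with h' | ⟨h1, h2, _⟩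
      · exact Or.inl h'
      · exact Or.inr ⟨by omega, by omega⟩
  rcases (show 1 = 1 + 1 + 1 ∨ (1 ≠ 1 ∧ 1 + 1 + 1 ≠ 1) from h1) with h2 | h2 <;> omega

theorem base_cf_bb : cf 1 1 (top 1) (bot 1) (ins 2 (ins 1 (bot 1))) = 0 := by
  unfold cf
  rw [if_neg]
  intro h
  have h1 : base_S2 1 (1 + 1 + 1) := by
    refine base_le (S := base_S2) ?_ ?_ ?_ h
    · intro x y hxy
      show x < 3 ↔ y < 3
      rcases (show x = y ∨ (x ≠ 1 ∧ y ≠ 1 ∧ (bot 1) (coll 0 (unskip 1 x)) (coll 0 (unskip 1 y))) from hxy) with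
        h' | ⟨h1, h2, h3⟩
      · rw [h']
      · have hc : ∀ x, x ≠ 1 → (coll 0 (unskip 1 x) = 0 ↔ x < 3) := by
          intro x hx
          unfold coll unskip
          split_ifs <;> omega
        have e1 := hc x h1
        have e2 := hc y h2
        rcases (show coll 0 (unskip 1 x) = coll 0 (unskip 1 y) ∨
          (1 ≤ coll 0 (unskip 1 x) ∧ 1 ≤ coll 0 (unskip 1 y)) from h3) with h4 | h4
        · rw [← e1, ← e2, h4]
        · rw [← e1, ← e2]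
          constructor <;> intro h5 <;> omega
    · intro x y hxy
      show x < 3 ↔ y < 3
      rcases (show x = y ∨ (x ≤ 1 ∧ y ≤ 1 ∧ _) from hxy) with h' | ⟨h1, h2, h3⟩
      · rw [h']
      · omega
    · intro x y hxy
      show x < 3 ↔ y < 3
      rcases (show x = y ∨ (1 < x ∧ 1 < y ∧ (bot 1) (x - 1 - 1) (y - 1 - 1)) from hxy) with h' | ⟨h1, h2, h3⟩
      · rw [h']
      · rcases (show x - 1 - 1 = y - 1 - 1 ∨ (1 ≤ x - 1 - 1 ∧ 1 ≤ y - 1 - 1) from h3) with h4 | h4 <;> omega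
  have h2 : (1 < 3 ↔ 1 + 1 + 1 < 3) := h1
  omega

theorem base_cf_t {t2 σ : St} (h : t2 0 1 ∨ σ 0 1) : cf 1 1 (top 1) t2 (ins 2 (ins 1 σ)) = 1 := by
  unfold cf
  rw [if_pos]
  show (ins 2 (ins 1 σ) ⊔ liftL 1 (top 1) ⊔ liftR 1 t2) 1 3
  set S := ins 2 (ins 1 σ) ⊔ liftL 1 (top 1) ⊔ liftR 1 t2 with hS
  have h10 : S 1 0 := base_m (Or.inr ⟨by omega, by omega, (top 1).symm base_top01⟩)
  have h02 : S 0 2 := base_l (base_s02 σ)
  have h23 : S 2 3 := by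
    rcases h with h | h
    · exact base_r (Or.inr ⟨by omega, by omega, h⟩)
    · exact base_l (base_s23 h)
  exact S.trans h10 (S.trans h02 h23)

theorem base_In (i : ℕ) (σ : St) (x : ℝ) : In i (Finsupp.single σ x) = Finsupp.single (ins i σ) x := by
  unfold In
  rw [Finsupp.lmapDomain_apply, Finsupp.mapDomain_single]

theorem base_tri_gen (p1 q1 p2 q2 p q : ℝ) :
    tri 1 1 (Finsupp.single (bot 1) p1 + Finsupp.single (top 1) q1)
      (Finsupp.single (bot 1) p2 + Finsupp.single (top 1) q2)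
      (In 2 (In 1 (Finsupp.single (bot 1) p + Finsupp.single (top 1) q))) =
    q1 * ((p2 + q2) * (p + q) - p2 * p) := by
  rw [map_add, map_add, base_In, base_In, base_In, base_In, tri_add1, tri_add2, tri_add2, tri_add3, tri_add3, tri_add3,
    tri_add3]
  simp only [tri_single]
  rw [base_cf_bot, base_cf_bot, base_cf_bot, base_cf_bot, base_cf_bb, base_cf_t (Or.inl base_top01),
    base_cf_t (Or.inl base_top01), base_cf_t (Or.inr base_top01)]
  ring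

/-- the value of the trilinear form -/
theorem base_tri (c1 c2 c : ℕ → ℝ) : tri 1 1 (V 1 c1) (V 1 c2) (In 2 (In 1 (V 1 c))) =
    V 1 c1 (top 1) * ((V 1 c2 (bot 1) + V 1 c2 (top 1)) * (V 1 c (bot 1) + V 1 c (top 1)) -
      V 1 c2 (bot 1) * V 1 c (bot 1)) := by
  rw [← base_tri_gen (V 1 c1 (bot 1)), ← base_vec c1, ← base_vec c2, ← base_vec c]

theorem base_X_neg (y : ℝ) : base_X (-y) = base_X y := by
  unfold base_X
  rw [mul_neg, Real.cos_neg]

theorem base_X_neg' (y : ℝ) : base_X (-y + π / 3) = - base_X y - base_X (y + π / 3) := by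
  have := base_sum3 y
  have h : base_X (-y + π / 3) = 2 * Real.cos (2 * y - 2 * π / 3) := by
    unfold base_X
    rw [← Real.cos_neg]
    congr 2
    ring
  linarith


theorem base_xpp (b : ℕ → ℝ) (i j : ℕ) (h : b j = b i + π / 3) : xpp b i = - (xx b i + xx b j) := by
  have h1 := base_sum3 (b i)
  have h2 : xx b i = base_X (b i) := rfl
  have h3 : xx b j = base_X (b i + π / 3) := by
    unfold xx base_X
    rw [h]
  have h4 : xpp b i = 2 * Real.cos (2 * b i - 2 * π / 3) := rfl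
  rw [h2, h3, h4]
  linarith

theorem base_SS (b : ℕ → ℝ) (h1 : b 3 = b 2 + π / 3) (h2 : b 4 = b 1 + π / 3) :
    SS 1 1 b = K 3 2 b * (K 2 1 (rem 2 b) * (V 1 (fun j => - b j) (top 1) *
      ((V 1 (fun j => - b (2 * 1 + 2 + j)) (bot 1) + V 1 (fun j => - b (2 * 1 + 2 + j)) (top 1)) *
        (V 1 (rem 1 (rem 2 b)) (bot 1) + V 1 (rem 1 (rem 2 b)) (top 1)) -
          V 1 (fun j => - b (2 * 1 + 2 + j)) (bot 1) * V 1 (rem 1 (rem 2 b)) (bot 1)))) := by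
  have e1 : V 3 b = K 3 2 b • In 2 (V 2 (rem 2 b)) := V_rec (n := 2) (i := 2) (by omega) b h1
  have c2 : rem 2 b 2 = b 4 := rfl
  have c1 : rem 2 b 1 = b 1 := rfl
  have e2 : V 2 (rem 2 b) = K 2 1 (rem 2 b) • In 1 (V 1 (rem 1 (rem 2 b))) :=
    V_rec (n := 1) (i := 1) (by omega) (rem 2 b) (by
      rw [show 1 + 1 = 2 from rfl, c2, c1, h2])
  rw [← base_tri, ← tri_smul3, ← tri_smul3, ← map_smul, ← e2, ← e1]
  rfl

/-- the value of the left side -/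
theorem base_left (b : ℕ → ℝ) (h1 : b 3 = b 2 + π / 3) (h2 : b 4 = b 1 + π / 3) :
    4 ^ ((1 + 1 + 1) ^ 2 + 1 ^ 2 + 1 ^ 2) * SS 1 1 b =
    ((xx b 0 + xx b 2 + xx b 3) * (xx b 1 + xx b 2 + xx b 3) * (xx b 4 + xx b 2 + xx b 3) *
      (xx b 5 + xx b 2 + xx b 3) * (xx b 6 + xx b 2 + xx b 3)) *
    ((xx b 0 + xx b 1 + xx b 4) * (xx b 5 + xx b 1 + xx b 4) * (xx b 6 + xx b 1 + xx b 4)) *
    (xx b 0 - xx b 4) *
    (3 + (xx b 0 * xx b 4 + xx b 0 * xx b 5 + xx b 0 * xx b 6 + xx b 4 * xx b 5 + xx b 4 * xx b 6 +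
      xx b 5 * xx b 6)) := by
  have c0 : xx (rem 2 b) 0 = xx b 0 := rfl
  have c3 : xx (rem 2 b) 3 = xx b 5 := rfl
  have c4 : xx (rem 2 b) 4 = xx b 6 := rfl
  have c1 : xpp (rem 2 b) 1 = xpp b 1 := rfl
  have f1 : (range (2 * 3 + 1)).filter (fun j => j ≠ 2 ∧ j ≠ 2 + 1) = {0, 1, 4, 5, 6} := by decide
  have f2 : (range (2 * 2 + 1)).filter (fun j => j ≠ 1 ∧ j ≠ 1 + 1) = {0, 3, 4} := by decide
  have k1 : 4 ^ 5 * K 3 2 b = (xx b 0 + xx b 2 + xx b 3) * (xx b 1 + xx b 2 + xx b 3) *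
      (xx b 4 + xx b 2 + xx b 3) * (xx b 5 + xx b 2 + xx b 3) * (xx b 6 + xx b 2 + xx b 3) := by
    have hk := ssb_K_general 3 2 b
    rw [f1, show #({0, 1, 4, 5, 6} : Finset ℕ) = 5 by decide, prod_insert (by decide), prod_insert (by decide),
      prod_insert (by decide), prod_insert (by decide), prod_singleton, base_xpp b 2 3 h1] at hk
    rw [hk]
    ring
  have k2 : 4 ^ 3 * K 2 1 (rem 2 b) = (xx b 0 + xx b 1 + xx b 4) * (xx b 5 + xx b 1 + xx b 4) *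
      (xx b 6 + xx b 1 + xx b 4) := by
    have hk := ssb_K_general 2 1 (rem 2 b)
    rw [f2, show #({0, 3, 4} : Finset ℕ) = 3 by decide, prod_insert (by decide), prod_insert (by decide),
      prod_singleton, c0, c3, c4, c1, base_xpp b 1 4 h2] at hk
    rw [hk]
    ring
  have d0 : base_X (rem 1 (rem 2 b) 0) = xx b 0 := rfl
  have d1 : rem 1 (rem 2 b) 1 = b 5 := rfl
  have d2 : base_X (rem 1 (rem 2 b) 2) = xx b 6 := rfl
  have x5 : base_X (b 5) = xx b 5 := rfl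
  have a1 : 4 * V 1 (fun j => - b j) (top 1) = xx b 0 - xx b 4 := by
    rw [base_top]
    have u0 : base_X (-b 0) = xx b 0 := base_X_neg (b 0)
    have u1 : base_X (-b 1) = base_X (b 1) := base_X_neg (b 1)
    have u2 := base_X_neg' (b 1)
    have u3 : xx b 4 = base_X (b 1 + π / 3) := by
      unfold xx base_X
      rw [h2]
    rw [u3]
    linarith
  have a2 : 4 * V 1 (fun j => - b (2 * 1 + 2 + j)) (top 1) = xx b 4 - base_X (b 5 + π / 3) := by
    rw [base_top]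
    have u0 : base_X (-b (2 * 1 + 2 + 0)) = xx b 4 := base_X_neg (b 4)
    have u1 : base_X (-b (2 * 1 + 2 + 1)) = base_X (b 5) := base_X_neg (b 5)
    have u2 : base_X (-b (2 * 1 + 2 + 1) + π / 3) = - base_X (b 5) - base_X (b 5 + π / 3) := base_X_neg' (b 5)
    linarith
  have a3 : 4 * V 1 (fun j => - b (2 * 1 + 2 + j)) (bot 1) = xx b 6 + xx b 5 + base_X (b 5 + π / 3) := by
    rw [base_bot]
    have u0 : base_X (-b (2 * 1 + 2 + 2)) = xx b 6 := base_X_neg (b 6)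
    have u2 : base_X (-b (2 * 1 + 2 + 1) + π / 3) = - base_X (b 5) - base_X (b 5 + π / 3) := base_X_neg' (b 5)
    linarith
  have a4 : 4 * V 1 (rem 1 (rem 2 b)) (top 1) = xx b 0 + xx b 5 + base_X (b 5 + π / 3) := by
    rw [base_top, d0, d1, x5]
  have a5 : 4 * V 1 (rem 1 (rem 2 b)) (bot 1) = xx b 6 - base_X (b 5 + π / 3) := by
    rw [base_bot, d1, d2]
  have q1 := base_qq (b 5)
  rw [x5] at q1
  have key : ∀ κ1 κ2 α β2 τ2 β τ : ℝ,
      4 ^ ((1 + 1 + 1) ^ 2 + 1 ^ 2 + 1 ^ 2) * (κ1 * (κ2 * (α * ((β2 + τ2) * (β + τ) - β2 * β)))) =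
      (4 ^ 5 * κ1) * (4 ^ 3 * κ2) * (4 * α) * ((4 * β2 + 4 * τ2) * (4 * β + 4 * τ) - (4 * β2) * (4 * β)) := by
    intro κ1 κ2 α β2 τ2 β τ
    ring
  have fin : (xx b 6 + xx b 5 + base_X (b 5 + π / 3) + (xx b 4 - base_X (b 5 + π / 3))) *
      (xx b 6 - base_X (b 5 + π / 3) + (xx b 0 + xx b 5 + base_X (b 5 + π / 3))) -
      (xx b 6 + xx b 5 + base_X (b 5 + π / 3)) * (xx b 6 - base_X (b 5 + π / 3)) =
      3 + (xx b 0 * xx b 4 + xx b 0 * xx b 5 + xx b 0 * xx b 6 + xx b 4 * xx b 5 + xx b 4 * xx b 6 +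
      xx b 5 * xx b 6) := by
    unfold qq at q1
    linear_combination q1
  rw [base_SS b h1 h2, key, k1, k2, a1, a2, a3, a4, a5, fin]

/-! ### the right side -/

theorem base_Chi6 (y : ℕ → ℝ) (h : qq (y 1) (y 2) = 0) (h' : y 1 ≠ y 2) : Chi 6 y =
    ((y 0 + y 1 + y 2) * (y 3 + y 1 + y 2) * (y 4 + y 1 + y 2) * (y 5 + y 1 + y 2)) *
      (3 + (y 0 * y 3 + y 0 * y 4 + y 0 * y 5 + y 3 * y 4 + y 3 * y 5 + y 4 * y 5)) := by
  have h1 := Chi_wheel' (r := 4) (i := 1) (by omega) y h h'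
  have f : (range (4 + 2)).filter (fun j => j ≠ 1 ∧ j ≠ 1 + 1) = {0, 3, 4, 5} := by decide
  have r0 : rmv 1 y 0 = y 0 := rfl
  have r1 : rmv 1 y 1 = y 3 := rfl
  have r2 : rmv 1 y 2 = y 4 := rfl
  have r3 : rmv 1 y 3 = y 5 := rfl
  rw [f, base_Chi_four, prod_insert (by decide), prod_insert (by decide), prod_insert (by decide), prod_singleton,
    r0, r1, r2, r3, show 4 + 2 = 6 from rfl, show 1 + 1 = 2 from rfl] at h1
  rw [h1]
  ring

theorem base_AA_a (x : ℕ → ℝ) (h1 : qq (x 2) (x 3) = 0) (h3 : x 2 ≠ x 3) : Chi 6 (fun i => x (skip 0 i)) =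
    ((x 1 + x 2 + x 3) * (x 4 + x 2 + x 3) * (x 5 + x 2 + x 3) * (x 6 + x 2 + x 3)) *
      (3 + (x 1 * x 4 + x 1 * x 5 + x 1 * x 6 + x 4 * x 5 + x 4 * x 6 + x 5 * x 6)) :=
  base_Chi6 (fun i => x (skip 0 i)) h1 h3

theorem base_AA_b (x : ℕ → ℝ) (h1 : qq (x 2) (x 3) = 0) (h3 : x 2 ≠ x 3) : Chi 6 (fun i => x (skip 1 i)) =
    ((x 0 + x 2 + x 3) * (x 4 + x 2 + x 3) * (x 5 + x 2 + x 3) * (x 6 + x 2 + x 3)) *
      (3 + (x 0 * x 4 + x 0 * x 5 + x 0 * x 6 + x 4 * x 5 + x 4 * x 6 + x 5 * x 6)) :=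
  base_Chi6 (fun i => x (skip 1 i)) h1 h3

theorem base_AA_c (j : ℕ) (x : ℕ → ℝ) : Chi 4 (yj 1 1 j x) =
      3 + (x j * x 4 + x j * x 5 + x j * x 6 + x 4 * x 5 + x 4 * x 6 + x 5 * x 6) := by
  have r0 : yj 1 1 j x 0 = x 4 := rfl
  have r1 : yj 1 1 j x 1 = x 5 := rfl
  have r2 : yj 1 1 j x 2 = x 6 := rfl
  have r3 : yj 1 1 j x 3 = x j := rfl
  rw [base_Chi_four, r0, r1, r2, r3]
  ring

theorem base_AA_d (w : ℝ) (x : ℕ → ℝ) : AA 1 1 w x =
    (x 0 - w) * (qq (x 0) (x 1) * qq (x 0) (x 2)) * (x 2 - x 1) * Chi 4 (yj 1 1 0 x) *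
      Chi 6 (fun i => x (skip 0 i)) -
    (x 1 - w) * (qq (x 1) (x 0) * qq (x 1) (x 2)) * (x 2 - x 0) * Chi 4 (yj 1 1 1 x) *
      Chi 6 (fun i => x (skip 1 i)) +
    (x 2 - w) * (qq (x 2) (x 0) * qq (x 2) (x 1)) * (x 1 - x 0) * Chi 4 (yj 1 1 2 x) *
      Chi 6 (fun i => x (skip 2 i)) := by
  have dd2 : ∀ y : ℕ → ℝ, DD 2 y = y 1 - y 0 := by
    intro y
    rw [← Chi_mul, Chi_two, one_mul]
    unfold VV
    simp [prod_range_succ]
  have e0 : (range 3).erase 0 = {1, 2} := by decide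
  have e1 : (range 3).erase 1 = {0, 2} := by decide
  have e2 : (range 3).erase 2 = {0, 1} := by decide
  have s01 : skip 0 1 = 2 := rfl
  have s00 : skip 0 0 = 1 := rfl
  have s11 : skip 1 1 = 2 := rfl
  have s10 : skip 1 0 = 0 := rfl
  have s21 : skip 2 1 = 1 := rfl
  have s20 : skip 2 0 = 0 := rfl
  unfold AA
  rw [show 2 * 1 + 1 = 3 from rfl, show 2 * 1 + 2 = 4 from rfl, show 2 * (1 + 1 + 1) = 6 from rfl,
    show 2 * 1 = 2 from rfl, sum_range_succ, sum_range_succ, sum_range_succ, sum_range_zero, e0, e1, e2,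
    prod_pair (by omega), prod_pair (by omega), prod_pair (by omega), dd2, dd2, dd2]
  simp only [s01, s00, s11, s10, s21, s20]
  ring

/-- the value of the right side; `w = x 2` -/
theorem base_right (x : ℕ → ℝ) (h1 : qq (x 2) (x 3) = 0) (h2 : qq (x 1) (x 4) = 0) (h3 : x 2 ≠ x 3) :
    AA 1 1 (x 2) x =
    ((x 0 + x 2 + x 3) * (x 1 + x 2 + x 3) * (x 4 + x 2 + x 3) * (x 5 + x 2 + x 3) * (x 6 + x 2 + x 3)) *
    ((x 0 + x 1 + x 4) * (x 5 + x 1 + x 4) * (x 6 + x 1 + x 4)) * (x 0 - x 4) *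
    (3 + (x 0 * x 4 + x 0 * x 5 + x 0 * x 6 + x 4 * x 5 + x 4 * x 6 + x 5 * x 6)) * VV 3 x := by
  have f1 : ∀ a, qq a (x 1) = (a - x 4) * (a + x 1 + x 4) := by
    intro a
    unfold qq at h2 ⊢
    linear_combination h2
  have f2 : ∀ a, qq a (x 2) = (a - x 3) * (a + x 2 + x 3) := by
    intro a
    unfold qq at h1 ⊢
    linear_combination h1
  have c4 : 3 + (x 1 * x 4 + x 1 * x 5 + x 1 * x 6 + x 4 * x 5 + x 4 * x 6 + x 5 * x 6) =
      (x 5 + x 1 + x 4) * (x 6 + x 1 + x 4) := by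
    unfold qq at h2
    linear_combination -h2
  have v3 : VV 3 x = (x 1 - x 0) * ((x 2 - x 0) * (x 2 - x 1)) := by
    unfold VV
    simp [prod_range_succ]
  have s10 : qq (x 1) (x 0) = qq (x 0) (x 1) := by
    unfold qq
    ring
  rw [base_AA_d, base_AA_a x h1 h3, base_AA_b x h1 h3, base_AA_c, base_AA_c, s10, f1 (x 0), f2 (x 0), f2 (x 1), c4, v3,
    sub_self, zero_mul, zero_mul, zero_mul, zero_mul, add_zero]
  generalize 3 + (x 0 * x 4 + x 0 * x 5 + x 0 * x 6 + x 4 * x 5 + x 4 * x 6 + x 5 * x 6) = Q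
  generalize x 5 + x 1 + x 4 = Q5
  generalize x 6 + x 1 + x 4 = Q6
  generalize x 0 + x 1 + x 4 = Q0
  generalize x 4 + x 2 + x 3 = R4
  generalize x 5 + x 2 + x 3 = R5
  generalize x 6 + x 2 + x 3 = R6
  generalize x 1 + x 2 + x 3 = R1
  generalize x 0 + x 2 + x 3 = R0
  ring

theorem base_qq' {b : ℕ → ℝ} {i j : ℕ} (h : b j = b i + π / 3) : qq (xx b i) (xx b j) = 0 := by
  have h1 := base_qq (b i)
  rw [← h] at h1
  exact h1

theorem main_special (b : ℕ → ℝ) (h1 : b 3 = b 2 + π / 3) (h2 : b 4 = b 1 + π / 3)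
    (h3 : xx b 2 ≠ xx b 3) (h4 : xx b 1 ≠ xx b 4) :
    4 ^ ((1 + 1 + 1) ^ 2 + 1 ^ 2 + 1 ^ 2) * SS 1 1 b * VV (2 * 1 + 1) (xx b) = AA 1 1 (xpp b (2 * 1 + 1)) (xx b) := by
  have _ := h4
  have hw : xpp b 3 = xx b 2 := by
    unfold xpp xx
    rw [h1]
    congr 2
    ring
  rw [show 2 * 1 + 1 = 3 from rfl, hw, base_left b h1 h2, base_right (xx b) (base_qq' h1) (base_qq' h2) h3]
end IP.Slit
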