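import Pool.Agent.Helper60.Slit.UniqB
/-! the main identity by induction -/
namespace IP.Slit
open IP Finset Real
theorem Df_all (m k : ℕ) (b : ℕ → ℝ) : Df m k b = 0 := by
  induction hN : m + k using Nat.strong_induction_on generalizing m k b with
  | _ N ih =>
    have h0 : ∀ b, Df 0 0 b = 0 := fun b => by unfold Df; rw [main_zero, sub_self]
    have ih' : ∀ m' k', m' + k' < N → ∀ b, Df m' k' b = 0 := fun m' k' h b => ih (m' + k') h m' k' b rfl
    rcases Nat.eq_zero_or_pos m with rfl | hm <;> rcases Nat.eq_zero_or_pos k with rfl | hk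
    · exact h0 b
    · obtain ⟨k, rfl⟩ : ∃ k', k = k' + 1 := ⟨k - 1, by omega⟩
      exact Df_stepY (by omega) (ih' 0 k (by omega)) b
    · obtain ⟨m, rfl⟩ : ∃ m', m = m' + 1 := ⟨m - 1, by omega⟩
      exact Df_stepX (by omega) (ih' m 0 (by omega)) b
    · obtain ⟨m, rfl⟩ : ∃ m', m = m' + 1 := ⟨m - 1, by omega⟩
      obtain ⟨k, rfl⟩ : ∃ k', k = k' + 1 := ⟨k - 1, by omega⟩
      by_cases h1 : k + 1 + 2 ≤ 2 * (m + 1)
      · exact Df_stepX h1 (ih' m (k + 1) (by omega)) b
      · by_cases h2 : m + 1 + 2 ≤ 2 * (k + 1)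
        · exact Df_stepY h2 (ih' (m + 1) k (by omega)) b
        · obtain rfl : m = 0 := by omega
          obtain rfl : k = 0 := by omega
          exact Df_one (ih' 1 0 (by omega)) (ih' 0 1 (by omega)) b

theorem SS_main (m k : ℕ) (b : ℕ → ℝ) :
    4 ^ ((m + k + 1) ^ 2 + m ^ 2 + k ^ 2) * SS m k b * VV (2 * m + 1) (xx b) = AA m k (xpp b (2 * m + 1)) (xx b) := by
  have := Df_all m k b
  unfold Df at this
  linarith
end IP.Slit
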