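import Pool.Agent.Helper60.Slit.ContA
import Pool.Agent.Helper60.Slit.Uniq
/-! MODULE CONT-B: the limit `b_j = ε (j+1)`, `ε → 0+`.  `GG_zero`: `Chi(2k+2)(2,..,2,X) (X-2)^(2k+1) = A + B X` (`AB_eval`),
`qq X 2 = (X+1)^2`, `(X-2)(X+1)^2 = c-2 = -4(1-μ^2)`, `24 z (X-1) = 24 μ`. -/
namespace IP.Slit
open IP Finset Real

/-- the integrand -/
noncomputable def FF (m k : ℕ) (z : ℂ) : ℂ :=
  24 * muz z * (BP (2 * m + 1) (fun _ => (2 : ℂ))).eval (cz z) * (BP (2 * (m + k) + 3) (fun _ => (2 : ℂ))).eval (cz z) *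
    ((AP (2 * k + 1) (fun _ => (2 : ℂ))).eval (cz z) + (BP (2 * k + 1) (fun _ => (2 : ℂ))).eval (cz z) * Xz z) /
      (4 * (1 - muz z ^ 2)) ^ (2 * (m + k) + 2)

theorem cont_ne {z : ℂ} (hz : ‖z - 1‖ = 1 / 10) : Xz z - 2 ≠ 0 ∧ Xz z + 1 ≠ 0 := by
  have h1 : z - 1 ≠ 0 := by
    intro h
    rw [h] at hz
    norm_num at hz
  have h2 : ∀ w : ℂ, 1 / 10 < ‖w - 1‖ → z - w ≠ 0 := by
    intro w hw h
    rw [sub_eq_zero] at h
    rw [← h, hz] at hw
    exact lt_irrefl _ hw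
  have h3 : z + 1 ≠ 0 := by
    have := h2 (-1) (by norm_num)
    rwa [sub_neg_eq_add] at this
  have h4 : z - 1 / 2 ≠ 0 := h2 (1 / 2) (by norm_num)
  have h5 : z + 1 / 2 ≠ 0 := by
    have := h2 (-(1 / 2)) (by norm_num)
    rwa [sub_neg_eq_add] at this
  constructor
  · have : Xz z - 2 = 4 * ((z - 1) * (z + 1)) := by unfold Xz; ring
    rw [this]
    exact mul_ne_zero (by norm_num) (mul_ne_zero h1 h3)
  · have : Xz z + 1 = 4 * ((z - 1 / 2) * (z + 1 / 2)) := by unfold Xz; ring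
    rw [this]
    exact mul_ne_zero (by norm_num) (mul_ne_zero h4 h5)

theorem cont_xx_zero (i : ℕ) : ((xx (fun _ => 0) i : ℝ) : ℂ) = 2 := by
  unfold xx
  simp

theorem cont_cos : ((2 * Real.cos (2 * 0 + 2 * π / 3) : ℝ) : ℂ) = -1 := by
  have h : Real.cos (2 * 0 + 2 * π / 3) = -(1 / 2) := by
    rw [show (2 * 0 + 2 * π / 3 : ℝ) = π - π / 3 by ring, Real.cos_pi_sub, Real.cos_pi_div_three]
  rw [h]
  norm_num

theorem GG_zero (m k : ℕ) {z : ℂ} (hz : ‖z - 1‖ = 1 / 10) : GG m k (fun _ => 0) z = FF m k z := by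
  obtain ⟨ha, hb⟩ := cont_ne hz
  unfold GG FF
  simp only [cont_xx_zero, prod_const, card_range]
  rw [cont_cos]
  have hc : cz z = Xz z ^ 3 - 3 * Xz z := by unfold cz muz Xz; ring
  have hAB := AB_eval (2 * k + 1) (fun _ => (2 : ℂ)) (Xz z)
  rw [← hc] at hAB
  have hchi : Chi (2 * k + 2) (fun i => if i < 2 * k + 1 then (2 : ℂ) else Xz z) =
      Chi (2 * k + 1 + 1) (Function.update (fun _ => (2 : ℂ)) (2 * k + 1) (Xz z)) := by
    refine Chi_congr fun i hi => ?_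
    by_cases h : i < 2 * k + 1
    · rw [if_pos h, Function.update_of_ne (by omega)]
    · rw [if_neg h]
      obtain rfl : i = 2 * k + 1 := by omega
      rw [Function.update_self]
  rw [hchi]
  simp only [prod_const, card_range] at hAB
  set A := (AP (2 * k + 1) (fun _ => (2 : ℂ))).eval (cz z) with hA
  set B := (BP (2 * k + 1) (fun _ => (2 : ℂ))).eval (cz z) with hB
  set B1 := (BP (2 * m + 1) (fun _ => (2 : ℂ))).eval (cz z)
  set B2 := (BP (2 * (m + k) + 3) (fun _ => (2 : ℂ))).eval (cz z)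
  set Ch := Chi (2 * k + 1 + 1) (Function.update (fun _ => (2 : ℂ)) (2 * k + 1) (Xz z))
  have hq : qq (Xz z) 2 = (Xz z + 1) ^ 2 := by unfold qq; ring
  have hD : 4 * (1 - muz z ^ 2) = -((Xz z - 2) * (Xz z + 1) ^ 2) := by unfold muz Xz; ring
  have hmu : muz z = z * (Xz z - 1) := by unfold muz Xz; ring
  rw [hq, hD, ← hAB, hmu]
  generalize Xz z = X at *
  have ha' : X - 2 ≠ 0 := ha
  have hb' : X + 1 ≠ 0 := hb
  have e1 : (-((X - 2) * (X + 1) ^ 2)) ^ (2 * (m + k) + 2) =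
      (X - 2) ^ (2 * m + 1) * (X - 2) ^ (2 * k + 1) * (((X + 1) ^ 2) ^ (2 * k + 1) * ((X + 1) ^ 2) ^ (2 * m + 1)) := by
    rw [neg_pow, show 2 * (m + k) + 2 = 2 * (m + k + 1) by ring, pow_mul (-1 : ℂ)]
    norm_num
    rw [mul_pow]
    ring
  rw [e1, div_eq_div_iff]
  · have : X - -1 = X + 1 := by ring
    rw [this]
    ring
  · refine mul_ne_zero (mul_ne_zero (mul_ne_zero ?_ (pow_ne_zero _ (pow_ne_zero _ hb')))
      (pow_ne_zero _ (pow_ne_zero _ hb'))) (pow_ne_zero _ ha')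
    rw [sub_neg_eq_add]
    exact hb'
  · exact mul_ne_zero (mul_ne_zero (pow_ne_zero _ ha') (pow_ne_zero _ ha'))
      (mul_ne_zero (pow_ne_zero _ (pow_ne_zero _ hb')) (pow_ne_zero _ (pow_ne_zero _ hb')))

/-! ### continuity of the integrand -/

/-- the path -/
def contb (ε : ℝ) (j : ℕ) : ℝ := ε * (j + 1)

/-- the denominator of the integrand -/
noncomputable def contD (m k : ℕ) (b : ℕ → ℝ) (z : ℂ) : ℂ :=
  ((Xz z - ((2 * Real.cos (2 * b (2 * m + 1) + 2 * π / 3) : ℝ) : ℂ)) *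
      (∏ i ∈ range (2 * k + 1), qq (Xz z) ((xx b (2 * m + 2 + i) : ℝ) : ℂ)) *
      (∏ i ∈ range (2 * m + 1), qq (Xz z) ((xx b i : ℝ) : ℂ)) * ∏ i ∈ range (2 * m + 1), (Xz z - ((xx b i : ℝ) : ℂ)))

/-- the numerator of the integrand -/
noncomputable def contN (m k : ℕ) (b : ℕ → ℝ) (z : ℂ) : ℂ :=
  (BP (2 * m + 1) (fun i => ((xx b i : ℝ) : ℂ))).eval (cz z) * (BP (2 * (m + k) + 3) (fun i => ((xx b i : ℝ) : ℂ))).eval (cz z) *
    Chi (2 * k + 2) (fun i => if i < 2 * k + 1 then ((xx b (2 * m + 2 + i) : ℝ) : ℂ) else Xz z) * (3 * Xz z ^ 2 - 3) * (8 * z)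

theorem cont_GG (m k : ℕ) (b : ℕ → ℝ) (z : ℂ) : GG m k b z = contN m k b z / contD m k b z := rfl

theorem cont_xx (i : ℕ) : Continuous (fun p : ℝ × ℂ => ((xx (contb p.1) i : ℝ) : ℂ)) := by
  unfold xx contb
  exact Complex.continuous_ofReal.comp (by fun_prop)

theorem cont_Xz : Continuous Xz := by
  unfold Xz
  fun_prop

theorem cont_cz : Continuous cz := by
  unfold cz muz
  fun_prop

theorem contD_cont (m k : ℕ) : Continuous (fun p : ℝ × ℂ => contD m k (contb p.1) p.2) := by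
  unfold contD
  have h1 : Continuous (fun p : ℝ × ℂ => Xz p.2) := cont_Xz.comp continuous_snd
  have h2 : Continuous (fun p : ℝ × ℂ => ((2 * Real.cos (2 * contb p.1 (2 * m + 1) + 2 * π / 3) : ℝ) : ℂ)) := by
    unfold contb
    exact Complex.continuous_ofReal.comp (by fun_prop)
  have hq : ∀ i, Continuous (fun p : ℝ × ℂ => qq (Xz p.2) ((xx (contb p.1) i : ℝ) : ℂ)) := by
    intro i
    unfold qq
    have := cont_xx i
    exact (((h1.pow 2).add (h1.mul this)).add (this.pow 2)).sub continuous_const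
  refine (((h1.sub h2).mul (continuous_finsetProd _ fun i _ => hq _)).mul
    (continuous_finsetProd _ fun i _ => hq _)).mul (continuous_finsetProd _ fun i _ => ?_)
  exact h1.sub (cont_xx i)

theorem cont_BP (r : ℕ) : Continuous (fun p : ℝ × ℂ =>
    (BP r (fun i => ((xx (contb p.1) i : ℝ) : ℂ))).eval (cz p.2)) := by
  unfold BP
  simp only [Polynomial.eval_finsetSum, Polynomial.eval_mul, Polynomial.eval_C, Polynomial.eval_pow,
    Polynomial.eval_X]
  refine continuous_finsetSum _ fun j _ => ?_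
  refine Continuous.mul ?_ ((cont_cz.comp continuous_snd).pow _)
  exact (ka_continuous_complex r j).comp (continuous_pi fun i => cont_xx i)

theorem contN_cont (m k : ℕ) : Continuous (fun p : ℝ × ℂ => contN m k (contb p.1) p.2) := by
  unfold contN
  have h1 : Continuous (fun p : ℝ × ℂ => Xz p.2) := cont_Xz.comp continuous_snd
  have h2 : Continuous (fun p : ℝ × ℂ => 3 * Xz p.2 ^ 2 - 3) := by
    unfold Xz
    fun_prop
  have h3 : Continuous (fun p : ℝ × ℂ => 8 * p.2) := by fun_prop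
  have h4 : Continuous (fun p : ℝ × ℂ => Chi (2 * k + 2)
      (fun i => if i < 2 * k + 1 then ((xx (contb p.1) (2 * m + 2 + i) : ℝ) : ℂ) else Xz p.2)) := by
    have h5 : Continuous (fun p : ℝ × ℂ => (fun i : ℕ =>
        if i < 2 * k + 1 then ((xx (contb p.1) (2 * m + 2 + i) : ℝ) : ℂ) else Xz p.2)) := by
      refine continuous_pi fun i => ?_
      by_cases h : i < 2 * k + 1
      · simp only [if_pos h]
        exact cont_xx _
      · simp only [if_neg h]
        exact h1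
    exact (Chi_continuous_complex (2 * k + 2)).comp h5
  exact ((((cont_BP _).mul (cont_BP _)).mul h4).mul h2).mul h3

theorem contb_zero : contb 0 = fun _ => 0 := by
  funext j
  unfold contb
  ring

theorem contD_ne (m k : ℕ) {z : ℂ} (hz : z ∈ Metric.sphere (1 : ℂ) (1 / 10)) :
    contD m k (contb 0) z ≠ 0 := by
  have hz' : ‖z - 1‖ = 1 / 10 := by
    rw [← dist_eq_norm]
    exact hz
  obtain ⟨ha, hb⟩ := cont_ne hz'
  rw [contb_zero]
  unfold contD
  simp only [cont_xx_zero, prod_const, card_range]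
  rw [cont_cos]
  have hq : qq (Xz z) 2 = (Xz z + 1) ^ 2 := by unfold qq; ring
  rw [hq, sub_neg_eq_add]
  exact mul_ne_zero (mul_ne_zero (mul_ne_zero hb (pow_ne_zero _ (pow_ne_zero _ hb)))
      (pow_ne_zero _ (pow_ne_zero _ hb))) (pow_ne_zero _ ha)

theorem cont_tube {D : ℝ × ℂ → ℂ} (hD : Continuous D) {K : Set ℂ} (hK : IsCompact K)
    (h0 : ∀ z ∈ K, D (0, z) ≠ 0) : ∃ U : Set ℝ, IsOpen U ∧ (0 : ℝ) ∈ U ∧ ∀ ε ∈ U, ∀ z ∈ K, D (ε, z) ≠ 0 := by
  have ho : IsOpen {p : ℝ × ℂ | D p ≠ 0} := isOpen_ne.preimage hD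
  have hsub : ({0} : Set ℝ) ×ˢ K ⊆ {p : ℝ × ℂ | D p ≠ 0} := by
    rintro ⟨ε, z⟩ ⟨h1, h2⟩
    have h3 : ε = 0 := h1
    rw [h3]
    exact h0 z h2
  obtain ⟨u, v, hu, _, hu0, hv, huv⟩ := generalized_tube_lemma isCompact_singleton hK ho hsub
  exact ⟨u, hu, hu0 rfl, fun ε hε z hz => huv (Set.mk_mem_prod hε (hv hz))⟩

open Filter Topology in
theorem cont_integral {N D : ℝ × ℂ → ℂ} (hN : Continuous N) (hD : Continuous D) {c : ℂ} {R : ℝ} (hR : 0 ≤ R)
    (h0 : ∀ z ∈ Metric.sphere c R, D (0, z) ≠ 0) :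
    Tendsto (fun ε : ℝ => ∮ z in C(c, R), N (ε, z) / D (ε, z)) (𝓝 0)
      (𝓝 (∮ z in C(c, R), N (0, z) / D (0, z))) := by
  obtain ⟨U, hU, h0, hne⟩ := cont_tube hD (isCompact_sphere c R) h0
  have hc : Continuous (fun ε : U => ∮ z in C(c, R), N ((ε : ℝ), z) / D ((ε : ℝ), z)) := by
    unfold circleIntegral
    refine intervalIntegral.continuous_parametric_intervalIntegral_of_continuous' ?_ _ _
    have h1 : Continuous (fun p : U × ℝ => deriv (circleMap c R) p.2) := by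
      have : (fun p : U × ℝ => deriv (circleMap c R) p.2) =
          fun p : U × ℝ => circleMap 0 R p.2 * Complex.I := by
        funext p
        exact deriv_circleMap c R p.2
      rw [this]
      exact ((continuous_circleMap 0 R).comp continuous_snd).mul continuous_const
    have h2 : Continuous (fun p : U × ℝ => (((p.1 : ℝ), circleMap c R p.2) : ℝ × ℂ)) :=
      (continuous_subtype_val.comp continuous_fst).prodMk
        ((continuous_circleMap c R).comp continuous_snd)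
    have h3 : Continuous (fun p : U × ℝ => N ((p.1 : ℝ), circleMap c R p.2) / D ((p.1 : ℝ), circleMap c R p.2)) := by
      refine Continuous.div (hN.comp h2) (hD.comp h2) ?_
      rintro ⟨ε, θ⟩
      exact hne ε.1 ε.2 _ (circleMap_mem_sphere c hR θ)
    exact h1.smul h3
  have h4 : ContinuousOn (fun ε : ℝ => ∮ z in C(c, R), N (ε, z) / D (ε, z)) U :=
    continuousOn_iff_continuous_domRestrict.2 hc
  exact h4.continuousAt (hU.mem_nhds h0)

open Filter Topology in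
theorem GG_tendsto (m k : ℕ) : Tendsto (fun ε : ℝ => ∮ z in C(1, 1 / 10), GG m k (fun j => ε * (j + 1)) z) (𝓝[>] 0)
    (𝓝 (∮ z in C(1, 1 / 10), GG m k (fun _ => 0) z)) := by
  have h3 := cont_integral (c := 1) (R := 1 / 10) (contN_cont m k) (contD_cont m k) (by norm_num)
    (fun z hz => contD_ne m k hz)
  simp only [← cont_GG] at h3
  rw [contb_zero] at h3
  exact h3.mono_left nhdsWithin_le_nhds

open Filter Topology in
theorem SS_contour (m k : ℕ) :
    ((4 ^ ((m + k + 1) ^ 2 + m ^ 2 + k ^ 2) * SS m k (fun _ => 0) : ℝ) : ℂ) =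
      (2 * π * Complex.I : ℂ)⁻¹ * ∮ z in C(1, 1 / 10), FF m k z := by
  have hF : (∮ z in C(1, 1 / 10), FF m k z) = ∮ z in C(1, 1 / 10), GG m k (fun _ => 0) z := by
    refine circleIntegral.integral_congr (by norm_num) fun z hz => ?_
    refine (GG_zero m k ?_).symm
    rw [← dist_eq_norm]
    exact hz
  rw [hF]
  have hlim1 : Tendsto (fun ε : ℝ => (2 * π * Complex.I : ℂ)⁻¹ *
      ∮ z in C(1, 1 / 10), GG m k (fun j => ε * (j + 1)) z) (𝓝[>] 0)
      (𝓝 ((2 * π * Complex.I : ℂ)⁻¹ * ∮ z in C(1, 1 / 10), GG m k (fun _ => 0) z)) :=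
    (GG_tendsto m k).const_mul _
  have hlim2 : Tendsto (fun ε : ℝ => ((4 ^ ((m + k + 1) ^ 2 + m ^ 2 + k ^ 2) * SS m k (contb ε) : ℝ) : ℂ))
      (𝓝[>] 0) (𝓝 ((4 ^ ((m + k + 1) ^ 2 + m ^ 2 + k ^ 2) * SS m k (fun _ => 0) : ℝ) : ℂ)) := by
    have h : Continuous (fun ε : ℝ => ((4 ^ ((m + k + 1) ^ 2 + m ^ 2 + k ^ 2) * SS m k (contb ε) : ℝ) : ℂ)) := by
      refine Complex.continuous_ofReal.comp (continuous_const.mul ((SS_continuous m k).comp ?_))
      refine continuous_pi fun j => ?_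
      unfold contb
      fun_prop
    have h' := (h.tendsto 0).mono_left (nhdsWithin_le_nhds (s := Set.Ioi (0 : ℝ)))
    rwa [contb_zero] at h'
  refine tendsto_nhds_unique (hlim2.congr' ?_) hlim1
  have hpos : (0 : ℝ) < 1 / (100 * (2 * (m + k) + 4)) := by positivity
  filter_upwards [Ioo_mem_nhdsGT hpos] with ε hε
  obtain ⟨he0, he1⟩ := hε
  have hN : (0 : ℝ) < 100 * (2 * (m + k) + 4) := by positivity
  rw [lt_div_iff₀ hN] at he1
  have hb : ∀ j, j < 2 * (m + k) + 3 → |contb ε j| < 1 / 100 := by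
    intro j hj
    unfold contb
    rw [abs_of_pos (by positivity)]
    have hj' : (j : ℝ) + 1 ≤ 2 * (m + k) + 3 := by exact_mod_cast hj
    nlinarith
  have hd : ∀ i ≤ 2 * m, ∀ j ≤ 2 * m, i ≠ j → xx (contb ε) i ≠ xx (contb ε) j := by
    intro i hi j hj hij h
    unfold xx at h
    have h1 : ∀ l ≤ 2 * m, 2 * contb ε l ∈ Set.Icc 0 π := by
      intro l hl
      have h2 := hb l (by omega)
      rw [abs_lt] at h2
      have h3 : 0 ≤ contb ε l := by unfold contb; positivity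
      constructor
      · linarith
      · have := Real.pi_gt_three
        linarith [h2.2]
    have h2 := Real.injOn_cos (h1 i hi) (h1 j hj) (by linarith)
    unfold contb at h2
    have h3 : (ε : ℝ) * (((i : ℝ) + 1) - (j + 1)) = 0 := by linarith
    rcases mul_eq_zero.1 h3 with h4 | h4
    · linarith
    · apply hij
      have : (i : ℝ) = j := by linarith
      exact_mod_cast this
  have hVV : VV (2 * m + 1) (xx (contb ε)) ≠ 0 := by
    rw [VV_ne_zero]
    intro j hj i hi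
    exact hd i (by omega) j (by omega) (by omega)
  have hA := AA_contour m k hb hd
  rw [← SS_main] at hA
  have hV' : ((VV (2 * m + 1) (xx (contb ε)) : ℝ) : ℂ) ≠ 0 := by
    exact_mod_cast hVV
  have e : ((4 ^ ((m + k + 1) ^ 2 + m ^ 2 + k ^ 2) * SS m k (contb ε) * VV (2 * m + 1) (xx (contb ε)) : ℝ) : ℂ) =
      ((VV (2 * m + 1) (xx (contb ε)) : ℝ) : ℂ) *
        ((4 ^ ((m + k + 1) ^ 2 + m ^ 2 + k ^ 2) * SS m k (contb ε) : ℝ) : ℂ) := by
    push_cast
    ring
  rw [e] at hA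
  exact mul_left_cancel₀ hV' hA
end IP.Slit
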