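import Mathlib
/-! Lagrange interpolation and the Cauchy formula: a contour integral with several simple poles. -/
namespace IP.Slit
open Finset Real

theorem lag_partial {n : ℕ} (hn : 1 ≤ n) {z : ℕ → ℂ} (hd : ∀ i < n, ∀ j < n, i ≠ j → z i ≠ z j) {w : ℂ}
    (hw : ∀ i < n, w ≠ z i) :
    (∏ i ∈ range n, (w - z i))⁻¹ = ∑ j ∈ range n, (∏ i ∈ (range n).erase j, (z j - z i))⁻¹ * (w - z j)⁻¹ := by
  have hvs : Set.InjOn z (range n : Finset ℕ) := by
    intro i hi j hj h
    by_contra hij
    exact hd i (mem_range.1 (mem_coe.1 hi)) j (mem_range.1 (mem_coe.1 hj)) hij h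
  have hs : (range n).Nonempty := ⟨0, mem_range.2 (by omega)⟩
  have h := Lagrange.eval_interpolate_not_at_node (s := range n) (v := z) (x := w) (fun _ => (1 : ℂ))
    (fun i hi => hw i (mem_range.1 hi))
  have h1 : Lagrange.interpolate (range n) z (fun _ => (1 : ℂ)) = 1 := Lagrange.interpolate_one hvs hs
  rw [h1, Polynomial.eval_one, Lagrange.eval_nodal] at h
  have h2 : (∏ i ∈ range n, (w - z i)) ≠ 0 :=
    prod_ne_zero_iff.2 fun i hi => sub_ne_zero.2 (hw i (mem_range.1 hi))
  have h3 : (∏ i ∈ range n, (w - z i))⁻¹ =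
      ∑ i ∈ range n, Lagrange.nodalWeight (range n) z i * (w - z i)⁻¹ * 1 := by
    rw [inv_eq_iff_eq_inv, eq_comm]
    exact inv_eq_of_mul_eq_one_left h.symm
  rw [h3]
  refine sum_congr rfl fun j _ => ?_
  rw [Lagrange.nodalWeight, prod_inv_distrib, mul_one]

theorem lag_cauchy {n : ℕ} {c : ℂ} {R : ℝ} (hR : 0 < R) {z : ℕ → ℂ} (hz : ∀ i < n, z i ∈ Metric.ball c R)
    (hd : ∀ i < n, ∀ j < n, i ≠ j → z i ≠ z j) {G : ℂ → ℂ} (hG : DifferentiableOn ℂ G (Metric.closedBall c R)) (hn : 1 ≤ n) :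
    (2 * π * Complex.I : ℂ)⁻¹ * (∮ w in C(c, R), G w / ∏ i ∈ range n, (w - z i)) =
      ∑ j ∈ range n, G (z j) / ∏ i ∈ (range n).erase j, (z j - z i) := by
  have hne : ∀ w ∈ Metric.sphere c R, ∀ i < n, w ≠ z i := by
    intro w hw i hi h
    have h1 := hz i hi
    rw [← h, Metric.mem_ball] at h1
    rw [Metric.mem_sphere] at hw
    linarith
  have hc : ContinuousOn G (Metric.sphere c R) := hG.continuousOn.mono Metric.sphere_subset_closedBall
  have h1 : (∮ w in C(c, R), G w / ∏ i ∈ range n, (w - z i)) =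
      ∮ w in C(c, R), ∑ j ∈ range n, (∏ i ∈ (range n).erase j, (z j - z i))⁻¹ * ((w - z j)⁻¹ • G w) := by
    refine circleIntegral.integral_congr hR.le fun w hw => ?_
    show G w / ∏ i ∈ range n, (w - z i) = _
    rw [div_eq_mul_inv, lag_partial hn hd (hne w hw), mul_sum]
    refine sum_congr rfl fun j _ => ?_
    rw [smul_eq_mul]
    ring
  rw [h1, circleIntegral.integral_fun_sum, mul_sum]
  · refine sum_congr rfl fun j hj => ?_
    rw [circleIntegral.integral_const_mul, hG.circleIntegral_sub_inv_smul (hz j (mem_range.1 hj)), smul_eq_mul]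
    have h2 : (2 * π * Complex.I : ℂ) ≠ 0 := Complex.two_pi_I_ne_zero
    field_simp
  · intro j hj
    apply ContinuousOn.circleIntegrable hR.le
    have h3 : ContinuousOn (fun w : ℂ => (w - z j)⁻¹) (Metric.sphere c R) := by
      refine ContinuousOn.inv₀ (continuous_id.sub continuous_const).continuousOn ?_
      intro w hw
      exact sub_ne_zero.2 (hne w hw j (mem_range.1 hj))
    exact continuousOn_const.mul (h3.smul hc)

end IP.Slit
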