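import Pool.Agent.Helper60.Slit.Wheel
import Pool.Agent.Helper60.Slit.Lag
/-! MODULE CONT-A (`lag_cauchy`, `AA_contour`): the homogeneous limit as a contour integral in the variable `ξ` (`X = 4ξ^2-2`), circle `|ξ-1| = 1/10`.
In the closed disc: `μ = ξ(4ξ^2-3) ≠ 0`, `X ≠ 1, -1`, only zero of `1-μ^2 = (1-ξ^2)(4ξ^2-1)^2` is `ξ = 1`.
For `b` small with distinct `cos b_i` (`i ≤ 2m`), `ξ_i = cos b_i`, `x_i = Xz ξ_i`: by `BP_eval`, `Chi_mul`
`AA / VV = Σ_j G(x_j) / ∏_{i≠j} (x_j - x_i)`, where with `c = X^3-3X`, `t''' = 2cos(2b_t + 2π/3)`, `(X-t'')(X-t''') = qq X t`,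
`G(X) = BP(2m+1)(x)(c) * BP(2n+1)(all)(c) * Chi(2k+2)(y,X) * (3X^2-3) / ((X-t''') * ∏_{i∈y} qq(X,x_i) * ∏_{i ≤ 2m} qq(X,x_i))`
(`qq(x,x) = 3x^2-3`), so by `lag_cauchy` with `x_j - x_i = 4(ξ_j-ξ_i)(ξ_j+ξ_i)` it is `(2πi)⁻¹ ∮ G(X(ξ)) 8ξ / ∏_{i≤2m} (X(ξ)-x_i) dξ`.
Take `b → 0` (continuity of the integrand, uniformly on the circle: `intervalIntegral.continuous_parametric...` or
`tendsto` with dominated convergence), then `Chi(2k+2)(2,..,2,X) (X-2)^q = A + B X` (`AB_eval`), `(X-2)(X+1)^2 = c-2 = -4(1-μ^2)`. -/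
namespace IP.Slit
open IP Finset Real

theorem contA_skip_lt {r j i : ℕ} (h : i < r) : skip j i < r + 1 := by
  unfold skip
  split_ifs <;> omega

/-- the Vandermonde product without the argument `j` -/
theorem contA_VV (r : ℕ) (x : ℕ → ℝ) : ∀ j < r + 1,
    VV (r + 1) x = (-1) ^ (r - j) * VV r (fun i => x (skip j i)) * ∏ i ∈ (range (r + 1)).erase j, (x j - x i) := by
  induction r with
  | zero =>
    intro j hj
    obtain rfl : j = 0 := by omega
    simp [VV]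
  | succ r ih =>
    intro j hj
    have hV : VV (r + 1 + 1) x = VV (r + 1) x * ∏ i ∈ range (r + 1), (x (r + 1) - x i) := by
      unfold VV
      rw [prod_range_succ]
    rcases Nat.lt_or_ge j (r + 1) with h | h
    · have hV2 : VV (r + 1) (fun i => x (skip j i)) =
          VV r (fun i => x (skip j i)) * ∏ i ∈ range r, (x (r + 1) - x (skip j i)) := by
        have : skip j r = r + 1 := by
          unfold skip
          rw [if_neg (by omega)]
        unfold VV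
        rw [prod_range_succ]
        simp only [this]
      have h1 : ∏ i ∈ range (r + 1), (x (r + 1) - x i) =
          (x (r + 1) - x j) * ∏ i ∈ range r, (x (r + 1) - x (skip j i)) := by
        rw [← mul_prod_erase _ _ (mem_range.2 h), wh_prod_skip h]
      have h2 : (range (r + 1 + 1)).erase j = insert (r + 1) ((range (r + 1)).erase j) := by
        ext i
        simp only [mem_erase, mem_range, mem_insert]
        omega
      have h3 : ∏ i ∈ (range (r + 1 + 1)).erase j, (x j - x i) =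
          (x j - x (r + 1)) * ∏ i ∈ (range (r + 1)).erase j, (x j - x i) := by
        rw [h2, prod_insert (by simp)]
      have h4 : r + 1 - j = (r - j) + 1 := by omega
      rw [hV, ih j h, h1, hV2, h3, h4, pow_succ]
      ring
    · obtain rfl : j = r + 1 := by omega
      have h1 : VV (r + 1) (fun i => x (skip (r + 1) i)) = VV (r + 1) x := by
        refine VV_congr fun i hi => ?_
        unfold skip
        rw [if_pos hi]
      have h2 : (range (r + 1 + 1)).erase (r + 1) = range (r + 1) := by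
        ext i
        simp only [mem_erase, mem_range]
        omega
      rw [hV, h1, h2, Nat.sub_self, pow_zero, one_mul]

/-- the terms of the sum -/
noncomputable def contA_T (m k : ℕ) (u : ℝ) (x : ℕ → ℝ) (j : ℕ) : ℝ :=
  (x j - u) * (∏ i ∈ (range (2 * m + 1)).erase j, qq (x j) (x i)) * Chi (2 * m) (fun i => x (skip j i)) *
    Chi (2 * k + 2) (yj m k j x) * Chi (2 * (m + k + 1)) (fun i => x (skip j i))

theorem contA_AA (m k : ℕ) (u : ℝ) (x : ℕ → ℝ) (hd : ∀ i ≤ 2 * m, ∀ j ≤ 2 * m, i ≠ j → x i ≠ x j) :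
    AA m k u x = VV (2 * m + 1) x * ∑ j ∈ range (2 * m + 1), contA_T m k u x j /
      ∏ i ∈ (range (2 * m + 1)).erase j, (x j - x i) := by
  unfold AA
  rw [mul_sum]
  refine sum_congr rfl fun j hj => ?_
  have hj' : j < 2 * m + 1 := mem_range.1 hj
  have hne : ∏ i ∈ (range (2 * m + 1)).erase j, (x j - x i) ≠ 0 := by
    refine prod_ne_zero_iff.2 fun i hi => ?_
    rw [mem_erase, mem_range] at hi
    exact sub_ne_zero.2 (hd j (by omega) i (by omega) (Ne.symm hi.1))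
  have hsgn : ((-1 : ℝ)) ^ (2 * m - j) = (-1) ^ j := by
    have h1 : ((-1 : ℝ)) ^ (2 * m - j) * (-1) ^ j = 1 := by
      rw [← pow_add, Nat.sub_add_cancel (by omega), pow_mul]
      norm_num
    have h2 : ((-1 : ℝ)) ^ j * (-1) ^ j = 1 := by
      rw [← pow_add, ← two_mul, pow_mul]
      norm_num
    have h3 : ((-1 : ℝ)) ^ j ≠ 0 := pow_ne_zero _ (by norm_num)
    exact mul_right_cancel₀ h3 (h1.trans h2.symm)
  rw [contA_VV (2 * m) x j hj', hsgn, ← Chi_mul, contA_T, mul_div_assoc', eq_div_iff hne]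
  ring

theorem contA_cz (z : ℂ) : Xz z ^ 3 - 3 * Xz z = cz z := by
  unfold Xz cz muz
  ring

theorem contA_Xz_cos (b : ℝ) : Xz ((Real.cos b : ℝ) : ℂ) = ((2 * Real.cos (2 * b) : ℝ) : ℂ) := by
  unfold Xz
  rw [Real.cos_two_mul]
  push_cast
  ring

theorem contA_qq_t (x t : ℝ) : qq x (2 * Real.cos (2 * t)) =
    (x - 2 * Real.cos (2 * t - 2 * π / 3)) * (x - 2 * Real.cos (2 * t + 2 * π / 3)) := by
  have h1 : Real.cos (2 * π / 3) = -1 / 2 := by
    rw [show 2 * π / 3 = π - π / 3 by ring, Real.cos_pi_sub, Real.cos_pi_div_three]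
    norm_num
  have h2 : Real.sin (2 * π / 3) ^ 2 = 3 / 4 := by
    have := Real.sin_sq_add_cos_sq (2 * π / 3)
    rw [h1] at this
    linarith
  have h3 := Real.sin_sq_add_cos_sq (2 * t)
  unfold qq
  rw [Real.cos_sub, Real.cos_add, h1]
  linear_combination (4 * Real.sin (2 * t) ^ 2) * h2 + 3 * h3

theorem contA_norm {z : ℂ} (hz : z ∈ Metric.closedBall (1 : ℂ) (1 / 10)) : ‖Xz z - 2‖ ≤ 84 / 100 := by
  rw [Metric.mem_closedBall, dist_eq_norm] at hz
  have h : Xz z - 2 = 8 * (z - 1) + 4 * (z - 1) ^ 2 := by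
    unfold Xz
    ring
  rw [h]
  calc ‖8 * (z - 1) + 4 * (z - 1) ^ 2‖ ≤ ‖8 * (z - 1)‖ + ‖4 * (z - 1) ^ 2‖ := norm_add_le _ _
    _ = 8 * ‖z - 1‖ + 4 * ‖z - 1‖ ^ 2 := by
      rw [norm_mul, norm_mul, norm_pow]
      norm_num
    _ ≤ 84 / 100 := by nlinarith [norm_nonneg (z - 1)]

/-- the three factors in the denominator do not vanish -/
theorem contA_ne1 {z : ℂ} (hz : z ∈ Metric.closedBall (1 : ℂ) (1 / 10)) {t : ℝ} (ht : |t| < 1 / 100) :
    Xz z - ((2 * Real.cos (2 * t + 2 * π / 3) : ℝ) : ℂ) ≠ 0 := by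
  intro h
  have h1 := contA_norm hz
  have h2 : Real.cos (2 * t + 2 * π / 3) ≤ 0 := by
    have hpi := Real.pi_gt_three
    have hpi2 := Real.pi_lt_four
    have ht' := abs_lt.1 ht
    apply Real.cos_nonpos_of_pi_div_two_le_of_le <;> linarith [ht'.1, ht'.2]
  have h3 : Xz z = ((2 * Real.cos (2 * t + 2 * π / 3) : ℝ) : ℂ) := sub_eq_zero.1 h
  rw [h3] at h1
  have h4 : ‖((2 * Real.cos (2 * t + 2 * π / 3) : ℝ) : ℂ) - 2‖ = |2 * Real.cos (2 * t + 2 * π / 3) - 2| := by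
    have h5 : ((2 * Real.cos (2 * t + 2 * π / 3) : ℝ) : ℂ) - 2 =
        ((2 * Real.cos (2 * t + 2 * π / 3) - 2 : ℝ) : ℂ) := by push_cast; ring
    rw [h5, Complex.norm_real, Real.norm_eq_abs]
  rw [h4, abs_le] at h1
  linarith [h1.1]

theorem contA_cos_near {t : ℝ} (ht : |t| < 1 / 100) : |2 * Real.cos (2 * t) - 2| ≤ 1 / 1000 := by
  have h1 := Real.one_sub_sq_div_two_le_cos (x := 2 * t)
  have h2 := Real.cos_le_one (2 * t)
  have h3 : t ^ 2 < (1 / 100) ^ 2 := by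
    rw [← sq_abs]
    exact pow_lt_pow_left₀ ht (abs_nonneg t) two_ne_zero
  rw [abs_le]
  constructor
  · nlinarith
  · linarith

theorem contA_ne2 {z : ℂ} (hz : z ∈ Metric.closedBall (1 : ℂ) (1 / 10)) {t : ℝ} (ht : |t| < 1 / 100) :
    qq (Xz z) ((2 * Real.cos (2 * t) : ℝ) : ℂ) ≠ 0 := by
  intro h
  have h1 := contA_norm hz
  have h2 := contA_cos_near ht
  set e : ℂ := Xz z - 2 with he
  set d : ℂ := ((2 * Real.cos (2 * t) - 2 : ℝ) : ℂ) with hd
  have hd' : ‖d‖ ≤ 1 / 1000 := by rw [hd, Complex.norm_real]; exact h2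
  have h3 : (9 : ℂ) = -(6 * e + e ^ 2 + 6 * d + e * d + d ^ 2) := by
    have h4 : qq (Xz z) ((2 * Real.cos (2 * t) : ℝ) : ℂ) = 9 + 6 * e + e ^ 2 + 6 * d + e * d + d ^ 2 := by
      rw [he, hd]
      unfold qq
      push_cast
      ring
    rw [h4] at h
    linear_combination h
  have h5 : ‖(9 : ℂ)‖ ≤ 6 * ‖e‖ + ‖e‖ ^ 2 + 6 * ‖d‖ + ‖e‖ * ‖d‖ + ‖d‖ ^ 2 := by
    rw [h3, norm_neg]
    calc ‖6 * e + e ^ 2 + 6 * d + e * d + d ^ 2‖ ≤ ‖6 * e + e ^ 2 + 6 * d + e * d‖ + ‖d ^ 2‖ := norm_add_le _ _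
      _ ≤ (‖6 * e + e ^ 2 + 6 * d‖ + ‖e * d‖) + ‖d ^ 2‖ := by gcongr; exact norm_add_le _ _
      _ ≤ ((‖6 * e + e ^ 2‖ + ‖6 * d‖) + ‖e * d‖) + ‖d ^ 2‖ := by gcongr; exact norm_add_le _ _
      _ ≤ (((‖6 * e‖ + ‖e ^ 2‖) + ‖6 * d‖) + ‖e * d‖) + ‖d ^ 2‖ := by gcongr; exact norm_add_le _ _
      _ = _ := by rw [norm_mul, norm_mul, norm_mul, norm_pow, norm_pow]; norm_num
  have h6 : ‖(9 : ℂ)‖ = 9 := by norm_num
  rw [h6] at h5
  have h7 := norm_nonneg e
  have h8 := norm_nonneg d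
  nlinarith

theorem contA_ne3 {z : ℂ} (hz : z ∈ Metric.closedBall (1 : ℂ) (1 / 10)) {t : ℝ} (ht : |t| < 1 / 100) :
    z + ((Real.cos t : ℝ) : ℂ) ≠ 0 := by
  intro h
  rw [Metric.mem_closedBall, dist_eq_norm] at hz
  have h2 : 0 ≤ Real.cos t := by
    have ht' := abs_lt.1 ht
    apply Real.cos_nonneg_of_neg_pi_div_two_le_of_le <;> linarith [ht'.1, ht'.2, Real.pi_gt_three]
  have h3 := congrArg Complex.re h
  rw [Complex.add_re, Complex.ofReal_re, Complex.zero_re] at h3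
  have h4 := Complex.abs_re_le_norm (z - 1)
  rw [Complex.sub_re, Complex.one_re] at h4
  have h5 := (abs_le.1 (h4.trans hz)).1
  linarith

theorem contA_node {t : ℝ} (ht : |t| < 1 / 100) : ((Real.cos t : ℝ) : ℂ) ∈ Metric.ball (1 : ℂ) (1 / 10) := by
  rw [Metric.mem_ball, dist_eq_norm]
  have h : ((Real.cos t : ℝ) : ℂ) - 1 = ((Real.cos t - 1 : ℝ) : ℂ) := by push_cast; ring
  rw [h, Complex.norm_real]
  have h1 := Real.one_sub_sq_div_two_le_cos (x := t)
  have h2 := Real.cos_le_one t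
  have h3 : t ^ 2 < (1 / 100) ^ 2 := by
    rw [← sq_abs]
    exact pow_lt_pow_left₀ ht (abs_nonneg t) two_ne_zero
  rw [Real.norm_eq_abs, abs_lt]
  constructor <;> nlinarith

/-- the integrand for general `b` -/
noncomputable def GG (m k : ℕ) (b : ℕ → ℝ) (z : ℂ) : ℂ :=
  (BP (2 * m + 1) (fun i => ((xx b i : ℝ) : ℂ))).eval (cz z) * (BP (2 * (m + k) + 3) (fun i => ((xx b i : ℝ) : ℂ))).eval (cz z) *
    Chi (2 * k + 2) (fun i => if i < 2 * k + 1 then ((xx b (2 * m + 2 + i) : ℝ) : ℂ) else Xz z) * (3 * Xz z ^ 2 - 3) * (8 * z) /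
    ((Xz z - ((2 * Real.cos (2 * b (2 * m + 1) + 2 * π / 3) : ℝ) : ℂ)) *
      (∏ i ∈ range (2 * k + 1), qq (Xz z) ((xx b (2 * m + 2 + i) : ℝ) : ℂ)) *
      (∏ i ∈ range (2 * m + 1), qq (Xz z) ((xx b i : ℝ) : ℂ)) * ∏ i ∈ range (2 * m + 1), (Xz z - ((xx b i : ℝ) : ℂ)))

/-- the integrand without the simple poles -/
noncomputable def contA_G (m k : ℕ) (b : ℕ → ℝ) (z : ℂ) : ℂ :=
  (BP (2 * m + 1) (fun i => ((xx b i : ℝ) : ℂ))).eval (cz z) * (BP (2 * (m + k) + 3) (fun i => ((xx b i : ℝ) : ℂ))).eval (cz z) *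
    Chi (2 * k + 2) (fun i => if i < 2 * k + 1 then ((xx b (2 * m + 2 + i) : ℝ) : ℂ) else Xz z) * (3 * Xz z ^ 2 - 3) * (8 * z) /
    ((Xz z - ((2 * Real.cos (2 * b (2 * m + 1) + 2 * π / 3) : ℝ) : ℂ)) *
      (∏ i ∈ range (2 * k + 1), qq (Xz z) ((xx b (2 * m + 2 + i) : ℝ) : ℂ)) *
      (∏ i ∈ range (2 * m + 1), qq (Xz z) ((xx b i : ℝ) : ℂ)) *
      ∏ i ∈ range (2 * m + 1), (4 * (z + ((Real.cos (b i) : ℝ) : ℂ))))

theorem contA_Xz_sub (z : ℂ) (b : ℕ → ℝ) (i : ℕ) : Xz z - ((xx b i : ℝ) : ℂ) =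
    (4 * (z + ((Real.cos (b i) : ℝ) : ℂ))) * (z - ((Real.cos (b i) : ℝ) : ℂ)) := by
  have h : ((xx b i : ℝ) : ℂ) = Xz ((Real.cos (b i) : ℝ) : ℂ) := (contA_Xz_cos (b i)).symm
  rw [h]
  unfold Xz
  ring

theorem contA_GG (m k : ℕ) (b : ℕ → ℝ) (z : ℂ) : GG m k b z =
    contA_G m k b z / ∏ i ∈ range (2 * m + 1), (z - ((Real.cos (b i) : ℝ) : ℂ)) := by
  unfold GG contA_G
  rw [div_div, prod_congr rfl (fun i _ => contA_Xz_sub z b i), prod_mul_distrib]
  simp only [mul_assoc]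

theorem contA_diff (m k : ℕ) {b : ℕ → ℝ} (hb : ∀ j, j < 2 * (m + k) + 3 → |b j| < 1 / 100) :
    DifferentiableOn ℂ (contA_G m k b) (Metric.closedBall 1 (1 / 10)) := by
  have hX : Differentiable ℂ Xz := by
    unfold Xz
    fun_prop
  have hc : Differentiable ℂ cz := by
    unfold cz muz
    fun_prop
  obtain ⟨P, -, hP⟩ := Chi_poly (K := ℂ) (r := 2 * k + 2) (i := 2 * k + 1) (by omega)
    (fun i => ((xx b (2 * m + 2 + i) : ℝ) : ℂ))
  have hChi : (fun z => Chi (2 * k + 2) (fun i => if i < 2 * k + 1 then ((xx b (2 * m + 2 + i) : ℝ) : ℂ) else Xz z)) =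
      fun z => P.eval (Xz z) := by
    funext z
    rw [← hP]
    refine Chi_congr fun i hi => ?_
    by_cases h : i < 2 * k + 1
    · rw [if_pos h, Function.update_of_ne (by omega)]
    · rw [if_neg h]
      obtain rfl : i = 2 * k + 1 := by omega
      rw [Function.update_self]
  have hqq : ∀ a : ℂ, Differentiable ℂ (fun z => qq (Xz z) a) := by
    intro a
    unfold qq
    fun_prop
  unfold contA_G
  refine DifferentiableOn.div ?_ ?_ ?_
  · apply Differentiable.differentiableOn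
    have h0 : ∀ P : Polynomial ℂ, Differentiable ℂ (fun z => P.eval (cz z)) := fun P =>
      (Polynomial.differentiable P).comp hc
    have h1 := h0 (BP (2 * m + 1) (fun i => ((xx b i : ℝ) : ℂ)))
    have h2 := h0 (BP (2 * (m + k) + 3) (fun i => ((xx b i : ℝ) : ℂ)))
    have h3 : Differentiable ℂ (fun z => Chi (2 * k + 2)
        (fun i => if i < 2 * k + 1 then ((xx b (2 * m + 2 + i) : ℝ) : ℂ) else Xz z)) := by
      rw [hChi]
      exact (Polynomial.differentiable _).comp hX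
    have h4 : Differentiable ℂ (fun z : ℂ => 3 * Xz z ^ 2 - 3) := by fun_prop
    have h5 : Differentiable ℂ (fun z : ℂ => 8 * z) := by fun_prop
    exact (((h1.mul h2).mul h3).mul h4).mul h5
  · apply Differentiable.differentiableOn
    have h1 : Differentiable ℂ (fun z => Xz z - ((2 * Real.cos (2 * b (2 * m + 1) + 2 * π / 3) : ℝ) : ℂ)) := by
      fun_prop
    have h2 : Differentiable ℂ (fun z => ∏ i ∈ range (2 * k + 1), qq (Xz z) ((xx b (2 * m + 2 + i) : ℝ) : ℂ)) :=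
      Differentiable.fun_finsetProd fun i _ => hqq _
    have h3 : Differentiable ℂ (fun z => ∏ i ∈ range (2 * m + 1), qq (Xz z) ((xx b i : ℝ) : ℂ)) :=
      Differentiable.fun_finsetProd fun i _ => hqq _
    have h4 : Differentiable ℂ (fun z => ∏ i ∈ range (2 * m + 1), (4 * (z + ((Real.cos (b i) : ℝ) : ℂ)))) :=
      Differentiable.fun_finsetProd fun i _ => by fun_prop
    exact ((h1.mul h2).mul h3).mul h4
  · intro z hz
    refine mul_ne_zero (mul_ne_zero (mul_ne_zero (contA_ne1 hz (hb _ (by omega))) ?_) ?_) ?_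
    · exact prod_ne_zero_iff.2 fun i hi => by
        have := mem_range.1 hi
        exact contA_ne2 hz (hb _ (by omega))
    · exact prod_ne_zero_iff.2 fun i hi => by
        have := mem_range.1 hi
        exact contA_ne2 hz (hb _ (by omega))
    · exact prod_ne_zero_iff.2 fun i hi => by
        have := mem_range.1 hi
        exact mul_ne_zero (by norm_num) (contA_ne3 hz (hb _ (by omega)))

theorem contA_alg {P C1 C2 Ch F Z A U Y Q4 Q5 : ℂ} (hA : A ≠ 0) (hF : F ≠ 0) (hZ : Z ≠ 0) (hP : P ≠ 0)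
    (hY : Y ≠ 0) (h4 : Q4 ≠ 0) (h5 : Q5 ≠ 0) :
    (P * C1) * (P * (U * A) * Y * C2) * Ch * F * Z / (A * Y * (F * P) * (Z * Q4) * Q5) =
      U * P * C1 * Ch * C2 / (Q4 * Q5) := by
  field_simp

theorem contA_term (m k : ℕ) {b : ℕ → ℝ} (hb : ∀ j, j < 2 * (m + k) + 3 → |b j| < 1 / 100)
    (hd : ∀ i ≤ 2 * m, ∀ j ≤ 2 * m, i ≠ j → xx b i ≠ xx b j) {j : ℕ} (hj : j < 2 * m + 1) :
    contA_G m k b ((Real.cos (b j) : ℝ) : ℂ) /
        ∏ i ∈ (range (2 * m + 1)).erase j, (((Real.cos (b j) : ℝ) : ℂ) - ((Real.cos (b i) : ℝ) : ℂ)) =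
      ((contA_T m k (xpp b (2 * m + 1)) (xx b) j /
        ∏ i ∈ (range (2 * m + 1)).erase j, (xx b j - xx b i) : ℝ) : ℂ) := by
  set x : ℕ → ℂ := fun i => ((xx b i : ℝ) : ℂ) with hx
  set ξ : ℂ := ((Real.cos (b j) : ℝ) : ℂ) with hξ
  have hball : ξ ∈ Metric.closedBall (1 : ℂ) (1 / 10) := Metric.ball_subset_closedBall (contA_node (hb j (by omega)))
  have hXj : Xz ξ = x j := contA_Xz_cos (b j)
  have hcj : cz ξ = x j ^ 3 - 3 * x j := by rw [← contA_cz, hXj]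
  -- nonvanishing
  have hq : ∀ i < 2 * (m + k) + 3, qq (x j) (x i) ≠ 0 := fun i hi => by
    rw [← hXj]; exact contA_ne2 hball (hb i hi)
  have h8 : ∀ i < 2 * (m + k) + 3, ξ + ((Real.cos (b i) : ℝ) : ℂ) ≠ 0 := fun i hi => contA_ne3 hball (hb i hi)
  have ht := contA_ne1 hball (hb (2 * m + 1) (by omega))
  rw [hXj] at ht
  have hne : ∏ i ∈ (range (2 * m + 1)).erase j, (x j - x i) ≠ 0 := by
    refine prod_ne_zero_iff.2 fun i hi => ?_
    rw [mem_erase, mem_range] at hi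
    refine sub_ne_zero.2 ?_
    rw [hx]
    exact fun h => hd j (by omega) i (by omega) (Ne.symm hi.1) (Complex.ofReal_injective h)
  -- the polynomials
  have e1 := BP_eval (r := 2 * m + 1) x hj
  have e2 := BP_eval (r := 2 * (m + k) + 3) x (show j < 2 * (m + k) + 3 by omega)
  have s1 : ((-1 : ℂ)) ^ (2 * m + 1 - 1) = 1 := by rw [Nat.add_sub_cancel, pow_mul]; norm_num
  have s2 : ((-1 : ℂ)) ^ (2 * (m + k) + 3 - 1) = 1 := by
    rw [show 2 * (m + k) + 3 - 1 = 2 * (m + k + 1) by omega, pow_mul]; norm_num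
  rw [s1, one_mul] at e1
  rw [s2, one_mul] at e2
  have hqj : qq (x j) (x j) = 3 * x j ^ 2 - 3 := by unfold qq; ring
  have hqj0 : (3 * x j ^ 2 - 3 : ℂ) ≠ 0 := by rw [← hqj]; exact hq j (by omega)
  have p1 : ∏ i ∈ range (2 * m + 1), qq (x j) (x i) =
      (3 * x j ^ 2 - 3) * ∏ i ∈ (range (2 * m + 1)).erase j, qq (x j) (x i) := by
    rw [← hqj, mul_prod_erase _ (fun i => qq (x j) (x i)) (mem_range.2 hj)]
  have p2 : ∏ i ∈ (range (2 * (m + k) + 3)).erase j, qq (x j) (x i) =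
      (∏ i ∈ (range (2 * m + 1)).erase j, qq (x j) (x i)) * qq (x j) (x (2 * m + 1)) *
        ∏ i ∈ range (2 * k + 1), qq (x j) (x (2 * m + 2 + i)) := by
    apply mul_left_cancel₀ hqj0
    rw [← hqj, mul_prod_erase _ (fun i => qq (x j) (x i)) (mem_range.2 (by omega)), hqj, ← mul_assoc, ← mul_assoc,
      ← p1, ← prod_range_succ, show 2 * (m + k) + 3 = (2 * m + 1 + 1) + (2 * k + 1) by ring, prod_range_add]
  have p3 : ∏ i ∈ range (2 * m + 1), (4 * (ξ + ((Real.cos (b i) : ℝ) : ℂ))) =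
      (8 * ξ) * ∏ i ∈ (range (2 * m + 1)).erase j, (4 * (ξ + ((Real.cos (b i) : ℝ) : ℂ))) := by
    rw [← mul_prod_erase _ _ (mem_range.2 hj)]
    congr 1
    rw [← hξ]; ring
  have p4 : (∏ i ∈ (range (2 * m + 1)).erase j, (4 * (ξ + ((Real.cos (b i) : ℝ) : ℂ)))) *
      ∏ i ∈ (range (2 * m + 1)).erase j, (ξ - ((Real.cos (b i) : ℝ) : ℂ)) =
      ∏ i ∈ (range (2 * m + 1)).erase j, (x j - x i) := by
    rw [← prod_mul_distrib]
    refine prod_congr rfl fun i _ => ?_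
    rw [← hXj, hx]
    exact (contA_Xz_sub ξ b i).symm
  have hqt : qq (x j) (x (2 * m + 1)) = (x j - ((xpp b (2 * m + 1) : ℝ) : ℂ)) *
      (x j - ((2 * Real.cos (2 * b (2 * m + 1) + 2 * π / 3) : ℝ) : ℂ)) := by
    have := contA_qq_t (xx b j) (b (2 * m + 1))
    have h2 := congrArg (fun r : ℝ => (r : ℂ)) this
    unfold qq at h2 ⊢
    rw [hx]
    unfold xx xpp
    unfold xx at h2
    push_cast at h2 ⊢
    exact h2
  have hCh : Chi (2 * k + 2) (fun i => if i < 2 * k + 1 then x (2 * m + 2 + i) else x j) =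
      ((Chi (2 * k + 2) (yj m k j (xx b)) : ℝ) : ℂ) := by
    rw [← Chi_ofReal]
    refine Chi_congr fun i _ => ?_
    unfold yj
    split_ifs <;> rfl
  have hS : (∏ i ∈ (range (2 * m + 1)).erase j, qq (x j) (x i)) ≠ 0 :=
    prod_ne_zero_iff.2 fun i hi => hq i (by have := mem_range.1 (mem_of_mem_erase hi); omega)
  have hY : (∏ i ∈ range (2 * k + 1), qq (x j) (x (2 * m + 2 + i))) ≠ 0 :=
    prod_ne_zero_iff.2 fun i hi => hq _ (by have := mem_range.1 hi; omega)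
  have h8' : (8 * ξ : ℂ) ≠ 0 := by
    have := h8 j (by omega)
    intro h
    apply this
    rw [← hξ]
    linear_combination h / 4
  have h4' : ∏ i ∈ (range (2 * m + 1)).erase j, (4 * (ξ + ((Real.cos (b i) : ℝ) : ℂ))) ≠ 0 :=
    prod_ne_zero_iff.2 fun i hi => mul_ne_zero (by norm_num)
      (h8 i (by have := mem_range.1 (mem_of_mem_erase hi); omega))
  unfold contA_G
  rw [div_div, hXj, hcj, p1, p3]
  change (BP (2 * m + 1) x).eval (x j ^ 3 - 3 * x j) * (BP (2 * (m + k) + 3) x).eval (x j ^ 3 - 3 * x j) *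
    Chi (2 * k + 2) (fun i => if i < 2 * k + 1 then x (2 * m + 2 + i) else x j) * (3 * x j ^ 2 - 3) * (8 * ξ) /
    ((x j - ((2 * Real.cos (2 * b (2 * m + 1) + 2 * π / 3) : ℝ) : ℂ)) *
      (∏ i ∈ range (2 * k + 1), qq (x j) (x (2 * m + 2 + i))) *
      ((3 * x j ^ 2 - 3) * ∏ i ∈ (range (2 * m + 1)).erase j, qq (x j) (x i)) *
      ((8 * ξ) * ∏ i ∈ (range (2 * m + 1)).erase j, (4 * (ξ + ((Real.cos (b i) : ℝ) : ℂ)))) *
      ∏ i ∈ (range (2 * m + 1)).erase j, (ξ - ((Real.cos (b i) : ℝ) : ℂ))) = _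
  rw [e1, e2, p2, hqt, hCh]
  have hR : ((contA_T m k (xpp b (2 * m + 1)) (xx b) j /
        ∏ i ∈ (range (2 * m + 1)).erase j, (xx b j - xx b i) : ℝ) : ℂ) =
      (x j - ((xpp b (2 * m + 1) : ℝ) : ℂ)) * (∏ i ∈ (range (2 * m + 1)).erase j, qq (x j) (x i)) *
        Chi (2 * m) (fun i => x (skip j i)) * ((Chi (2 * k + 2) (yj m k j (xx b)) : ℝ) : ℂ) *
        Chi (2 * (m + k + 1)) (fun i => x (skip j i)) / ∏ i ∈ (range (2 * m + 1)).erase j, (x j - x i) := by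
    unfold contA_T
    have c1 : Chi (2 * m) (fun i => x (skip j i)) = ((Chi (2 * m) (fun i => xx b (skip j i)) : ℝ) : ℂ) :=
      Chi_ofReal _ _
    have c2 : Chi (2 * (m + k + 1)) (fun i => x (skip j i)) =
        ((Chi (2 * (m + k + 1)) (fun i => xx b (skip j i)) : ℝ) : ℂ) := Chi_ofReal _ _
    have c3 : (∏ i ∈ (range (2 * m + 1)).erase j, qq (x j) (x i)) =
        ((∏ i ∈ (range (2 * m + 1)).erase j, qq (xx b j) (xx b i) : ℝ) : ℂ) := by
      rw [Complex.ofReal_prod]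
      refine prod_congr rfl fun i _ => ?_
      unfold qq
      push_cast
      rfl
    have c4 : (∏ i ∈ (range (2 * m + 1)).erase j, (x j - x i)) =
        ((∏ i ∈ (range (2 * m + 1)).erase j, (xx b j - xx b i) : ℝ) : ℂ) := by
      rw [Complex.ofReal_prod]
      refine prod_congr rfl fun i _ => ?_
      push_cast
      rfl
    rw [c1, c2, c3, c4]
    push_cast
    rfl
  rw [hR, ← p4, show 2 * m + 1 - 1 = 2 * m by omega, show 2 * (m + k) + 3 - 1 = 2 * (m + k + 1) by omega]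
  have h5' : ∏ i ∈ (range (2 * m + 1)).erase j, (ξ - ((Real.cos (b i) : ℝ) : ℂ)) ≠ 0 := by
    intro h
    apply hne
    rw [← p4, h, mul_zero]
  exact contA_alg ht hqj0 h8' hS hY h4' h5'

theorem AA_contour (m k : ℕ) {b : ℕ → ℝ} (hb : ∀ j, j < 2 * (m + k) + 3 → |b j| < 1 / 100)
    (hd : ∀ i ≤ 2 * m, ∀ j ≤ 2 * m, i ≠ j → xx b i ≠ xx b j) :
    ((AA m k (xpp b (2 * m + 1)) (xx b) : ℝ) : ℂ) =
      ((VV (2 * m + 1) (xx b) : ℝ) : ℂ) * ((2 * π * Complex.I : ℂ)⁻¹ * ∮ z in C(1, 1 / 10), GG m k b z) := by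
  have h1 : (fun z => GG m k b z) =
      fun z => contA_G m k b z / ∏ i ∈ range (2 * m + 1), (z - ((Real.cos (b i) : ℝ) : ℂ)) :=
    funext fun z => contA_GG m k b z
  rw [h1, lag_cauchy (z := fun i => ((Real.cos (b i) : ℝ) : ℂ)) (by norm_num)
    (fun i hi => contA_node (hb i (by omega))) ?_ (contA_diff m k hb) (by omega), contA_AA m k _ _ hd]
  · push_cast
    congr 1
    refine sum_congr rfl fun j hj => ?_
    have := contA_term m k hb hd (mem_range.1 hj)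
    push_cast at this
    exact this.symm
  · intro i hi j hj hij h
    apply hd i (by omega) j (by omega) hij
    have h2 : Real.cos (b i) = Real.cos (b j) := Complex.ofReal_injective h
    unfold xx
    rw [Real.cos_two_mul, Real.cos_two_mul, h2]
end IP.Slit
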