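import Pool.Agent.Helper60.Slit.Tri
import Pool.Agent.Lead.IP.NformB
/-! MODULE SSb: the inhomogeneous amplitude and its symmetries, degrees, recursions (pattern: `IP/NformA.lean`).
The upper vectors are taken at `-b`.
SYMMETRY: `V_sw` for the lower vector with `u = b i - b (i+1)`, for the upper one with `-u`; `Rt` is moved by `tri_Rt_*`.
REFLECTIONS: `ng 0` by `V_ngL` (lower and upper left), `ng (2n)` by `V_ngR`; the others by conjugation with `sw` (`ng_conj`).
RECURSION: `V_rec` (lower, `b (i+1) = b i + π/3`), `tri_In_*`, `De_V` (upper, at `-b`).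
`4 s(b_j - b_i) s(-b_j - b_i) = 2cos(2 b_j) - 2cos(2 b_i - 2π/3)` (`zf_s_mul_s`, `zf_K_zero`). -/
namespace IP.Slit
open IP Finset Real

theorem ssb_V_congr (n : ℕ) {b b' : ℕ → ℝ} (h : ∀ j < 2 * n + 1, b j = b' j) : V n b = V n b' := by
  ext σ
  exact (V_Sep n σ).2 b b' h

theorem ssb_K_general (n i : ℕ) (b : ℕ → ℝ) :
    4 ^ (#((range (2 * n + 1)).filter (fun j => j ≠ i ∧ j ≠ i + 1))) * K n i b =
      ∏ j ∈ (range (2 * n + 1)).filter (fun j => j ≠ i ∧ j ≠ i + 1), (xx b j - xpp b i) := by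
  unfold K
  rw [← prod_const, ← prod_mul_distrib]
  refine prod_congr rfl fun j _ => ?_
  rw [zf_s_mul_s]
  unfold xx xpp
  ring

/-- the factor of the upper vector -/
theorem ssb_K_upper (n : ℕ) (c : ℕ → ℝ) (x : ℝ) (hx : c 1 = -x - π / 3) :
    4 ^ (2 * n + 1) * K (n + 1) 0 (sw 0 c) =
      ∏ j ∈ Ico 2 (2 * n + 3), (2 * Real.cos (2 * c j) - 2 * Real.cos (2 * x - 2 * π / 3)) := by
  rw [zf_K_zero]
  have h1 : sw 0 c 0 = c 1 := by unfold sw; rw [Equiv.swap_apply_left]
  refine prod_congr (by rw [show 2 * n + 1 + 2 = 2 * n + 3 by ring]) fun j hj => ?_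
  rw [mem_Ico] at hj
  have h2 : sw 0 c j = c j := by
    unfold sw
    rw [Equiv.swap_apply_of_ne_of_ne (by omega) (by omega)]
  rw [h1, h2, hx]
  have h3 : Real.cos (2 * (-x - π / 3) - 2 * π / 3) = Real.cos (2 * x - 2 * π / 3) := by
    rw [← Real.cos_neg, ← Real.cos_sub_two_pi]
    congr 1
    ring
  rw [h3]
  ring

theorem SS_recX (m k : ℕ) (b : ℕ → ℝ) (hb : b 1 = b 0 + π / 3) :
    4 ^ (2 * (m + k) + 3 + (2 * m + 1)) * SS (m + 1) k b =
      (∏ j ∈ Ico 2 (2 * (m + k) + 5), (xx b j - xpp b 0)) * (∏ j ∈ Ico 2 (2 * m + 3), (xx b j - xpp b 0)) *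
        SS m k (rem 0 b) := by
  have e0 : m + 1 + k + 1 = (m + k + 1) + 1 := by ring
  have h1 : V (m + 1 + k + 1) b = K (m + k + 1 + 1) 0 b • In 0 (V (m + k + 1) (rem 0 b)) := by
    rw [e0]
    exact V_rec (by omega) b hb
  have h2 : De 0 (V (m + 1) (fun j => -b j)) =
      K (m + 1) 0 (sw 0 (fun j => -b j)) • V m (rem 0 (fun j => -b j)) :=
    De_V (by omega) _ (by simp only [zero_add]; rw [hb]; ring)
  have h3 : SS (m + 1) k b = K (m + k + 1 + 1) 0 b * K (m + 1) 0 (sw 0 (fun j => -b j)) *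
      SS m k (rem 0 b) := by
    unfold SS
    rw [h1, tri_smul3, tri_In_left' (by omega), h2, tri_smul1, mul_assoc]
    congr 3
    refine congrArg (V k) ?_
    funext j
    unfold rem
    rw [if_neg (by omega)]
    congr 2
    ring
  have h4 := zf_K_zero (m + k + 1) b
  have h5 := ssb_K_upper m (fun j => -b j) (b 0) (by rw [hb]; ring)
  have e1 : 2 * (m + k + 1) + 1 = 2 * (m + k) + 3 := by ring
  have e2 : 2 * (m + k) + 3 + 2 = 2 * (m + k) + 5 := by ring
  rw [e1, e2] at h4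
  rw [h3, pow_add]
  have h6 : ∏ j ∈ Ico 2 (2 * (m + k) + 5), (xx b j - xpp b 0) =
      4 ^ (2 * (m + k) + 3) * K (m + k + 1 + 1) 0 b := by
    rw [h4]
    refine prod_congr rfl fun j _ => ?_
    unfold xx xpp
    ring
  have h7 : ∏ j ∈ Ico 2 (2 * m + 3), (xx b j - xpp b 0) =
      4 ^ (2 * m + 1) * K (m + 1) 0 (sw 0 (fun j => -b j)) := by
    rw [h5]
    refine prod_congr rfl fun j _ => ?_
    unfold xx xpp
    rw [mul_neg, Real.cos_neg]
  rw [h6, h7]
  ring

theorem SS_recY (m k : ℕ) (b : ℕ → ℝ) (hb : b (2 * m + 3) = b (2 * m + 2) + π / 3) :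
    4 ^ (2 * (m + k) + 3 + (2 * k + 1)) * SS m (k + 1) b =
      (∏ j ∈ (range (2 * (m + k) + 5)).filter (fun j => j ≠ 2 * m + 2 ∧ j ≠ 2 * m + 3), (xx b j - xpp b (2 * m + 2))) *
        (∏ j ∈ Ico (2 * m + 4) (2 * (m + k) + 5), (xx b j - xpp b (2 * m + 2))) * SS m k (rem (2 * m + 2) b) := by
  have e0 : m + (k + 1) + 1 = (m + k + 1) + 1 := by ring
  have h1 : V (m + (k + 1) + 1) b =
      K (m + k + 1 + 1) (2 * m + 2) b • In (2 * m + 2) (V (m + k + 1) (rem (2 * m + 2) b)) := by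
    rw [e0]
    exact V_rec (by omega) b hb
  have h2 : De 0 (V (k + 1) (fun j => -b (2 * m + 2 + j))) =
      K (k + 1) 0 (sw 0 (fun j => -b (2 * m + 2 + j))) • V k (rem 0 (fun j => -b (2 * m + 2 + j))) :=
    De_V (by omega) _ (by simp only [zero_add]; rw [add_zero, hb]; ring)
  have h3 : SS m (k + 1) b = K (m + k + 1 + 1) (2 * m + 2) b *
      K (k + 1) 0 (sw 0 (fun j => -b (2 * m + 2 + j))) * SS m k (rem (2 * m + 2) b) := by
    unfold SS
    have h4 := tri_In_right' (n1 := m) (n2 := k) (j := 0) (by omega) (V m (fun j => -b j))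
      (V (k + 1) (fun j => -b (2 * m + 2 + j))) (V (m + k + 1) (rem (2 * m + 2) b))
    rw [add_zero] at h4
    rw [h1, tri_smul3, h4, h2, tri_smul2, mul_assoc]
    have h5 : V m (fun j => -b j) = V m (fun j => -rem (2 * m + 2) b j) := by
      apply ssb_V_congr
      intro j hj
      unfold rem
      rw [if_pos (by omega)]
    have h6 : rem 0 (fun j => -b (2 * m + 2 + j)) = fun j => -rem (2 * m + 2) b (2 * m + 2 + j) := by
      funext j
      unfold rem
      rw [if_neg (by omega), if_neg (by omega)]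
      congr 2
    rw [h5, h6]
  have h4 := ssb_K_general (m + k + 1 + 1) (2 * m + 2) b
  have hcard : #((range (2 * (m + k + 1 + 1) + 1)).filter
      (fun j => j ≠ 2 * m + 2 ∧ j ≠ 2 * m + 2 + 1)) = 2 * (m + k) + 3 := by
    have e : (range (2 * (m + k + 1 + 1) + 1)).filter (fun j => j ≠ 2 * m + 2 ∧ j ≠ 2 * m + 2 + 1) =
        ((range (2 * (m + k + 1 + 1) + 1)).erase (2 * m + 2)).erase (2 * m + 3) := by
      ext j
      simp only [mem_filter, mem_range, mem_erase]
      omega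
    rw [e, card_erase_of_mem (by simp only [mem_erase, mem_range]; omega),
      card_erase_of_mem (by simp only [mem_range]; omega), card_range]
    omega
  rw [hcard] at h4
  have h5 := ssb_K_upper k (fun j => -b (2 * m + 2 + j)) (b (2 * m + 2))
    (by rw [show 2 * m + 2 + 1 = 2 * m + 3 by ring, hb]; ring)
  have h6 : ∏ j ∈ (range (2 * (m + k) + 5)).filter (fun j => j ≠ 2 * m + 2 ∧ j ≠ 2 * m + 3),
      (xx b j - xpp b (2 * m + 2)) = 4 ^ (2 * (m + k) + 3) * K (m + k + 1 + 1) (2 * m + 2) b := by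
    rw [h4]
    refine prod_congr ?_ fun j _ => rfl
    ext j
    simp only [mem_filter, mem_range]
    omega
  have h7 : ∏ j ∈ Ico (2 * m + 4) (2 * (m + k) + 5), (xx b j - xpp b (2 * m + 2)) =
      4 ^ (2 * k + 1) * K (k + 1) 0 (sw 0 (fun j => -b (2 * m + 2 + j))) := by
    rw [h5]
    have e1 : 2 * m + 4 = 2 + (2 * m + 2) := by ring
    have e2 : 2 * (m + k) + 5 = (2 * k + 3) + (2 * m + 2) := by ring
    rw [e1, e2, ← prod_Ico_add']
    refine prod_congr rfl fun j _ => ?_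
    unfold xx xpp
    rw [mul_neg, Real.cos_neg, add_comm (2 * m + 2) j]
  rw [h3, pow_add, h6, h7]
  ring

/-- the smallest case -/
theorem SS_zero (b : ℕ → ℝ) : 4 * SS 0 0 b = xx b 0 - xpp b 1 := by
  classical
  have hV : V 1 b = Finsupp.single (bot 1) (V 1 b (bot 1)) + Finsupp.single (top 1) (V 1 b (top 1)) := by
    ext σ
    rw [Finsupp.add_apply]
    by_cases h1 : σ = bot 1
    · subst h1
      rw [Finsupp.single_eq_same, Finsupp.single_eq_of_ne nb_bot_ne_top, add_zero]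
    · by_cases h2 : σ = top 1
      · subst h2
        rw [Finsupp.single_eq_same, Finsupp.single_eq_of_ne nb_bot_ne_top.symm, zero_add]
      · rw [Finsupp.single_eq_of_ne h1, Finsupp.single_eq_of_ne h2, add_zero]
        by_contra h3
        have h4 : σ ∈ W 1 := (Finsupp.mem_supported ℝ (V 1 b)).1 (V_Sup 1 b)
          (Finsupp.mem_support_iff.2 h3)
        rcases nb_W_one h4 with h5 | h5
        · exact h1 h5
        · exact h2 h5
  have hb : ¬ cross 0 0 (top 0) (top 0) (bot 1) := by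
    intro h
    have hle : bot 1 ⊔ liftL 0 (top 0) ⊔ liftR 0 (top 0) ≤ bot 1 := by
      refine sup_le (sup_le le_rfl ?_) ?_
      · intro x y hxy
        rcases hxy with rfl | ⟨h1, h2, _⟩
        · exact (bot 1).refl _
        · have e1 : x = 0 := by omega
          have e2 : y = 0 := by omega
          rw [e1, e2]
      · intro x y hxy
        rcases hxy with rfl | ⟨h1, h2, _⟩
        · exact (bot 1).refl _
        · exact Or.inr ⟨by omega, by omega⟩
    have h1 : (bot 1) 0 1 := hle h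
    rcases (h1 : (0:ℕ) = 1 ∨ ((1:ℕ) ≤ 0 ∧ (1:ℕ) ≤ 1)) with h2 | h2 <;> omega
  have ht : cross 0 0 (top 0) (top 0) (top 1) := by
    have h1 : (top 1) 0 1 := Or.inr (Or.inl (by simp))
    exact (le_sup_left.trans le_sup_left : top 1 ≤ top 1 ⊔ liftL 0 (top 0) ⊔ liftR 0 (top 0)) h1
  have h1 : SS 0 0 b = V 1 b (top 1) := by
    unfold SS
    rw [V_zero, V_zero, show 0 + 0 + 1 = 1 by norm_num, hV, tri_add3, tri_single, tri_single]
    unfold cf
    rw [if_neg hb, if_pos ht]
    simp only [Finsupp.add_apply, Finsupp.single_eq_same, Finsupp.single_eq_of_ne nb_bot_ne_top.symm]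
    ring
  rw [h1, V_top]
  have h2 : f0 1 b = s (b 0 - b 1) * s (-b 0 - b 1) := by
    unfold f0
    simp [prod_range_succ]
  rw [h2, zf_s_mul_s]
  unfold xx xpp
  ring
end IP.Slit
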