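import Pool.Agent.Helper60.Slit.Tri
import Pool.Agent.Lead.IP.NformB
/-! MODULE SSa: the inhomogeneous amplitude and its symmetries, degrees, recursions (pattern: `IP/NformA.lean`).
The upper vectors are taken at `-b`.
SYMMETRY: `V_sw` for the lower vector with `u = b i - b (i+1)`, for the upper one with `-u`; `Rt` is moved by `tri_Rt_*`.
REFLECTIONS: `ng 0` by `V_ngL` (lower and upper left), `ng (2n)` by `V_ngR`; the others by conjugation with `sw` (`ng_conj`).
RECURSION: `V_rec` (lower, `b (i+1) = b i + π/3`), `tri_In_*`, `De_V` (upper, at `-b`).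
`4 s(b_j - b_i) s(-b_j - b_i) = 2cos(2 b_j) - 2cos(2 b_i - 2π/3)` (`zf_s_mul_s`, `zf_K_zero`). -/
namespace IP.Slit
open IP Finset Real

/-! ### auxiliary facts -/

/-- the parameters of the upper left strip -/
def ssa_nL (b : ℕ → ℝ) : ℕ → ℝ := fun j => -b j
/-- the parameters of the upper right strip -/
def ssa_nR (m : ℕ) (b : ℕ → ℝ) : ℕ → ℝ := fun j => -b (2 * m + 2 + j)

theorem ssa_def (m k : ℕ) (b : ℕ → ℝ) :
    SS m k b = tri m k (V m (ssa_nL b)) (V k (ssa_nR m b)) (V (m + k + 1) b) := rfl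

theorem ssa_nL_update (b : ℕ → ℝ) (i : ℕ) (y : ℝ) :
    ssa_nL (Function.update b i y) = Function.update (ssa_nL b) i (-y) := by
  funext j
  unfold ssa_nL
  by_cases hj : j = i
  · subst hj
    rw [Function.update_self, Function.update_self]
  · rw [Function.update_of_ne hj, Function.update_of_ne hj]

theorem ssa_nR_update {m : ℕ} (b : ℕ → ℝ) (i : ℕ) (y : ℝ) :
    ssa_nR m (Function.update b (2 * m + 2 + i) y) = Function.update (ssa_nR m b) i (-y) := by
  funext j
  unfold ssa_nR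
  by_cases hj : j = i
  · subst hj
    rw [Function.update_self, Function.update_self]
  · rw [Function.update_of_ne (by omega), Function.update_of_ne hj]

theorem ssa_nR_update_of_lt {m i : ℕ} (h : i < 2 * m + 2) (b : ℕ → ℝ) (y : ℝ) :
    ssa_nR m (Function.update b i y) = ssa_nR m b := by
  funext j
  unfold ssa_nR
  rw [Function.update_of_ne (by omega)]

theorem ssa_nL_update_of_gt {m i : ℕ} (h : 2 * m < i) (b : ℕ → ℝ) (y : ℝ) :
    V m (ssa_nL (Function.update b i y)) = V m (ssa_nL b) := by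
  ext σ
  refine (V_Sep m σ).2 _ _ fun j hj => ?_
  unfold ssa_nL
  rw [Function.update_of_ne (by omega)]

theorem ssa_supp {n : ℕ} {v : M} (h : v ∈ Sup (W n)) : v.support ⊆ (W_finite n).toFinset := by
  intro σ hσ
  rw [Set.Finite.mem_toFinset]
  exact ((Finsupp.mem_supported ℝ v).1 h) hσ

/-- expansion as a finite sum -/
theorem ssa_sum (m k : ℕ) (b : ℕ → ℝ) : SS m k b = ∑ t1 ∈ (W_finite m).toFinset,
    ∑ t2 ∈ (W_finite k).toFinset, ∑ σ ∈ (W_finite (m + k + 1)).toFinset,
      V m (ssa_nL b) t1 * V k (ssa_nR m b) t2 * V (m + k + 1) b σ * cf m k t1 t2 σ := by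
  rw [ssa_def, tri_eq_sum m k (ssa_supp (V_Sup m _)) (ssa_supp (V_Sup k _)) (ssa_supp (V_Sup _ _))]

theorem SS_congr (m k : ℕ) {b b' : ℕ → ℝ} (h : ∀ j < 2 * (m + k + 1) + 1, b j = b' j) : SS m k b = SS m k b' := by
  rw [ssa_sum, ssa_sum]
  refine sum_congr rfl fun t1 _ => sum_congr rfl fun t2 _ => sum_congr rfl fun σ _ => ?_
  have e1 : V m (ssa_nL b) t1 = V m (ssa_nL b') t1 :=
    (V_Sep m t1).2 _ _ fun j hj => by unfold ssa_nL; rw [h j (by omega)]
  have e2 : V k (ssa_nR m b) t2 = V k (ssa_nR m b') t2 :=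
    (V_Sep k t2).2 _ _ fun j hj => by unfold ssa_nR; rw [h _ (by omega)]
  have e3 : V (m + k + 1) b σ = V (m + k + 1) b' σ := (V_Sep _ σ).2 _ _ h
  rw [e1, e2, e3]

theorem SS_continuous (m k : ℕ) : Continuous (SS m k) := by
  have e : SS m k = fun b => ∑ t1 ∈ (W_finite m).toFinset,
      ∑ t2 ∈ (W_finite k).toFinset, ∑ σ ∈ (W_finite (m + k + 1)).toFinset,
        V m (ssa_nL b) t1 * V k (ssa_nR m b) t2 * V (m + k + 1) b σ * cf m k t1 t2 σ :=
    funext fun b => ssa_sum m k b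
  rw [e]
  have hL : Continuous ssa_nL := continuous_pi fun j => (continuous_apply j).neg
  have hR : Continuous (ssa_nR m) := continuous_pi fun j => (continuous_apply (2 * m + 2 + j)).neg
  refine continuous_finsetSum _ fun t1 _ => continuous_finsetSum _ fun t2 _ =>
    continuous_finsetSum _ fun σ _ => ?_
  exact ((((V_Sep m t1).continuous.comp hL).mul ((V_Sep k t2).continuous.comp hR)).mul
    (V_Sep _ σ).continuous).mul continuous_const

theorem SS_TPx {m k i : ℕ} (h : i ≤ 2 * m) (b : ℕ → ℝ) :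
    TP (2 * (m + k + 1) + 2 * m) (fun y => SS m k (Function.update b i y)) := by
  simp only [ssa_sum, ssa_nL_update, ssa_nR_update_of_lt (show i < 2 * m + 2 by omega)]
  refine TP.sum _ fun t1 _ => TP.sum _ fun t2 _ => TP.sum _ fun σ _ => ?_
  have e1 : TP (2 * m) (fun y => V m (Function.update (ssa_nL b) i (-y)) t1) :=
    ((V_Sep m t1).1 (ssa_nL b) i (by omega)).comp_neg
  have e2 : TP (2 * (m + k + 1)) (fun y => V (m + k + 1) (Function.update b i y) σ) :=
    (V_Sep _ σ).1 b i (by omega)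
  have := (e2.mul e1).smul (V k (ssa_nR m b) t2 * cf m k t1 t2 σ)
  convert this using 1
  funext y
  ring

theorem SS_TPy {m k i : ℕ} (h : 2 * m + 2 ≤ i) (h' : i ≤ 2 * (m + k + 1)) (b : ℕ → ℝ) :
    TP (2 * (m + k + 1) + 2 * k) (fun y => SS m k (Function.update b i y)) := by
  obtain ⟨j, rfl⟩ := Nat.exists_eq_add_of_le h
  simp only [ssa_sum, ssa_nL_update_of_gt (show 2 * m < 2 * m + 2 + j by omega), ssa_nR_update]
  refine TP.sum _ fun t1 _ => TP.sum _ fun t2 _ => TP.sum _ fun σ _ => ?_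
  have e1 : TP (2 * k) (fun y => V k (Function.update (ssa_nR m b) j (-y)) t2) :=
    ((V_Sep k t2).1 (ssa_nR m b) j (by omega)).comp_neg
  have e2 : TP (2 * (m + k + 1)) (fun y => V (m + k + 1) (Function.update b (2 * m + 2 + j) y) σ) :=
    (V_Sep _ σ).1 b _ (by omega)
  have := (e2.mul e1).smul (V m (ssa_nL b) t1 * cf m k t1 t2 σ)
  convert this using 1
  funext y
  ring

theorem SS_TPt (m k : ℕ) (b : ℕ → ℝ) :
    TP (2 * (m + k + 1)) (fun y => SS m k (Function.update b (2 * m + 1) y)) := by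
  simp only [ssa_sum, ssa_nL_update_of_gt (show 2 * m < 2 * m + 1 by omega),
    ssa_nR_update_of_lt (show 2 * m + 1 < 2 * m + 2 by omega)]
  refine TP.sum _ fun t1 _ => TP.sum _ fun t2 _ => TP.sum _ fun σ _ => ?_
  have e2 : TP (2 * (m + k + 1)) (fun y => V (m + k + 1) (Function.update b (2 * m + 1) y) σ) :=
    (V_Sep _ σ).1 b _ (by omega)
  have := e2.smul (V m (ssa_nL b) t1 * V k (ssa_nR m b) t2 * cf m k t1 t2 σ)
  convert this using 1
  funext y
  ring

theorem ssa_Sep (m k : ℕ) : Sep (2 * (m + k + 1) + 1) (2 * (m + k + 1) + 2 * m + 2 * k) (SS m k) := by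
  constructor
  · intro b j hj
    rcases Nat.lt_or_ge (2 * m) j with h1 | h1
    · rcases Nat.lt_or_ge (2 * m + 1) j with h2 | h2
      · have := (SS_TPy (k := k) (show 2 * m + 2 ≤ j by omega) (by omega) b).mono m
        rwa [show 2 * (m + k + 1) + 2 * k + 2 * m = 2 * (m + k + 1) + 2 * m + 2 * k by ring] at this
      · have h3 : j = 2 * m + 1 := by omega
        subst h3
        have := (SS_TPt m k b).mono (m + k)
        rwa [show 2 * (m + k + 1) + 2 * (m + k) = 2 * (m + k + 1) + 2 * m + 2 * k by ring] at this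
    · exact (SS_TPx h1 b).mono k
  · intro b b' h
    exact SS_congr m k h

theorem ssa_nL_sw (i : ℕ) (b : ℕ → ℝ) : ssa_nL (sw i b) = sw i (ssa_nL b) := rfl

theorem ssa_nR_sw (m i : ℕ) (b : ℕ → ℝ) :
    ssa_nR m (sw (2 * m + 2 + i) b) = sw i (ssa_nR m b) := by
  funext j
  by_cases h1 : j = i
  · subst h1
    rw [nb_sw_left]
    unfold ssa_nR
    rw [nb_sw_left]
    rfl
  · by_cases h2 : j = i + 1
    · subst h2
      rw [nb_sw_right]
      unfold ssa_nR
      rw [show 2 * m + 2 + (i + 1) = 2 * m + 2 + i + 1 by ring, nb_sw_right]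
    · rw [nb_sw_ne h1 h2]
      unfold ssa_nR
      rw [nb_sw_ne (by omega) (by omega)]

theorem ssa_nR_sw_of_lt {m i : ℕ} (h : i + 1 < 2 * m + 2) (b : ℕ → ℝ) :
    ssa_nR m (sw i b) = ssa_nR m b := by
  funext j
  unfold ssa_nR
  rw [nb_sw_ne (by omega) (by omega)]

theorem ssa_nL_sw_of_gt {m i : ℕ} (h : 2 * m < i) (b : ℕ → ℝ) :
    V m (ssa_nL (sw i b)) = V m (ssa_nL b) := by
  ext σ
  refine (V_Sep m σ).2 _ _ fun j hj => ?_
  unfold ssa_nL
  rw [nb_sw_ne (by omega) (by omega)]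

theorem ssa_sw_mul {m k i : ℕ} (h : i < 2 * m ∨ (2 * m + 2 ≤ i ∧ i < 2 * (m + k + 1))) (b : ℕ → ℝ) :
    (s (b i - b (i + 1)) * s (-(b i - b (i + 1)))) * SS m k (sw i b) =
      (s (b i - b (i + 1)) * s (-(b i - b (i + 1)))) * SS m k b := by
  rcases h with h | ⟨h1, h2⟩
  · have hv := V_sw (n := m + k + 1) (i := i) (by omega) b
    have hw := V_sw (n := m) (i := i) (by omega) (ssa_nL b)
    have hd : ssa_nL b i - ssa_nL b (i + 1) = -(b i - b (i + 1)) := by
      unfold ssa_nL; ring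
    rw [hd] at hw
    set u := b i - b (i + 1) with hu
    rw [ssa_def, ssa_def, ssa_nL_sw, ssa_nR_sw_of_lt (by omega)]
    have e1 : s u * s (-u) * tri m k (V m (sw i (ssa_nL b))) (V k (ssa_nR m b)) (V (m + k + 1) (sw i b)) =
        tri m k (s (-u) • V m (sw i (ssa_nL b))) (V k (ssa_nR m b)) (s u • V (m + k + 1) (sw i b)) := by
      rw [tri_smul1, tri_smul3]; ring
    have hun := unitarity i (-u) (V (m + k + 1) b)
    rw [neg_neg] at hun
    rw [e1, hv, hw, tri_Rt_left h, hun, tri_smul3]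
    ring
  · obtain ⟨j, rfl⟩ := Nat.exists_eq_add_of_le h1
    have hv := V_sw (n := m + k + 1) (i := 2 * m + 2 + j) (by omega) b
    have hw := V_sw (n := k) (i := j) (by omega) (ssa_nR m b)
    have hd : ssa_nR m b j - ssa_nR m b (j + 1) = -(b (2 * m + 2 + j) - b (2 * m + 2 + j + 1)) := by
      unfold ssa_nR
      rw [show 2 * m + 2 + (j + 1) = 2 * m + 2 + j + 1 by ring]
      ring
    rw [hd] at hw
    set u := b (2 * m + 2 + j) - b (2 * m + 2 + j + 1) with hu
    rw [ssa_def, ssa_def, ssa_nR_sw, ssa_nL_sw_of_gt (by omega)]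
    have e1 : s u * s (-u) * tri m k (V m (ssa_nL b)) (V k (sw j (ssa_nR m b)))
          (V (m + k + 1) (sw (2 * m + 2 + j) b)) =
        tri m k (V m (ssa_nL b)) (s (-u) • V k (sw j (ssa_nR m b)))
          (s u • V (m + k + 1) (sw (2 * m + 2 + j) b)) := by
      rw [tri_smul2, tri_smul3]; ring
    have hun := unitarity (2 * m + 2 + j) (-u) (V (m + k + 1) b)
    rw [neg_neg] at hun
    rw [e1, hv, hw, tri_Rt_right (by omega), hun, tri_smul3]
    ring

theorem SS_sw {m k i : ℕ} (h : i < 2 * m ∨ (2 * m + 2 ≤ i ∧ i < 2 * (m + k + 1))) (b : ℕ → ℝ) :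
    SS m k (sw i b) = SS m k b := by
  have hi : i < 2 * (m + k + 1) := by omega
  have hS : Sep (2 * (m + k + 1) + 1) (2 * (m + k + 1) + 2 * m + 2 * k)
      (fun b => SS m k (sw i b) - SS m k b) :=
    ((ssa_Sep m k).comp_sw (by omega)).sub (ssa_Sep m k)
  have h0 : ∃ b : ℕ → ℝ, (fun b : ℕ → ℝ => s (b i - b (i + 1)) * s (-(b i - b (i + 1)))) b ≠ 0 := by
    refine ⟨fun _ => 0, ?_⟩
    simp only [sub_self, neg_zero]
    have : s 0 ≠ 0 := by
      unfold s
      rw [add_zero]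
      exact rc_sin_pi_third_pos.ne'
    exact mul_ne_zero this this
  have := Sep.eq_zero_of_mul hS (ss_Sep hi) h0 (fun c hc => by
    have h := ssa_sw_mul h c
    have := mul_left_cancel₀ hc h
    rw [this, sub_self]) b
  exact sub_eq_zero.mp this

theorem ssa_ng_conj (i : ℕ) (b : ℕ → ℝ) : ng (i + 1) b = sw i (ng i (sw i b)) := by
  funext j
  unfold ng sw
  by_cases hj : j = i
  · subst hj
    rw [Equiv.swap_apply_left, Function.update_of_ne (by omega), Function.update_of_ne (by omega),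
      Equiv.swap_apply_right]
  · by_cases hj1 : j = i + 1
    · subst hj1
      rw [Equiv.swap_apply_right, Function.update_self, Function.update_self,
        Equiv.swap_apply_left]
    · rw [Equiv.swap_apply_of_ne_of_ne hj hj1, Function.update_of_ne hj1,
        Function.update_of_ne hj, Equiv.swap_apply_of_ne_of_ne hj hj1]

theorem ssa_ng_zero (m k : ℕ) (b : ℕ → ℝ) : SS m k (ng 0 b) = SS m k b := by
  have e1 : ssa_nL (ng 0 b) = ng 0 (ssa_nL b) := by
    unfold ng
    rw [ssa_nL_update]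
    rfl
  have e2 : ssa_nR m (ng 0 b) = ssa_nR m b := by
    unfold ng
    exact ssa_nR_update_of_lt (by omega) _ _
  rw [ssa_def, ssa_def, e1, e2, V_ngL, V_ngL]

theorem ssa_ng_last (m k : ℕ) (b : ℕ → ℝ) : SS m k (ng (2 * (m + k + 1)) b) = SS m k b := by
  have e0 : 2 * (m + k + 1) = 2 * m + 2 + 2 * k := by ring
  have e1 : V m (ssa_nL (ng (2 * (m + k + 1)) b)) = V m (ssa_nL b) := by
    unfold ng
    exact ssa_nL_update_of_gt (by omega) _ _
  have e2 : ssa_nR m (ng (2 * (m + k + 1)) b) = ng (2 * k) (ssa_nR m b) := by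
    unfold ng
    rw [e0, ssa_nR_update]
    rfl
  rw [ssa_def, ssa_def, e1, e2, V_ngR, V_ngR]

theorem SS_ng {m k i : ℕ} (h : i ≤ 2 * m ∨ (2 * m + 2 ≤ i ∧ i ≤ 2 * (m + k + 1))) (b : ℕ → ℝ) :
    SS m k (ng i b) = SS m k b := by
  rcases h with h | ⟨h1, h2⟩
  · induction i generalizing b with
    | zero => exact ssa_ng_zero m k b
    | succ i ih =>
      have h3 : i < 2 * m := by omega
      have h4 : i ≤ 2 * m := by omega
      rw [ssa_ng_conj, SS_sw (Or.inl h3), ih (sw i b) h4, SS_sw (Or.inl h3)]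
  · obtain ⟨d, hd⟩ : ∃ d, i + d = 2 * (m + k + 1) := ⟨2 * (m + k + 1) - i, by omega⟩
    induction d generalizing i b with
    | zero =>
      have : i = 2 * (m + k + 1) := by omega
      subst this
      exact ssa_ng_last m k b
    | succ d ih =>
      have h3 : i < 2 * (m + k + 1) := by omega
      have h4 : 2 * m + 2 ≤ i + 1 := by omega
      have h5 : i + 1 ≤ 2 * (m + k + 1) := by omega
      have h6 : i + 1 + d = 2 * (m + k + 1) := by omega
      rw [ng_conj, SS_sw (Or.inr ⟨h1, h3⟩), ih (sw i b) h4 h5 h6, SS_sw (Or.inr ⟨h1, h3⟩)]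
end IP.Slit
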