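import Pool.Agent.Helper60.Slit.Defs
import Pool.Agent.Helper53.Slit.Tri
import Pool.Agent.Lead.IP.HullA
/-! MODULE TRI: algebra of the trilinear form `tri` (proved by helper19).
The lemmas `tri_single`, `tri_add1/2/3`, `tri_zero1/2/3`, `tri_sum1/2/3` and the support version `tri_eq_sum` are in
`Helper53/Slit/Tri.lean`.  The two upper states are put together to one partition `lift2 n1 t1 t2`; then all
relations follow from relations for the join of two partitions, as in `IP/HullA.lean`. -/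
namespace IP.Slit
open IP Finset

/-! ### linearity -/

theorem tri_smul1 (n1 n2 : ℕ) (c : ℝ) (v1 v2 v : M) : tri n1 n2 (c • v1) v2 v = c * tri n1 n2 v1 v2 v := by
  classical
  rw [tri_eq_sum n1 n2 (v1 := c • v1) (S1 := v1.support) (S2 := v2.support) (S := v.support)
      Finsupp.support_smul subset_rfl subset_rfl,
    tri_eq_sum n1 n2 (v1 := v1) (S1 := v1.support) (S2 := v2.support) (S := v.support)
      subset_rfl subset_rfl subset_rfl, mul_sum]
  refine sum_congr rfl fun t1 _ => ?_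
  rw [mul_sum]
  refine sum_congr rfl fun t2 _ => ?_
  rw [mul_sum]
  refine sum_congr rfl fun σ _ => ?_
  rw [Finsupp.smul_apply, smul_eq_mul]
  ring

theorem tri_smul2 (n1 n2 : ℕ) (c : ℝ) (v1 v2 v : M) : tri n1 n2 v1 (c • v2) v = c * tri n1 n2 v1 v2 v := by
  classical
  rw [tri_eq_sum n1 n2 (v2 := c • v2) (S1 := v1.support) (S2 := v2.support) (S := v.support)
      subset_rfl Finsupp.support_smul subset_rfl,
    tri_eq_sum n1 n2 (v2 := v2) (S1 := v1.support) (S2 := v2.support) (S := v.support)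
      subset_rfl subset_rfl subset_rfl, mul_sum]
  refine sum_congr rfl fun t1 _ => ?_
  rw [mul_sum]
  refine sum_congr rfl fun t2 _ => ?_
  rw [mul_sum]
  refine sum_congr rfl fun σ _ => ?_
  rw [Finsupp.smul_apply, smul_eq_mul]
  ring

theorem tri_smul3 (n1 n2 : ℕ) (c : ℝ) (v1 v2 v : M) : tri n1 n2 v1 v2 (c • v) = c * tri n1 n2 v1 v2 v := by
  classical
  rw [tri_eq_sum n1 n2 (v := c • v) (S1 := v1.support) (S2 := v2.support) (S := v.support)
      subset_rfl subset_rfl Finsupp.support_smul,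
    tri_eq_sum n1 n2 (v := v) (S1 := v1.support) (S2 := v2.support) (S := v.support)
      subset_rfl subset_rfl subset_rfl, mul_sum]
  refine sum_congr rfl fun t1 _ => ?_
  rw [mul_sum]
  refine sum_congr rfl fun t2 _ => ?_
  rw [mul_sum]
  refine sum_congr rfl fun σ _ => ?_
  rw [Finsupp.smul_apply, smul_eq_mul]
  ring

theorem tri_eq_sumW (n1 n2 : ℕ) {v1 v2 v : M} (h1 : v1 ∈ Sup (W n1)) (h2 : v2 ∈ Sup (W n2))
    (h : v ∈ Sup (W (n1 + n2 + 1))) : tri n1 n2 v1 v2 v = ∑ t1 ∈ (W_finite n1).toFinset,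
      ∑ t2 ∈ (W_finite n2).toFinset, ∑ σ ∈ (W_finite (n1 + n2 + 1)).toFinset, v1 t1 * v2 t2 * v σ * cf n1 n2 t1 t2 σ := by
  have hsub : ∀ {k : ℕ} {u : M}, u ∈ Sup (W k) → u.support ⊆ (W_finite k).toFinset := by
    intro k u hu σ hσ
    rw [Set.Finite.mem_toFinset]
    exact ((Finsupp.mem_supported ℝ u).1 hu) hσ
  exact tri_eq_sum n1 n2 (hsub h1) (hsub h2) (hsub h)

/-! ### the two upper states as one partition -/

/-- the states of the two upper strips as one partition of the sites of the lower strip -/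
def lift2 (n1 : ℕ) (t t' : St) : St where
  r x y := (x ≤ n1 ∧ y ≤ n1 ∧ t x y) ∨ (n1 < x ∧ n1 < y ∧ t' (x - n1 - 1) (y - n1 - 1))
  iseqv := by
    refine ⟨fun x => ?_, ?_, ?_⟩
    · rcases Nat.lt_or_ge n1 x with h | h
      · exact Or.inr ⟨h, h, t'.refl _⟩
      · exact Or.inl ⟨h, h, t.refl _⟩
    · rintro x y (⟨h1, h2, h3⟩ | ⟨h1, h2, h3⟩)
      · exact Or.inl ⟨h2, h1, t.symm h3⟩
      · exact Or.inr ⟨h2, h1, t'.symm h3⟩
    · rintro x y z (⟨h1, h2, h3⟩ | ⟨h1, h2, h3⟩) (⟨h4, h5, h6⟩ | ⟨h4, h5, h6⟩)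
      · exact Or.inl ⟨h1, h5, t.trans h3 h6⟩
      · omega
      · omega
      · exact Or.inr ⟨h1, h5, t'.trans h3 h6⟩

theorem tri_lift2_iff (n1 : ℕ) (t t' : St) (x y : ℕ) : (lift2 n1 t t') x y ↔
    ((x ≤ n1 ∧ y ≤ n1 ∧ t x y) ∨ (n1 < x ∧ n1 < y ∧ t' (x - n1 - 1) (y - n1 - 1))) := Iff.rfl

theorem tri_lift2_ll {n1 : ℕ} (t t' : St) {x y : ℕ} (hx : x ≤ n1) (hy : y ≤ n1) :
    (lift2 n1 t t') x y ↔ t x y := by
  rw [tri_lift2_iff]
  constructor
  · rintro (⟨_, _, h⟩ | ⟨h, _, _⟩)
    · exact h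
    · omega
  · intro h
    exact Or.inl ⟨hx, hy, h⟩

theorem tri_lift2_rr (n1 : ℕ) (t t' : St) (x y : ℕ) :
    (lift2 n1 t t') (n1 + 1 + x) (n1 + 1 + y) ↔ t' x y := by
  rw [tri_lift2_iff]
  have hx : n1 + 1 + x - n1 - 1 = x := by omega
  have hy : n1 + 1 + y - n1 - 1 = y := by omega
  rw [hx, hy]
  constructor
  · rintro (⟨h, _, _⟩ | ⟨_, _, h⟩)
    · omega
    · exact h
  · intro h
    exact Or.inr ⟨by omega, by omega, h⟩

theorem tri_lift2_lr {n1 : ℕ} (t t' : St) {x y : ℕ} (hx : x ≤ n1) : ¬ (lift2 n1 t t') x (n1 + 1 + y) := by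
  rw [tri_lift2_iff]
  rintro (⟨_, h, _⟩ | ⟨h, _, _⟩) <;> omega

theorem tri_lift2_rl {n1 : ℕ} (t t' : St) {x y : ℕ} (hy : y ≤ n1) : ¬ (lift2 n1 t t') (n1 + 1 + x) y := by
  rw [tri_lift2_iff]
  rintro (⟨h, _, _⟩ | ⟨_, h, _⟩) <;> omega

theorem tri_lift2_eq (n1 : ℕ) (t t' : St) : liftL n1 t ⊔ liftR n1 t' = lift2 n1 t t' := by
  apply le_antisymm
  · refine sup_le ?_ ?_
    · rw [Setoid.le_def]
      intro x y h
      rcases h with rfl | h
      · exact (lift2 n1 t t').refl _
      · exact Or.inl h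
    · rw [Setoid.le_def]
      intro x y h
      rcases h with rfl | h
      · exact (lift2 n1 t t').refl _
      · exact Or.inr h
  · rw [Setoid.le_def]
    intro x y h
    have h1 : liftL n1 t ≤ liftL n1 t ⊔ liftR n1 t' := le_sup_left
    have h2 : liftR n1 t' ≤ liftL n1 t ⊔ liftR n1 t' := le_sup_right
    rw [Setoid.le_def] at h1 h2
    rcases h with h | h
    · exact h1 (Or.inr h)
    · exact h2 (Or.inr h)

theorem tri_cross_iff (n1 n2 : ℕ) (t1 t2 σ : St) :
    cross n1 n2 t1 t2 σ ↔ (σ ⊔ lift2 n1 t1 t2) n1 (n1 + n2 + 1) := by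
  unfold cross
  rw [sup_assoc, tri_lift2_eq]

/-- to prove an equality of partitions it is enough to look at the four cases -/
theorem tri_ext_cases (n1 : ℕ) {S T : St} (h1 : ∀ x y, x ≤ n1 → y ≤ n1 → (S x y ↔ T x y))
    (h2 : ∀ x y, x ≤ n1 → (S x (n1 + 1 + y) ↔ T x (n1 + 1 + y)))
    (h3 : ∀ x y, (S (n1 + 1 + x) (n1 + 1 + y) ↔ T (n1 + 1 + x) (n1 + 1 + y))) : S = T := by
  ext x y
  rcases Nat.lt_or_ge n1 x with hx | hx
  · obtain ⟨a, rfl⟩ : ∃ a, x = n1 + 1 + a := ⟨x - n1 - 1, by omega⟩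
    rcases Nat.lt_or_ge n1 y with hy | hy
    · obtain ⟨b, rfl⟩ : ∃ b, y = n1 + 1 + b := ⟨y - n1 - 1, by omega⟩
      exact h3 a b
    · constructor
      · intro h
        exact T.symm ((h2 y a hy).1 (S.symm h))
      · intro h
        exact S.symm ((h2 y a hy).2 (T.symm h))
  · rcases Nat.lt_or_ge n1 y with hy | hy
    · obtain ⟨b, rfl⟩ : ∃ b, y = n1 + 1 + b := ⟨y - n1 - 1, by omega⟩
      exact h2 x b hx
    · exact h1 x y hx hy

theorem tri_lift2_detachL {n1 k : ℕ} (hk : k ≤ n1) (t t' : St) :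
    detach k (lift2 n1 t t') = lift2 n1 (detach k t) t' := by
  apply tri_ext_cases n1
  · intro x y hx hy
    rw [ha_detach_iff, tri_lift2_ll _ _ hx hy, tri_lift2_ll _ _ hx hy, ha_detach_iff]
  · intro x y hx
    have e : x ≠ n1 + 1 + y := by omega
    simp only [ha_detach_iff, tri_lift2_lr _ _ hx, e, and_false, or_false]
  · intro x y
    rw [ha_detach_iff, tri_lift2_rr, tri_lift2_rr]
    constructor
    · rintro (h | ⟨_, _, h⟩)
      · have : x = y := by omega
        rw [this]
      · exact h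
    · intro h
      exact Or.inr ⟨by omega, by omega, h⟩

theorem tri_lift2_detachR (n1 k : ℕ) (t t' : St) :
    detach (n1 + 1 + k) (lift2 n1 t t') = lift2 n1 t (detach k t') := by
  apply tri_ext_cases n1
  · intro x y hx hy
    rw [ha_detach_iff, tri_lift2_ll _ _ hx hy, tri_lift2_ll _ _ hx hy]
    constructor
    · rintro (h | ⟨_, _, h⟩)
      · rw [h]
      · exact h
    · intro h
      exact Or.inr ⟨by omega, by omega, h⟩
  · intro x y hx
    have e : x ≠ n1 + 1 + y := by omega
    simp only [ha_detach_iff, tri_lift2_lr _ _ hx, e, and_false, or_false]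
  · intro x y
    rw [ha_detach_iff, tri_lift2_rr, tri_lift2_rr, ha_detach_iff]
    constructor
    · rintro (h | ⟨h1, h2, h⟩)
      · exact Or.inl (by omega)
      · exact Or.inr ⟨by omega, by omega, h⟩
    · rintro (h | ⟨h1, h2, h⟩)
      · exact Or.inl (by omega)
      · exact Or.inr ⟨by omega, by omega, h⟩

theorem tri_lift2_joinL {n1 k : ℕ} (hk : k + 1 ≤ n1) (t t' : St) :
    join k (k + 1) (lift2 n1 t t') = lift2 n1 (join k (k + 1) t) t' := by
  have hk' : k ≤ n1 := by omega
  apply tri_ext_cases n1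
  · intro x y hx hy
    rw [ha_join_iff, tri_lift2_ll _ _ hx hy, tri_lift2_ll _ _ hx hy, tri_lift2_ll _ _ hx hk',
      tri_lift2_ll _ _ hk hy, tri_lift2_ll _ _ hx hk, tri_lift2_ll _ _ hk' hy, ha_join_iff]
  · intro x y hx
    simp only [ha_join_iff, tri_lift2_lr _ _ hx, tri_lift2_lr _ _ hk, tri_lift2_lr _ _ hk', and_false, or_false]
  · intro x y
    rw [ha_join_iff, tri_lift2_rr, tri_lift2_rr]
    simp only [tri_lift2_rl _ _ hk, tri_lift2_rl _ _ hk', false_and, or_false]

theorem tri_lift2_joinR (n1 k : ℕ) (t t' : St) :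
    join (n1 + 1 + k) (n1 + 1 + (k + 1)) (lift2 n1 t t') = lift2 n1 t (join k (k + 1) t') := by
  apply tri_ext_cases n1
  · intro x y hx hy
    rw [ha_join_iff, tri_lift2_ll _ _ hx hy, tri_lift2_ll _ _ hx hy]
    simp only [tri_lift2_lr _ _ hx, false_and, or_false]
  · intro x y hx
    simp only [ha_join_iff, tri_lift2_lr _ _ hx, false_and, or_false]
  · intro x y
    simp only [ha_join_iff, tri_lift2_rr]

theorem tri_lift2_comapL {n1 k : ℕ} (hk : k ≤ n1 + 1) (t t' : St) :
    Setoid.comap (skip k) (lift2 (n1 + 1) t t') = lift2 n1 (Setoid.comap (skip k) t) t' := by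
  have e1 : ∀ x, x ≤ n1 → skip k x ≤ n1 + 1 := by
    intro x hx
    unfold skip
    split_ifs <;> omega
  have e2 : ∀ x, skip k (n1 + 1 + x) = n1 + 1 + 1 + x := by
    intro x
    unfold skip
    split_ifs <;> omega
  apply tri_ext_cases n1
  · intro x y hx hy
    rw [Setoid.comap_rel, tri_lift2_ll _ _ (e1 x hx) (e1 y hy), tri_lift2_ll _ _ hx hy]
    exact Iff.rfl
  · intro x y hx
    rw [Setoid.comap_rel, e2]
    simp only [tri_lift2_lr _ _ hx, tri_lift2_lr _ _ (e1 x hx)]
  · intro x y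
    rw [Setoid.comap_rel, e2, e2, tri_lift2_rr, tri_lift2_rr]

theorem tri_lift2_comapR (n1 k : ℕ) (t t' : St) :
    Setoid.comap (skip (n1 + 1 + k)) (lift2 n1 t t') = lift2 n1 t (Setoid.comap (skip k) t') := by
  have e1 : ∀ x, x ≤ n1 → skip (n1 + 1 + k) x = x := by
    intro x hx
    unfold skip
    split_ifs <;> omega
  have e2 : ∀ x, skip (n1 + 1 + k) (n1 + 1 + x) = n1 + 1 + skip k x := by
    intro x
    unfold skip
    split_ifs <;> omega
  apply tri_ext_cases n1
  · intro x y hx hy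
    rw [Setoid.comap_rel, e1 x hx, e1 y hy, tri_lift2_ll _ _ hx hy, tri_lift2_ll _ _ hx hy]
  · intro x y hx
    rw [Setoid.comap_rel, e2, e1 x hx]
    simp only [tri_lift2_lr _ _ hx]
  · intro x y
    rw [Setoid.comap_rel, e2, e2, tri_lift2_rr, tri_lift2_rr]
    exact Iff.rfl

/-! ### the join of two partitions -/

theorem tri_detach_sup_one {k : ℕ} (σ τ : St) {a b : ℕ} (ha : a ≠ k) (hb : b ≠ k)
    (h : (detach k σ ⊔ τ) a b) : (σ ⊔ detach k τ) a b := by
  have h3 := ha_detach_sup k σ τ ha hb h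
  have h4 : detach k σ ⊔ detach k τ ≤ σ ⊔ detach k τ := sup_le_sup_right (ha_detach_le k σ) _
  rw [Setoid.le_def] at h4
  exact h4 h3

theorem tri_detach_sup {k : ℕ} (σ τ : St) {a b : ℕ} (ha : a ≠ k) (hb : b ≠ k) :
    (detach k σ ⊔ τ) a b ↔ (σ ⊔ detach k τ) a b := by
  constructor
  · exact tri_detach_sup_one σ τ ha hb
  · intro h
    rw [sup_comm] at h ⊢
    exact tri_detach_sup_one τ σ ha hb h

theorem tri_join_sup_le (j k : ℕ) (σ τ : St) : join j k σ ⊔ τ ≤ σ ⊔ join j k τ := by
  have h5 : join j k τ ≤ σ ⊔ join j k τ := le_sup_right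
  refine sup_le (ha_join_le le_sup_left ?_) ((ha_le_join _ _ _).trans le_sup_right)
  rw [Setoid.le_def] at h5
  exact h5 (ha_join_pair _ _ _)

theorem tri_join_sup (j k : ℕ) (σ τ : St) : join j k σ ⊔ τ = σ ⊔ join j k τ := by
  apply le_antisymm (tri_join_sup_le j k σ τ)
  rw [sup_comm σ, sup_comm (join j k σ)]
  exact tri_join_sup_le j k τ σ

theorem tri_insS_sup (k : ℕ) (σ τ : St) (a b : ℕ) :
    (insS k σ ⊔ τ) (skip k a) (skip k b) ↔ (σ ⊔ Setoid.comap (skip k) τ) a b := by
  constructor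
  · intro h
    have hd : detach k (insS k σ) = insS k σ := by
      ext x y
      rw [ha_detach_iff, ha_insS_iff]
      tauto
    rw [← hd] at h
    have h3 := ha_detach_sup k (insS k σ) τ (ha_skip_ne k a) (ha_skip_ne k b) h
    rw [hd] at h3
    have h4 : insS k σ ⊔ detach k τ ≤ insS k (σ ⊔ Setoid.comap (skip k) τ) := by
      refine sup_le ?_ ?_
      · rw [Setoid.le_def]
        intro x y hxy
        rw [ha_insS_iff] at hxy ⊢
        rcases hxy with h5 | ⟨h5, h6, h7⟩
        · exact Or.inl h5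
        · refine Or.inr ⟨h5, h6, ?_⟩
          have h8 : σ ≤ σ ⊔ Setoid.comap (skip k) τ := le_sup_left
          rw [Setoid.le_def] at h8
          exact h8 h7
      · rw [Setoid.le_def]
        intro x y hxy
        rw [ha_detach_iff] at hxy
        rw [ha_insS_iff]
        rcases hxy with h5 | ⟨h5, h6, h7⟩
        · exact Or.inl h5
        · refine Or.inr ⟨h5, h6, ?_⟩
          have h8 : Setoid.comap (skip k) τ ≤ σ ⊔ Setoid.comap (skip k) τ := le_sup_right
          rw [Setoid.le_def] at h8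
          refine h8 ?_
          rw [Setoid.comap_rel, ha_skip_unskip h5, ha_skip_unskip h6]
          exact h7
    rw [Setoid.le_def] at h4
    have h5 := h4 h3
    rw [ha_insS_iff, ha_unskip_skip, ha_unskip_skip] at h5
    rcases h5 with h5 | ⟨_, _, h5⟩
    · have e : a = b := by
        rw [← ha_unskip_skip k a, h5, ha_unskip_skip]
      rw [e]
    · exact h5
  · intro h
    have h4 : σ ⊔ Setoid.comap (skip k) τ ≤ Setoid.comap (skip k) (insS k σ ⊔ τ) := by
      refine sup_le ?_ ?_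
      · rw [Setoid.le_def]
        intro x y hxy
        rw [Setoid.comap_rel]
        have h8 : insS k σ ≤ insS k σ ⊔ τ := le_sup_left
        rw [Setoid.le_def] at h8
        refine h8 ?_
        rw [ha_insS_iff, ha_unskip_skip, ha_unskip_skip]
        exact Or.inr ⟨ha_skip_ne k x, ha_skip_ne k y, hxy⟩
      · rw [Setoid.le_def]
        intro x y hxy
        rw [Setoid.comap_rel] at hxy ⊢
        have h8 : τ ≤ insS k σ ⊔ τ := le_sup_right
        rw [Setoid.le_def] at h8
        exact h8 hxy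
    rw [Setoid.le_def] at h4
    exact h4 h

theorem tri_coll_sup (k : ℕ) (σ τ : St) (a b : ℕ) :
    (Setoid.comap (coll k) σ ⊔ τ) a b ↔
      (σ ⊔ Setoid.comap (skip (k + 1)) (join k (k + 1) τ)) (coll k a) (coll k b) := by
  constructor
  · intro h
    have h4 : Setoid.comap (coll k) σ ⊔ τ ≤
        Setoid.comap (coll k) (σ ⊔ Setoid.comap (skip (k + 1)) (join k (k + 1) τ)) := by
      refine sup_le ?_ ?_
      · rw [Setoid.le_def]
        intro x y hxy
        rw [Setoid.comap_rel] at hxy ⊢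
        have h8 : σ ≤ σ ⊔ Setoid.comap (skip (k + 1)) (join k (k + 1) τ) := le_sup_left
        rw [Setoid.le_def] at h8
        exact h8 hxy
      · rw [Setoid.le_def]
        intro x y hxy
        rw [Setoid.comap_rel]
        have h8 : Setoid.comap (skip (k + 1)) (join k (k + 1) τ) ≤
          σ ⊔ Setoid.comap (skip (k + 1)) (join k (k + 1) τ) := le_sup_right
        rw [Setoid.le_def] at h8
        refine h8 ?_
        rw [Setoid.comap_rel]
        have hz : ∀ z, (join k (k + 1) τ) (skip (k + 1) (coll k z)) z := by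
          intro z
          by_cases hz : z = k + 1
          · have e : skip (k + 1) (coll k z) = k := by
              unfold skip coll; split_ifs <;> omega
            rw [e, hz]
            exact ha_join_pair _ _ _
          · have e : skip (k + 1) (coll k z) = z := by
              unfold skip coll; split_ifs <;> omega
            rw [e]
        have h9 := ha_le_join k (k + 1) τ
        rw [Setoid.le_def] at h9
        exact (join k (k + 1) τ).trans (hz x) ((join k (k + 1) τ).trans (h9 hxy)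
          ((join k (k + 1) τ).symm (hz y)))
    rw [Setoid.le_def] at h4
    exact h4 h
  · intro h
    set S : St := Setoid.comap (coll k) σ ⊔ τ with hS
    have hS1 : Setoid.comap (coll k) σ ≤ S := le_sup_left
    have hS2 : τ ≤ S := le_sup_right
    have hkk : S k (k + 1) := by
      rw [Setoid.le_def] at hS1
      refine hS1 ?_
      rw [Setoid.comap_rel]
      have e : coll k k = coll k (k + 1) := by unfold coll; split_ifs <;> omega
      rw [e]
    have h4 : σ ⊔ Setoid.comap (skip (k + 1)) (join k (k + 1) τ) ≤ Setoid.comap (skip (k + 1)) S := by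
      refine sup_le ?_ ?_
      · rw [Setoid.le_def]
        intro x y hxy
        rw [Setoid.comap_rel]
        rw [Setoid.le_def] at hS1
        refine hS1 ?_
        rw [Setoid.comap_rel, ha_coll_skip, ha_coll_skip]
        exact hxy
      · rw [Setoid.le_def]
        intro x y hxy
        rw [Setoid.comap_rel] at hxy ⊢
        have h9 : join k (k + 1) τ ≤ S := ha_join_le hS2 hkk
        rw [Setoid.le_def] at h9
        exact h9 hxy
    rw [Setoid.le_def] at h4
    have h5 := h4 h
    rw [Setoid.comap_rel] at h5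
    have hz : ∀ z, S (skip (k + 1) (coll k z)) z := by
      intro z
      by_cases hz : z = k + 1
      · have e : skip (k + 1) (coll k z) = k := by
          unfold skip coll; split_ifs <;> omega
        rw [e, hz]
        exact hkk
      · have e : skip (k + 1) (coll k z) = z := by
          unfold skip coll; split_ifs <;> omega
        rw [e]
    exact S.trans (S.symm (hz a)) (S.trans h5 (hz b))

/-! ### the generators and the arcs on states -/

theorem tri_cross_actL {n1 n2 i : ℕ} (hi : i < 2 * n1) (t1 t2 σ : St) :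
    cross n1 n2 (act i t1) t2 σ ↔ cross n1 n2 t1 t2 (act i σ) := by
  rw [tri_cross_iff, tri_cross_iff]
  rcases Nat.even_or_odd' i with ⟨k, rfl | rfl⟩
  · rw [ha_act_even, ha_act_even, ← tri_lift2_detachL (by omega)]
    exact (tri_detach_sup _ _ (by omega) (by omega)).symm
  · rw [ha_act_odd, ha_act_odd, ← tri_lift2_joinL (by omega), tri_join_sup]

theorem tri_cross_actR {n1 n2 j : ℕ} (hj : j < 2 * n2) (t1 t2 σ : St) :
    cross n1 n2 t1 (act j t2) σ ↔ cross n1 n2 t1 t2 (act (2 * n1 + 2 + j) σ) := by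
  rw [tri_cross_iff, tri_cross_iff]
  rcases Nat.even_or_odd' j with ⟨k, rfl | rfl⟩
  · have e : 2 * n1 + 2 + 2 * k = 2 * (n1 + 1 + k) := by ring
    rw [e, ha_act_even, ha_act_even, ← tri_lift2_detachR]
    exact (tri_detach_sup _ _ (by omega) (by omega)).symm
  · have e : 2 * n1 + 2 + (2 * k + 1) = 2 * (n1 + 1 + k) + 1 := by ring
    have e' : n1 + 1 + k + 1 = n1 + 1 + (k + 1) := by ring
    rw [e, ha_act_odd, ha_act_odd, ← tri_lift2_joinR, e', tri_join_sup]

theorem tri_cross_insL {n1 n2 i : ℕ} (hi : i ≤ 2 * n1 + 1) (t1 t2 σ : St) :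
    cross (n1 + 1) n2 t1 t2 (ins i σ) ↔ cross n1 n2 (del i t1) t2 σ := by
  rw [tri_cross_iff, tri_cross_iff]
  rcases Nat.even_or_odd' i with ⟨k, rfl | rfl⟩
  · rw [ha_ins_even, ha_del_even, ← tri_lift2_comapL (by omega), ← tri_insS_sup]
    have e1 : skip k n1 = n1 + 1 := by unfold skip; split_ifs <;> omega
    have e2 : skip k (n1 + n2 + 1) = n1 + 1 + n2 + 1 := by unfold skip; split_ifs <;> omega
    rw [e1, e2]
  · rw [ha_ins_odd, ha_del_odd, ← tri_lift2_comapL (by omega), ← tri_lift2_joinL (by omega)]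
    refine (tri_coll_sup k σ _ _ _).trans ?_
    have e1 : coll k (n1 + 1) = n1 := by unfold coll; split_ifs <;> omega
    have e2 : coll k (n1 + 1 + n2 + 1) = n1 + n2 + 1 := by unfold coll; split_ifs <;> omega
    rw [e1, e2]

theorem tri_cross_insR {n1 n2 j : ℕ} (hj : j ≤ 2 * n2 + 1) (t1 t2 σ : St) :
    cross n1 (n2 + 1) t1 t2 (ins (2 * n1 + 2 + j) σ) ↔ cross n1 n2 t1 (del j t2) σ := by
  rw [tri_cross_iff, tri_cross_iff]
  rcases Nat.even_or_odd' j with ⟨k, rfl | rfl⟩
  · have e : 2 * n1 + 2 + 2 * k = 2 * (n1 + 1 + k) := by ring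
    rw [e, ha_ins_even, ha_del_even, ← tri_lift2_comapR, ← tri_insS_sup]
    have e1 : skip (n1 + 1 + k) n1 = n1 := by unfold skip; split_ifs <;> omega
    have e2 : skip (n1 + 1 + k) (n1 + n2 + 1) = n1 + (n2 + 1) + 1 := by unfold skip; split_ifs <;> omega
    rw [e1, e2]
  · have e : 2 * n1 + 2 + (2 * k + 1) = 2 * (n1 + 1 + k) + 1 := by ring
    have e' : n1 + 1 + k + 1 = n1 + 1 + (k + 1) := by ring
    rw [e, ha_ins_odd, ha_del_odd, ← tri_lift2_comapR, ← tri_lift2_joinR]
    refine (tri_coll_sup (n1 + 1 + k) σ _ _ _).trans ?_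
    rw [e']
    have e1 : coll (n1 + 1 + k) n1 = n1 := by unfold coll; split_ifs <;> omega
    have e2 : coll (n1 + 1 + k) (n1 + (n2 + 1) + 1) = n1 + n2 + 1 := by unfold coll; split_ifs <;> omega
    rw [e1, e2]

theorem tri_cf_congr {n1 n2 m1 m2 : ℕ} {t1 t2 σ u1 u2 τ : St}
    (h : cross n1 n2 t1 t2 σ ↔ cross m1 m2 u1 u2 τ) : cf n1 n2 t1 t2 σ = cf m1 m2 u1 u2 τ := by
  unfold cf
  by_cases h1 : cross n1 n2 t1 t2 σ
  · rw [if_pos h1, if_pos (h.1 h1)]
  · rw [if_neg h1, if_neg (fun h2 => h1 (h.2 h2))]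

/-! ### adjointness -/

theorem tri_E_left {n1 n2 i : ℕ} (h : i < 2 * n1) (v1 v2 v : M) :
    tri n1 n2 (E i v1) v2 v = tri n1 n2 v1 v2 (E i v) := by
  classical
  induction v1 using Finsupp.induction_linear with
  | zero => rw [map_zero, tri_zero1, tri_zero1]
  | add w w' h1 h2 => rw [map_add, tri_add1, tri_add1, h1, h2]
  | single t1 x1 =>
    induction v2 using Finsupp.induction_linear with
    | zero => rw [tri_zero2, tri_zero2]
    | add w w' h1 h2 => rw [tri_add2, tri_add2, h1, h2]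
    | single t2 x2 =>
      induction v using Finsupp.induction_linear with
      | zero => rw [map_zero, tri_zero3, tri_zero3]
      | add w w' h1 h2 => rw [map_add, tri_add3, tri_add3, h1, h2]
      | single σ x =>
        rw [E_single, E_single, tri_single, tri_single, tri_cf_congr (tri_cross_actL h t1 t2 σ)]

theorem tri_E_right {n1 n2 j : ℕ} (h : j < 2 * n2) (v1 v2 v : M) :
    tri n1 n2 v1 (E j v2) v = tri n1 n2 v1 v2 (E (2 * n1 + 2 + j) v) := by
  classical
  induction v1 using Finsupp.induction_linear with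
  | zero => rw [tri_zero1, tri_zero1]
  | add w w' h1 h2 => rw [tri_add1, tri_add1, h1, h2]
  | single t1 x1 =>
    induction v2 using Finsupp.induction_linear with
    | zero => rw [map_zero, tri_zero2, tri_zero2]
    | add w w' h1 h2 => rw [map_add, tri_add2, tri_add2, h1, h2]
    | single t2 x2 =>
      induction v using Finsupp.induction_linear with
      | zero => rw [map_zero, tri_zero3, tri_zero3]
      | add w w' h1 h2 => rw [map_add, tri_add3, tri_add3, h1, h2]
      | single σ x =>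
        rw [E_single, E_single, tri_single, tri_single, tri_cf_congr (tri_cross_actR h t1 t2 σ)]

theorem tri_Rt_left {n1 n2 i : ℕ} (h : i < 2 * n1) (u : ℝ) (v1 v2 v : M) :
    tri n1 n2 (Rt i u v1) v2 v = tri n1 n2 v1 v2 (Rt i u v) := by
  unfold Rt
  simp only [LinearMap.add_apply, LinearMap.smul_apply, LinearMap.id_apply]
  rw [tri_add1, tri_add3, tri_smul1, tri_smul1, tri_smul3, tri_smul3, tri_E_left h]

theorem tri_Rt_right {n1 n2 j : ℕ} (h : j < 2 * n2) (u : ℝ) (v1 v2 v : M) :
    tri n1 n2 v1 (Rt j u v2) v = tri n1 n2 v1 v2 (Rt (2 * n1 + 2 + j) u v) := by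
  unfold Rt
  simp only [LinearMap.add_apply, LinearMap.smul_apply, LinearMap.id_apply]
  rw [tri_add2, tri_add3, tri_smul2, tri_smul2, tri_smul3, tri_smul3, tri_E_right h]

/-- the lower vector carries the arc `(i, i+1)`, `i+1 ≤ 2 n1 + 2`, inserted into a lower vector with two strands less -/
theorem tri_In_left' {n1 n2 i : ℕ} (h : i ≤ 2 * n1 + 1) (v1 v2 v : M) :
    tri (n1 + 1) n2 v1 v2 (In i v) = tri n1 n2 (De i v1) v2 v := by
  classical
  induction v1 using Finsupp.induction_linear with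
  | zero => rw [map_zero, tri_zero1, tri_zero1]
  | add w w' h1 h2 => rw [map_add, tri_add1, tri_add1, h1, h2]
  | single t1 x1 =>
    induction v2 using Finsupp.induction_linear with
    | zero => rw [tri_zero2, tri_zero2]
    | add w w' h1 h2 => rw [tri_add2, tri_add2, h1, h2]
    | single t2 x2 =>
      induction v using Finsupp.induction_linear with
      | zero => rw [map_zero, tri_zero3, tri_zero3]
      | add w w' h1 h2 => rw [map_add, tri_add3, tri_add3, h1, h2]
      | single σ x =>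
        rw [In_single, De_single, tri_single, tri_single, tri_cf_congr (tri_cross_insL h t1 t2 σ)]

theorem tri_In_right' {n1 n2 j : ℕ} (h : j ≤ 2 * n2 + 1) (v1 v2 v : M) :
    tri n1 (n2 + 1) v1 v2 (In (2 * n1 + 2 + j) v) = tri n1 n2 v1 (De j v2) v := by
  classical
  induction v1 using Finsupp.induction_linear with
  | zero => rw [tri_zero1, tri_zero1]
  | add w w' h1 h2 => rw [tri_add1, tri_add1, h1, h2]
  | single t1 x1 =>
    induction v2 using Finsupp.induction_linear with
    | zero => rw [map_zero, tri_zero2, tri_zero2]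
    | add w w' h1 h2 => rw [map_add, tri_add2, tri_add2, h1, h2]
    | single t2 x2 =>
      induction v using Finsupp.induction_linear with
      | zero => rw [map_zero, tri_zero3, tri_zero3]
      | add w w' h1 h2 => rw [map_add, tri_add3, tri_add3, h1, h2]
      | single σ x =>
        rw [In_single, De_single, tri_single, tri_single, tri_cf_congr (tri_cross_insR h t1 t2 σ)]

/-- the lower vector carries the arc `(i, i+1)`, `i+1 ≤ 2 n1 + 2`, inserted into a lower vector with two strands less -/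
theorem tri_In_left {n1 n2 i : ℕ} (h : i ≤ 2 * n1 + 1) {v1 v2 v : M} (_h1 : v1 ∈ Sup (W (n1 + 1)))
    (_h2 : v2 ∈ Sup (W n2)) (_h3 : v ∈ Sup (W (n1 + n2 + 1))) :
    tri (n1 + 1) n2 v1 v2 (In i v) = tri n1 n2 (De i v1) v2 v := tri_In_left' h v1 v2 v

theorem tri_In_right {n1 n2 j : ℕ} (h : j ≤ 2 * n2 + 1) {v1 v2 v : M} (_h1 : v1 ∈ Sup (W n1))
    (_h2 : v2 ∈ Sup (W (n2 + 1))) (_h3 : v ∈ Sup (W (n1 + n2 + 1))) :
    tri n1 (n2 + 1) v1 v2 (In (2 * n1 + 2 + j) v) = tri n1 n2 v1 (De j v2) v := tri_In_right' h v1 v2 v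

end IP.Slit
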