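import Pool.Agent.Helper60.Slit.Base
/-! MODULE UNIQ-A (up to `Df_wheelY`): the main identity.  Put `Df m k b = 4^(..) SS m k b VV - AA`.
As a function of one coordinate it is even and a `TP`, i.e. a polynomial in `xx b i` (`TP_even_poly`).
`Df_X`: (2m ≥ k+2) polynomial in `x_0` of degree `≤ 4m+k+1`, zeros: `x_0 = x_j` (`2m` points, antisymmetry), the wheel points
`x_0 = 2cos(2 b_j ± 2π/3)`, `1 ≤ j ≤ 2m` (`4m` points; by `SS_recX`, `AA_recX`, the case `(m-1,k)`; after exchanges and reflections).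
`Df_Y`: (2k ≥ m+2) polynomial in `x_{2m+2}` of degree `≤ m+2k+1`, zeros: the `4k` wheel points.
`(1,1)`: `Df` is, in `x_0`, a constant times `∏_{i=1,2} qq(x_0,x_i) * (x_0-x_1)(x_0-x_2)` (degree 6 = 4m+k+1, 6 zeros), ... so in `b_0`:
if `Df = 0` for one generic value of `b_0` then for all; the same for `b_1`, `b_2` by antisymmetry; in `y_0` (degree `≤ 4 = 4k` zeros): the same.
So for generic `b`: change `b_4, b_5, b_6` and `b_0, b_1, b_2` one by one to reach a special point of `main_special` (with the same `b_3`).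
Generic points: `Gn`, `Gn_line` (IP/NformB) or `Sep.eq_zero_of_line`; conclusion for all `b` by continuity. -/
namespace IP.Slit
open IP Finset Real

noncomputable def Df (m k : ℕ) (b : ℕ → ℝ) : ℝ :=
  4 ^ ((m + k + 1) ^ 2 + m ^ 2 + k ^ 2) * SS m k b * VV (2 * m + 1) (xx b) - AA m k (xpp b (2 * m + 1)) (xx b)

/-- `cos (j θ)` is a polynomial in `2 cos θ` -/
theorem uniqA_cheb (j : ℕ) : ∃ P : Polynomial ℝ, P.natDegree ≤ j ∧
    ∀ t : ℝ, P.eval (2 * Real.cos t) = Real.cos (j * t) := by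
  have key : ∀ j : ℕ, (∃ P : Polynomial ℝ, P.natDegree ≤ j ∧ ∀ t : ℝ, P.eval (2 * Real.cos t) = Real.cos (j * t)) ∧
      (∃ P : Polynomial ℝ, P.natDegree ≤ j + 1 ∧
        ∀ t : ℝ, P.eval (2 * Real.cos t) = Real.cos ((j + 1 : ℕ) * t)) := by
    intro j
    induction j with
    | zero =>
      refine ⟨⟨1, by simp, fun t => by simp⟩, ⟨Polynomial.C (1 / 2) * Polynomial.X, ?_, fun t => ?_⟩⟩
      · exact (Polynomial.natDegree_C_mul_le _ _).trans (by simp)
      · simp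
    | succ j ih =>
      obtain ⟨⟨P, hP, h1⟩, ⟨Q, hQ, h2⟩⟩ := ih
      refine ⟨⟨Q, hQ, h2⟩, ⟨Polynomial.X * Q - P, ?_, fun t => ?_⟩⟩
      · refine (Polynomial.natDegree_sub_le _ _).trans (max_le ?_ (by omega))
        refine Polynomial.natDegree_mul_le.trans ?_
        rw [Polynomial.natDegree_X]
        omega
      · rw [Polynomial.eval_sub, Polynomial.eval_mul, Polynomial.eval_X, h1, h2]
        have e1 : ((j + 1 + 1 : ℕ) : ℝ) * t = ((j + 1 : ℕ) : ℝ) * t + t := by push_cast; ring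
        have e2 : ((j : ℕ) : ℝ) * t = ((j + 1 : ℕ) : ℝ) * t - t := by push_cast; ring
        rw [e1, e2, Real.cos_add, Real.cos_sub]
        ring
  exact (key j).1

/-- an even trigonometric polynomial is a polynomial in `2 cos 2x` -/
theorem TP_even_poly {N : ℕ} {F : ℝ → ℝ} (hF : TP (2 * N) F) (he : ∀ x, F (-x) = F x) :
    ∃ P : Polynomial ℝ, P.natDegree ≤ N ∧ ∀ x, F x = P.eval (2 * Real.cos (2 * x)) := by
  obtain ⟨P, hP, h1⟩ := hF
  -- the cosine expansion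
  have hexp : ∀ x : ℝ, F x = ∑ j ∈ range (2 * N + 1),
      ((P.coeff j).re * Real.cos ((((j : ℤ) - (N : ℤ) : ℤ) : ℝ) * (2 * x)) -
        (P.coeff j).im * Real.sin ((((j : ℤ) - (N : ℤ) : ℤ) : ℝ) * (2 * x))) := by
    intro x
    have h2 : (F x : ℂ) = ∑ j ∈ range (2 * N + 1),
        P.coeff j * Complex.exp (((((j : ℤ) - (N : ℤ) : ℤ) : ℝ) * (2 * x) : ℝ) * Complex.I) := by
      rw [h1 x, Polynomial.eval_eq_sum_range' (Nat.lt_succ_of_le hP), mul_sum]
      refine sum_congr rfl fun j _ => ?_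
      rw [← Complex.exp_nat_mul, mul_left_comm, ← Complex.exp_add]
      congr 2
      push_cast
      ring
    have h3 := congrArg Complex.re h2
    rw [Complex.ofReal_re, Complex.re_sum] at h3
    rw [h3]
    refine sum_congr rfl fun j _ => ?_
    rw [Complex.mul_re, Complex.exp_ofReal_mul_I_re, Complex.exp_ofReal_mul_I_im]
  have heven : ∀ x : ℝ, F x = ∑ j ∈ range (2 * N + 1),
      (P.coeff j).re * Real.cos ((((j : ℤ) - (N : ℤ)).natAbs : ℝ) * (2 * x)) := by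
    intro x
    have h2 : F x = (F x + F (-x)) / 2 := by rw [he x]; ring
    rw [h2, hexp x, hexp (-x), ← sum_add_distrib, sum_div]
    refine sum_congr rfl fun j _ => ?_
    have e1 : ((((j : ℤ) - (N : ℤ) : ℤ) : ℝ) * (2 * -x)) = -((((j : ℤ) - (N : ℤ) : ℤ) : ℝ) * (2 * x)) := by ring
    rw [e1, Real.cos_neg, Real.sin_neg]
    have e2 : Real.cos ((((j : ℤ) - (N : ℤ)).natAbs : ℝ) * (2 * x)) =
        Real.cos ((((j : ℤ) - (N : ℤ) : ℤ) : ℝ) * (2 * x)) := by
      have e3 : ((((j : ℤ) - (N : ℤ)).natAbs : ℕ) : ℝ) = |(((j : ℤ) - (N : ℤ) : ℤ) : ℝ)| := by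
        rw [Nat.cast_natAbs, Int.cast_abs]
      rw [e3]
      rcases abs_choice ((((j : ℤ) - (N : ℤ) : ℤ) : ℝ)) with h | h
      · rw [h]
      · rw [h, neg_mul, Real.cos_neg]
    rw [e2]
    ring
  choose Q hQ1 hQ2 using uniqA_cheb
  refine ⟨∑ j ∈ range (2 * N + 1), Polynomial.C ((P.coeff j).re) * Q (((j : ℤ) - (N : ℤ)).natAbs), ?_, fun x => ?_⟩
  · refine Polynomial.natDegree_sum_le_of_forall_le _ _ fun j hj => ?_
    refine (Polynomial.natDegree_C_mul_le _ _).trans ((hQ1 _).trans ?_)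
    rw [mem_range] at hj
    omega
  · rw [heven x, Polynomial.eval_finsetSum]
    refine sum_congr rfl fun j _ => ?_
    rw [Polynomial.eval_mul, Polynomial.eval_C, hQ2]

theorem uniqA_xx_continuous : Continuous (fun b : ℕ → ℝ => xx b) := by
  unfold xx
  fun_prop

theorem uniqA_xpp_continuous (j : ℕ) : Continuous (fun b : ℕ → ℝ => xpp b j) := by
  unfold xpp
  fun_prop

theorem uniqA_VV_continuous (r : ℕ) : Continuous (fun x : ℕ → ℝ => VV r x) := by
  unfold VV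
  fun_prop

theorem Df_continuous (m k : ℕ) : Continuous (Df m k) := by
  unfold Df
  have h1 := SS_continuous m k
  have h2 : Continuous (fun b : ℕ → ℝ => VV (2 * m + 1) (xx b)) := (uniqA_VV_continuous _).comp uniqA_xx_continuous
  have h3 : Continuous (fun b : ℕ → ℝ => AA m k (xpp b (2 * m + 1)) (xx b)) :=
    (AA_continuous m k).comp ((uniqA_xpp_continuous _).prodMk uniqA_xx_continuous)
  exact ((continuous_const.mul h1).mul h2).sub h3

theorem uniqA_xx_ng (i : ℕ) (b : ℕ → ℝ) : xx (ng i b) = xx b := by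
  funext j
  unfold xx ng
  by_cases h : j = i
  · subst h
    rw [Function.update_self, mul_neg, Real.cos_neg]
  · rw [Function.update_of_ne h]

theorem uniqA_xpp_of {b b' : ℕ → ℝ} {j j' : ℕ} (h : b j = b' j') : xpp b j = xpp b' j' := by
  unfold xpp
  rw [h]

theorem uniqA_xx_sw (i : ℕ) (b : ℕ → ℝ) : xx (sw i b) = fun j => xx b (Equiv.swap i (i + 1) j) := rfl

theorem Df_ng {m k i : ℕ} (h : i ≤ 2 * m ∨ (2 * m + 2 ≤ i ∧ i ≤ 2 * (m + k + 1))) (b : ℕ → ℝ) : Df m k (ng i b) = Df m k b := by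
  unfold Df
  have hi : (ng i b) (2 * m + 1) = b (2 * m + 1) := by
    unfold ng
    rw [Function.update_of_ne (by omega)]
  rw [SS_ng h, uniqA_xx_ng, uniqA_xpp_of hi]

theorem uniqA_swap_ne {i j : ℕ} (h1 : j ≠ i) (h2 : j ≠ i + 1) (b : ℕ → ℝ) : sw i b j = b j := by
  unfold sw
  rw [Equiv.swap_apply_of_ne_of_ne h1 h2]

theorem Df_swX {m k i : ℕ} (h : i < 2 * m) (b : ℕ → ℝ) : Df m k (sw i b) = -Df m k b := by
  unfold Df
  rw [SS_sw (Or.inl h), uniqA_xx_sw, VV_swap (by omega), AA_swX h,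
    uniqA_xpp_of (uniqA_swap_ne (i := i) (j := 2 * m + 1) (by omega) (by omega) b)]
  ring

theorem Df_swY {m k i : ℕ} (h : 2 * m + 2 ≤ i) (h' : i < 2 * (m + k + 1)) (b : ℕ → ℝ) : Df m k (sw i b) = Df m k b := by
  unfold Df
  have e : VV (2 * m + 1) (fun j => xx b (Equiv.swap i (i + 1) j)) = VV (2 * m + 1) (xx b) := by
    refine VV_congr fun j hj => ?_
    rw [Equiv.swap_apply_of_ne_of_ne (by omega) (by omega)]
  rw [SS_sw (Or.inr ⟨h, h'⟩), uniqA_xx_sw, e, AA_swY h h',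
    uniqA_xpp_of (uniqA_swap_ne (i := i) (j := 2 * m + 1) (by omega) (by omega) b)]

theorem uniqA_xx_update (b : ℕ → ℝ) (i : ℕ) (y : ℝ) :
    xx (Function.update b i y) = Function.update (xx b) i (2 * Real.cos (2 * y)) := by
  funext j
  unfold xx
  by_cases h : j = i
  · subst h
    rw [Function.update_self, Function.update_self]
  · rw [Function.update_of_ne h, Function.update_of_ne h]

theorem uniqA_even {m k i : ℕ} (h : i ≤ 2 * m ∨ (2 * m + 2 ≤ i ∧ i ≤ 2 * (m + k + 1))) (b : ℕ → ℝ) (y : ℝ) :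
    SS m k (Function.update b i (-y)) = SS m k (Function.update b i y) := by
  have e : Function.update b i (-y) = ng i (Function.update b i y) := by
    unfold ng
    rw [Function.update_self, Function.update_idem]
  rw [e, SS_ng h]

theorem Df_polyX {m k i : ℕ} (h : i ≤ 2 * m) (b : ℕ → ℝ) : ∃ P : Polynomial ℝ, P.natDegree ≤ 4 * m + k + 1 ∧
    ∀ y, Df m k (Function.update b i y) = P.eval (2 * Real.cos (2 * y)) := by
  have h0 : TP (2 * (2 * m + k + 1)) (fun y => SS m k (Function.update b i y)) := by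
    have h1 := SS_TPx (k := k) h b
    have e : 2 * (m + k + 1) + 2 * m = 2 * (2 * m + k + 1) := by ring
    rwa [e] at h1
  obtain ⟨P, hP, h1⟩ := TP_even_poly h0 (fun y => uniqA_even (Or.inl h) b y)
  obtain ⟨Q, hQ, h2⟩ := VV_poly (r := 2 * m + 1) (i := i) (by omega) (xx b)
  obtain ⟨R, hR, h3⟩ := AA_polyX (k := k) h (xpp b (2 * m + 1)) (xx b)
  refine ⟨Polynomial.C (4 ^ ((m + k + 1) ^ 2 + m ^ 2 + k ^ 2)) * (P * Q) - R, ?_, fun y => ?_⟩
  · refine (Polynomial.natDegree_sub_le _ _).trans (max_le ?_ hR)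
    refine (Polynomial.natDegree_C_mul_le _ _).trans (Polynomial.natDegree_mul_le.trans ?_)
    omega
  · have e : Function.update b i y (2 * m + 1) = b (2 * m + 1) := Function.update_of_ne (by omega) _ _
    unfold Df
    rw [uniqA_xx_update, uniqA_xpp_of e, h2, h3]
    have h4 := h1 y
    rw [h4, Polynomial.eval_sub, Polynomial.eval_mul, Polynomial.eval_mul, Polynomial.eval_C]
    ring

theorem Df_polyY {m k i : ℕ} (h : 2 * m + 2 ≤ i) (h' : i ≤ 2 * (m + k + 1)) (b : ℕ → ℝ) :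
    ∃ P : Polynomial ℝ, P.natDegree ≤ m + 2 * k + 1 ∧
      ∀ y, Df m k (Function.update b i y) = P.eval (2 * Real.cos (2 * y)) := by
  have h0 : TP (2 * (m + 2 * k + 1)) (fun y => SS m k (Function.update b i y)) := by
    have h1 := SS_TPy h h' b
    have e : 2 * (m + k + 1) + 2 * k = 2 * (m + 2 * k + 1) := by ring
    rwa [e] at h1
  obtain ⟨P, hP, h1⟩ := TP_even_poly h0 (fun y => uniqA_even (Or.inr ⟨h, h'⟩) b y)
  obtain ⟨R, hR, h3⟩ := AA_polyY h h' (xpp b (2 * m + 1)) (xx b)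
  refine ⟨Polynomial.C (4 ^ ((m + k + 1) ^ 2 + m ^ 2 + k ^ 2) * VV (2 * m + 1) (xx b)) * P - R, ?_, fun y => ?_⟩
  · refine (Polynomial.natDegree_sub_le _ _).trans (max_le ?_ hR)
    exact (Polynomial.natDegree_C_mul_le _ _).trans hP
  · have e : Function.update b i y (2 * m + 1) = b (2 * m + 1) := Function.update_of_ne (by omega) _ _
    have e2 : VV (2 * m + 1) (Function.update (xx b) i (2 * Real.cos (2 * y))) = VV (2 * m + 1) (xx b) :=
      VV_congr fun j hj => Function.update_of_ne (by omega) _ _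
    unfold Df
    rw [uniqA_xx_update, uniqA_xpp_of e, e2, h3]
    have h4 := h1 y
    rw [h4, Polynomial.eval_sub, Polynomial.eval_mul, Polynomial.eval_C]
    ring

theorem uniqA_xx_rem (i : ℕ) (b : ℕ → ℝ) : xx (rem i b) = rmv i (xx b) := by
  funext j
  unfold xx rem rmv
  split_ifs <;> rfl

/-- the three wheel points add to zero -/
theorem uniqA_sum_zero {b : ℕ → ℝ} {i j : ℕ} (h : b j = b i + π / 3) : xx b i + xx b j = -xpp b i := by
  unfold xx xpp
  rw [h]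
  have e1 : 2 * (b i + π / 3) = 2 * b i + 2 * π / 3 := by ring
  have h3 : Real.cos (2 * π / 3) = -(1 / 2) := by
    have e : 2 * π / 3 = π - π / 3 := by ring
    rw [e, Real.cos_pi_sub, Real.cos_pi_div_three]
  rw [e1, Real.cos_add, Real.cos_sub, h3]
  ring

/-- wheel relation -/
theorem uniqA_qq_zero {b : ℕ → ℝ} {i j : ℕ} (h : b j = b i + π / 3) : qq (xx b i) (xx b j) = 0 := by
  unfold xx qq
  rw [h]
  have e1 : 2 * (b i + π / 3) = 2 * b i + 2 * π / 3 := by ring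
  have h3 : Real.cos (2 * π / 3) = -(1 / 2) := by
    have e : 2 * π / 3 = π - π / 3 := by ring
    rw [e, Real.cos_pi_sub, Real.cos_pi_div_three]
  have h4 : Real.sin (2 * π / 3) = √3 / 2 := by
    have e : 2 * π / 3 = π - π / 3 := by ring
    rw [e, Real.sin_pi_sub, Real.sin_pi_div_three]
  have h5 : √3 ^ 2 = 3 := Real.sq_sqrt (by norm_num)
  have h6 := Real.sin_sq_add_cos_sq (2 * b i)
  rw [e1, Real.cos_add, h3, h4]
  have h7 : Real.sin (2 * b i) ^ 2 = 1 - Real.cos (2 * b i) ^ 2 := by linarith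
  linear_combination (Real.sin (2 * b i)) ^ 2 * h5 + 3 * h7

/-- the cubic difference at a wheel pair -/
theorem uniqA_cubic {x0 x1 t : ℝ} (h : qq x0 x1 = 0) :
    (t ^ 3 - 3 * t) - (x0 ^ 3 - 3 * x0) = (t - x0) * (t - x1) * (t + x0 + x1) := by
  unfold qq at h
  linear_combination (t - x0) * h

theorem uniqA_VV_rec (r : ℕ) (x : ℕ → ℝ) : VV (r + 2) x =
    (x 1 - x 0) * (∏ j ∈ Ico 2 (r + 2), (x j - x 0) * (x j - x 1)) * VV r (rmv 0 x) := by
  have e1 : (fun j => rmv 0 x j) = fun j => x (j + 2) := by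
    funext j
    simp [rmv]
  have e2 : rmv 0 x = fun j => x (j + 2) := e1
  rw [e2]
  induction r with
  | zero => simp [VV, prod_range_succ]
  | succ r ih =>
    have h1 : VV (r + 1 + 2) x = VV (r + 2) x * ∏ i ∈ range (r + 2), (x (r + 2) - x i) := by
      unfold VV
      rw [show r + 1 + 2 = (r + 2) + 1 by ring, prod_range_succ]
    have h2 : VV (r + 1) (fun j => x (j + 2)) = VV r (fun j => x (j + 2)) * ∏ i ∈ range r, (x (r + 2) - x (i + 2)) := by
      unfold VV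
      rw [prod_range_succ]
    have h3 : ∏ i ∈ range (r + 2), (x (r + 2) - x i) =
        (x (r + 2) - x 0) * (x (r + 2) - x 1) * ∏ i ∈ range r, (x (r + 2) - x (i + 2)) := by
      rw [prod_range_succ', prod_range_succ']
      ring
    have h4 : ∏ j ∈ Ico 2 (r + 1 + 2), (x j - x 0) * (x j - x 1) =
        (∏ j ∈ Ico 2 (r + 2), (x j - x 0) * (x j - x 1)) * ((x (r + 2) - x 0) * (x (r + 2) - x 1)) := by
      rw [show r + 1 + 2 = (r + 2) + 1 by ring, prod_Ico_succ_top (by omega)]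
    rw [h1, ih, h2, h3, h4]
    ring

theorem Df_wheelX {m k : ℕ} (ih : ∀ b, Df m k b = 0) {b : ℕ → ℝ} (hb : b 1 = b 0 + π / 3) (h01 : xx b 0 ≠ xx b 1) :
    Df (m + 1) k b = 0 := by
  have hq := uniqA_qq_zero hb
  have hs := uniqA_sum_zero hb
  have h1 := SS_recX m k b hb
  have h2 := AA_recX m k (xpp b (2 * (m + 1) + 1)) (xx b) hq h01
  have h3 := uniqA_VV_rec (2 * m + 1) (xx b)
  have h4 := ih (rem 0 b)
  unfold Df at h4
  have e1 : (rem 0 b) (2 * m + 1) = b (2 * (m + 1) + 1) := by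
    unfold rem
    rw [if_neg (by omega)]
    rfl
  rw [uniqA_xx_rem, uniqA_xpp_of e1, sub_eq_zero] at h4
  unfold Df
  rw [h2, ← h4, show 2 * (m + 1) + 1 = (2 * m + 1) + 2 by ring, h3]
  have e2 : ∏ s ∈ Ico 2 (2 * m + 3), ((xx b s ^ 3 - 3 * xx b s) - (xx b 0 ^ 3 - 3 * xx b 0)) =
      (∏ j ∈ Ico 2 (2 * m + 1 + 2), (xx b j - xx b 0) * (xx b j - xx b 1)) *
        ∏ j ∈ Ico 2 (2 * m + 3), (xx b j - xpp b 0) := by
    rw [show 2 * m + 1 + 2 = 2 * m + 3 by ring, ← prod_mul_distrib]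
    refine prod_congr rfl fun j _ => ?_
    rw [uniqA_cubic hq]
    have : xx b j + xx b 0 + xx b 1 = xx b j - xpp b 0 := by rw [add_assoc, hs]; ring
    rw [this]
  have e3 : ∏ s ∈ Ico 2 (2 * (m + k) + 5), (xx b s + xx b 0 + xx b 1) =
      ∏ j ∈ Ico 2 (2 * (m + k) + 5), (xx b j - xpp b 0) := by
    refine prod_congr rfl fun j _ => ?_
    rw [add_assoc, hs]
    ring
  have e4 : (4 : ℝ) ^ ((m + 1 + k + 1) ^ 2 + (m + 1) ^ 2 + k ^ 2) =
      4 ^ ((m + k + 1) ^ 2 + m ^ 2 + k ^ 2) * 4 ^ (2 * (m + k) + 3 + (2 * m + 1)) := by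
    rw [← pow_add]
    congr 1
    ring
  rw [e2, e3, e4]
  linear_combination (4 : ℝ) ^ ((m + k + 1) ^ 2 + m ^ 2 + k ^ 2) * ((xx b 1 - xx b 0) *
    (∏ j ∈ Ico 2 (2 * m + 1 + 2), (xx b j - xx b 0) * (xx b j - xx b 1)) * VV (2 * m + 1) (rmv 0 (xx b))) * h1

theorem Df_wheelY {m k : ℕ} (ih : ∀ b, Df m k b = 0) {b : ℕ → ℝ} (hb : b (2 * m + 3) = b (2 * m + 2) + π / 3)
    (h01 : xx b (2 * m + 2) ≠ xx b (2 * m + 3)) : Df m (k + 1) b = 0 := by
  have hq := uniqA_qq_zero hb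
  have hs := uniqA_sum_zero hb
  have h1 := SS_recY m k b hb
  have h2 := AA_recY m k (xpp b (2 * m + 1)) (xx b) hq h01
  have h4 := ih (rem (2 * m + 2) b)
  unfold Df at h4
  have e1 : (rem (2 * m + 2) b) (2 * m + 1) = b (2 * m + 1) := by
    unfold rem
    rw [if_pos (by omega)]
  have e5 : VV (2 * m + 1) (rmv (2 * m + 2) (xx b)) = VV (2 * m + 1) (xx b) := by
    refine VV_congr fun j hj => ?_
    unfold rmv
    rw [if_pos (by omega)]
  rw [uniqA_xx_rem, uniqA_xpp_of e1, e5, sub_eq_zero] at h4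
  unfold Df
  rw [h2, ← h4]
  have e2 : ∏ s ∈ Ico (2 * m + 4) (2 * (m + k) + 5), (xx b s + xx b (2 * m + 2) + xx b (2 * m + 3)) =
      ∏ j ∈ Ico (2 * m + 4) (2 * (m + k) + 5), (xx b j - xpp b (2 * m + 2)) := by
    refine prod_congr rfl fun j _ => ?_
    rw [add_assoc, hs]
    ring
  have e3 : ∏ s ∈ (range (2 * (m + k) + 5)).filter (fun s => s ≠ 2 * m + 2 ∧ s ≠ 2 * m + 3),
      (xx b s + xx b (2 * m + 2) + xx b (2 * m + 3)) =
      ∏ j ∈ (range (2 * (m + k) + 5)).filter (fun j => j ≠ 2 * m + 2 ∧ j ≠ 2 * m + 3), (xx b j - xpp b (2 * m + 2)) := by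
    refine prod_congr rfl fun j _ => ?_
    rw [add_assoc, hs]
    ring
  have e4 : (4 : ℝ) ^ ((m + (k + 1) + 1) ^ 2 + m ^ 2 + (k + 1) ^ 2) =
      4 ^ ((m + k + 1) ^ 2 + m ^ 2 + k ^ 2) * 4 ^ (2 * (m + k) + 3 + (2 * k + 1)) := by
    rw [← pow_add]
    congr 1
    ring
  rw [e2, e3, e4]
  linear_combination (4 : ℝ) ^ ((m + k + 1) ^ 2 + m ^ 2 + k ^ 2) * VV (2 * m + 1) (xx b) * h1
end IP.Slit
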