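import Pool.Agent.Helper60.Slit.UniqA
/-! MODULE UNIQ-B (the steps): the main identity.  Put `Df m k b = 4^(..) SS m k b VV - AA`.
As a function of one coordinate it is even and a `TP`, i.e. a polynomial in `xx b i` (`TP_even_poly`).
`Df_X`: (2m ≥ k+2) polynomial in `x_0` of degree `≤ 4m+k+1`, zeros: `x_0 = x_j` (`2m` points, antisymmetry), the wheel points
`x_0 = 2cos(2 b_j ± 2π/3)`, `1 ≤ j ≤ 2m` (`4m` points; by `SS_recX`, `AA_recX`, the case `(m-1,k)`; after exchanges and reflections).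
`Df_Y`: (2k ≥ m+2) polynomial in `x_{2m+2}` of degree `≤ m+2k+1`, zeros: the `4k` wheel points.
`(1,1)`: `Df` is, in `x_0`, a constant times `∏_{i=1,2} qq(x_0,x_i) * (x_0-x_1)(x_0-x_2)` (degree 6 = 4m+k+1, 6 zeros), ... so in `b_0`:
if `Df = 0` for one generic value of `b_0` then for all; the same for `b_1`, `b_2` by antisymmetry; in `y_0` (degree `≤ 4 = 4k` zeros): the same.
So for generic `b`: change `b_4, b_5, b_6` and `b_0, b_1, b_2` one by one to reach a special point of `main_special` (with the same `b_3`).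
Generic points: `Gn`, `Gn_line` (IP/NformB) or `Sep.eq_zero_of_line`; conclusion for all `b` by continuity. -/
namespace IP.Slit
open IP Finset Real

/-! ### a function of a group of coordinates -/

/-- the symmetries of `D` in the coordinates `a, ..., a + L` and its wheel zeros -/
structure ub_Grp (a L : ℕ) (ε : ℝ) (D : (ℕ → ℝ) → ℝ) : Prop where
  eps : ε = 1 ∨ ε = -1
  sw : ∀ i b, a ≤ i → i < a + L → D (sw i b) = ε * D b
  ng : ∀ i b, a ≤ i → i ≤ a + L → D (ng i b) = D b
  wh : ∀ b : ℕ → ℝ, b (a + 1) = b a + π / 3 → xx b a ≠ xx b (a + 1) → D b = 0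

theorem ub_Grp.ne {a L : ℕ} {ε : ℝ} {D : (ℕ → ℝ) → ℝ} (h : ub_Grp a L ε D) : ε ≠ 0 := by
  rcases h.eps with h1 | h1 <;> rw [h1] <;> norm_num

theorem ub_xx_sw (i j : ℕ) (b : ℕ → ℝ) : xx (sw i b) j = xx b (Equiv.swap i (i + 1) j) := rfl

theorem ub_Grp.first {a L : ℕ} {ε : ℝ} {D : (ℕ → ℝ) → ℝ} (h : ub_Grp a L ε D) (j : ℕ) (h1 : 1 ≤ j) :
    j ≤ L → ∀ b : ℕ → ℝ, b (a + j) = b a + π / 3 → xx b a ≠ xx b (a + j) → D b = 0 := by
  induction j, h1 using Nat.le_induction with
  | base => exact fun _ b hb hx => h.wh b hb hx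
  | succ j hj IH =>
    intro hL b hb hx
    have e1 : Equiv.swap (a + j) (a + j + 1) (a + j) = a + (j + 1) := by
      rw [Equiv.swap_apply_left]; rfl
    have e2 : Equiv.swap (a + j) (a + j + 1) a = a :=
      Equiv.swap_apply_of_ne_of_ne (by omega) (by omega)
    have h3 := IH (by omega) (IP.sw (a + j) b) (by
      unfold IP.sw
      rw [e1, e2]
      exact hb) (by
      rw [ub_xx_sw, ub_xx_sw, e1, e2]
      exact hx)
    rw [h.sw (a + j) b (by omega) (by omega)] at h3
    exact (mul_eq_zero.1 h3).resolve_left h.ne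

theorem ub_Grp.pair {a L : ℕ} {ε : ℝ} {D : (ℕ → ℝ) → ℝ} (h : ub_Grp a L ε D) (i : ℕ) (h1 : a ≤ i) :
    i ≤ a + L → ∀ j, a ≤ j → j ≤ a + L → j ≠ i → ∀ b : ℕ → ℝ, b j = b i + π / 3 → xx b i ≠ xx b j →
      D b = 0 := by
  induction i, h1 using Nat.le_induction with
  | base =>
    intro _ j hj hj2 hji b hb hx
    obtain ⟨l, rfl⟩ : ∃ l, j = a + l := ⟨j - a, by omega⟩
    exact h.first l (by omega) (by omega) b hb hx
  | succ i hi IH =>
    intro hL j hj hj2 hji b hb hx
    have e1 : Equiv.swap i (i + 1) i = i + 1 := Equiv.swap_apply_left _ _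
    have e2 : Equiv.swap i (i + 1) (Equiv.swap i (i + 1) j) = j := Equiv.swap_apply_self _ _ _
    have e3 : a ≤ Equiv.swap i (i + 1) j ∧ Equiv.swap i (i + 1) j ≤ a + L ∧ Equiv.swap i (i + 1) j ≠ i := by
      by_cases h4 : j = i
      · rw [h4, Equiv.swap_apply_left]; omega
      · rw [Equiv.swap_apply_of_ne_of_ne h4 hji]; omega
    have h3 := IH (by omega) (Equiv.swap i (i + 1) j) e3.1 e3.2.1 e3.2.2 (IP.sw i b) (by
      unfold IP.sw
      rw [e1, e2]
      exact hb) (by
      rw [ub_xx_sw, ub_xx_sw, e1, e2]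
      exact hx)
    rw [h.sw i b (by omega) (by omega)] at h3
    exact (mul_eq_zero.1 h3).resolve_left h.ne

theorem ub_xx_ng (i j : ℕ) (b : ℕ → ℝ) : xx (IP.ng i b) j = xx b j := by
  unfold xx IP.ng
  by_cases h : j = i
  · subst h
    rw [Function.update_self, mul_neg, Real.cos_neg]
  · rw [Function.update_of_ne h]

theorem ub_Grp.pair' {a L : ℕ} {ε : ℝ} {D : (ℕ → ℝ) → ℝ} (h : ub_Grp a L ε D) {i j : ℕ} (h1 : a ≤ i)
    (h2 : i ≤ a + L) (h3 : a ≤ j) (h4 : j ≤ a + L) (hij : j ≠ i) (b : ℕ → ℝ) (hb : b j = b i - π / 3)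
    (hx : xx b i ≠ xx b j) : D b = 0 := by
  have h5 := h.pair i h1 h2 j h3 h4 hij (IP.ng i (IP.ng j b)) (by
    have e1 : IP.ng i (IP.ng j b) j = -b j := by
      unfold IP.ng
      rw [Function.update_of_ne hij, Function.update_self]
    have e2 : IP.ng i (IP.ng j b) i = -b i := by
      unfold IP.ng
      rw [Function.update_self, Function.update_of_ne hij.symm]
    rw [e1, e2, hb]
    ring) (by
    rw [ub_xx_ng, ub_xx_ng, ub_xx_ng, ub_xx_ng]
    exact hx)
  rwa [h.ng i _ h1 h2, h.ng j _ h3 h4] at h5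

theorem ub_Grp.eqfirst {a L : ℕ} {D : (ℕ → ℝ) → ℝ} (h : ub_Grp a L (-1) D) (j : ℕ) (h1 : 1 ≤ j) :
    j ≤ L → ∀ b : ℕ → ℝ, b (a + j) = b a → D b = 0 := by
  induction j, h1 using Nat.le_induction with
  | base =>
    intro hL b hb
    have e : IP.sw a b = b := by
      funext l
      unfold IP.sw
      by_cases h1 : l = a
      · rw [h1, Equiv.swap_apply_left, hb]
      · by_cases h2 : l = a + 1
        · rw [h2, Equiv.swap_apply_right, hb]
        · rw [Equiv.swap_apply_of_ne_of_ne h1 h2]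
    have h3 := h.sw a b le_rfl (by omega)
    rw [e] at h3
    linarith
  | succ j hj IH =>
    intro hL b hb
    have e1 : Equiv.swap (a + j) (a + j + 1) (a + j) = a + (j + 1) := by
      rw [Equiv.swap_apply_left]; rfl
    have e2 : Equiv.swap (a + j) (a + j + 1) a = a :=
      Equiv.swap_apply_of_ne_of_ne (by omega) (by omega)
    have h3 := IH (by omega) (IP.sw (a + j) b) (by
      unfold IP.sw
      rw [e1, e2]
      exact hb)
    rw [h.sw (a + j) b (by omega) (by omega)] at h3
    linarith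

theorem ub_Grp.eqpair {a L : ℕ} {D : (ℕ → ℝ) → ℝ} (h : ub_Grp a L (-1) D) (i : ℕ) (h1 : a ≤ i) :
    i ≤ a + L → ∀ j, a ≤ j → j ≤ a + L → j ≠ i → ∀ b : ℕ → ℝ, b j = b i → D b = 0 := by
  induction i, h1 using Nat.le_induction with
  | base =>
    intro _ j hj hj2 hji b hb
    obtain ⟨l, rfl⟩ : ∃ l, j = a + l := ⟨j - a, by omega⟩
    exact h.eqfirst l (by omega) (by omega) b hb
  | succ i hi IH =>
    intro hL j hj hj2 hji b hb
    have e1 : Equiv.swap i (i + 1) i = i + 1 := Equiv.swap_apply_left _ _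
    have e2 : Equiv.swap i (i + 1) (Equiv.swap i (i + 1) j) = j := Equiv.swap_apply_self _ _ _
    have e3 : a ≤ Equiv.swap i (i + 1) j ∧ Equiv.swap i (i + 1) j ≤ a + L ∧ Equiv.swap i (i + 1) j ≠ i := by
      by_cases h4 : j = i
      · rw [h4, Equiv.swap_apply_left]; omega
      · rw [Equiv.swap_apply_of_ne_of_ne h4 hji]; omega
    have h3 := IH (by omega) (Equiv.swap i (i + 1) j) e3.1 e3.2.1 e3.2.2 (IP.sw i b) (by
      unfold IP.sw
      rw [e1, e2]
      exact hb)
    rw [h.sw i b (by omega) (by omega)] at h3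
    linarith

/-! ### nodes -/

theorem ub_cos_ne {x y : ℝ} (h1 : Real.sin (x + y) ≠ 0) (h2 : Real.sin (x - y) ≠ 0) :
    2 * Real.cos (2 * x) ≠ 2 * Real.cos (2 * y) := by
  intro h
  have h3 := Real.cos_sub_cos (2 * x) (2 * y)
  rw [show (2 * x + 2 * y) / 2 = x + y by ring, show (2 * x - 2 * y) / 2 = x - y by ring] at h3
  have h4 : Real.cos (2 * x) - Real.cos (2 * y) = 0 := by linarith
  rw [h4] at h3
  rcases mul_eq_zero.1 h3.symm with h5 | h5
  · rcases mul_eq_zero.1 h5 with h6 | h6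
    · norm_num at h6
    · exact h1 h6
  · exact h2 h5

/-- the node with the label `(j, κ)` -/
noncomputable def ub_nd (b : ℕ → ℝ) (l : ℕ × ℤ) : ℝ := b l.1 + l.2 * (π / 3)

theorem ub_nd_inj {b : ℕ → ℝ} (hG : Gn b) {l l' : ℕ × ℤ} (h1 : -1 ≤ l.2 ∧ l.2 ≤ 1)
    (h2 : -1 ≤ l'.2 ∧ l'.2 ≤ 1) (hl : l ≠ l') :
    2 * Real.cos (2 * ub_nd b l) ≠ 2 * Real.cos (2 * ub_nd b l') := by
  obtain ⟨j, κ⟩ := l
  obtain ⟨j', κ'⟩ := l'
  simp only at h1 h2
  apply ub_cos_ne
  · have := hG.add j j' (κ + κ')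
    unfold ub_nd
    rwa [show b j + κ * (π / 3) + (b j' + κ' * (π / 3)) = b j + b j' + ((κ + κ' : ℤ) : ℝ) * (π / 3) by
      push_cast; ring]
  · unfold ub_nd
    simp only
    rw [show b j + κ * (π / 3) - (b j' + κ' * (π / 3)) = b j - b j' + ((κ - κ' : ℤ) : ℝ) * (π / 3) by
      push_cast; ring]
    by_cases hj : j = j'
    · subst hj
      rw [sub_self, zero_add]
      apply sin_k_pi
      have : κ ≠ κ' := fun h => hl (by rw [h])
      omega
    · exact hG.sub hj _

theorem ub_poly_zero {b : ℕ → ℝ} (hG : Gn b) {P : Polynomial ℝ} (T : Finset (ℕ × ℤ))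
    (hT : ∀ l ∈ T, -1 ≤ l.2 ∧ l.2 ≤ 1) (hcard : P.natDegree < T.card)
    (h0 : ∀ l ∈ T, P.eval (2 * Real.cos (2 * ub_nd b l)) = 0) : P = 0 := by
  apply Polynomial.eq_zero_of_natDegree_lt_card_of_eval_eq_zero' P
    (T.image fun l => 2 * Real.cos (2 * ub_nd b l))
  · intro x hx
    obtain ⟨l, hl, rfl⟩ := mem_image.1 hx
    exact h0 l hl
  · rw [card_image_of_injOn]
    · exact hcard
    · intro l hl l' hl' h
      by_contra hne
      exact ub_nd_inj hG (hT l hl) (hT l' hl') hne h

/-- the values `xx` at a node differ -/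
theorem ub_nd_self {b : ℕ → ℝ} (hG : Gn b) (j : ℕ) {κ : ℤ} (h : κ = 1 ∨ κ = -1) :
    2 * Real.cos (2 * ub_nd b (j, κ)) ≠ 2 * Real.cos (2 * b j) := by
  have := ub_nd_inj hG (l := (j, κ)) (l' := (j, 0)) (by simp only; omega) (by simp) (by
    intro h'
    have := (Prod.mk.inj h').2
    omega)
  unfold ub_nd at this ⊢
  simpa using this

/-- the zeros of `D` in the coordinate `i` -/
theorem ub_Grp.zero {a L : ℕ} {ε : ℝ} {D : (ℕ → ℝ) → ℝ} (h : ub_Grp a L ε D) {b : ℕ → ℝ} (hG : Gn b)
    {c : ℕ → ℝ} {i j : ℕ} (h1 : a ≤ i) (h2 : i ≤ a + L) (h3 : a ≤ j) (h4 : j ≤ a + L) (hij : j ≠ i)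
    (hc : c j = b j) {κ : ℤ} (hκ : κ = 1 ∨ κ = -1) : D (Function.update c i (ub_nd b (j, κ))) = 0 := by
  have e1 : Function.update c i (ub_nd b (j, κ)) i = ub_nd b (j, κ) := Function.update_self _ _ _
  have e2 : Function.update c i (ub_nd b (j, κ)) j = b j := by
    rw [Function.update_of_ne hij, hc]
  have hx : xx (Function.update c i (ub_nd b (j, κ))) i ≠ xx (Function.update c i (ub_nd b (j, κ))) j := by
    unfold xx
    rw [e1, e2]
    exact ub_nd_self hG j hκ
  rcases hκ with hκ | hκ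
  · refine h.pair' h1 h2 h3 h4 hij _ ?_ hx
    rw [e1, e2]
    unfold ub_nd
    rw [hκ]
    push_cast
    ring
  · refine h.pair i h1 h2 j h3 h4 hij _ ?_ hx
    rw [e1, e2]
    unfold ub_nd
    rw [hκ]
    push_cast
    ring

theorem ub_Grp.zero' {a L : ℕ} {D : (ℕ → ℝ) → ℝ} (h : ub_Grp a L (-1) D) {b : ℕ → ℝ}
    {c : ℕ → ℝ} {i j : ℕ} (h1 : a ≤ i) (h2 : i ≤ a + L) (h3 : a ≤ j) (h4 : j ≤ a + L) (hij : j ≠ i)
    (hc : c j = b j) : D (Function.update c i (ub_nd b (j, 0))) = 0 := by
  refine h.eqpair i h1 h2 j h3 h4 hij _ ?_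
  rw [Function.update_self, Function.update_of_ne hij, hc]
  unfold ub_nd
  push_cast
  ring

/-- from generic points to all points -/
theorem ub_generic {D : (ℕ → ℝ) → ℝ} (hc : Continuous D) (h : ∀ b, Gn b → D b = 0) (b : ℕ → ℝ) :
    D b = 0 := by
  have hcont : Continuous (fun t : ℝ => D (fun i => b i + t * ((i : ℝ) + 1))) := by
    refine hc.comp (f := fun t : ℝ => (fun i : ℕ => b i + t * ((i : ℝ) + 1))) ?_
    fun_prop
  have hdense := (Gn_line b).dense_compl ℝ
  have h1 : (fun t : ℝ => D (fun i => b i + t * ((i : ℝ) + 1))) = fun _ => 0 := by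
    apply Continuous.ext_on hdense hcont continuous_const
    intro t ht
    apply h
    by_contra h'
    exact ht h'
  have h2 := congrFun h1 0
  simpa using h2

/-- the step, antisymmetric case -/
theorem ub_step_anti {a L d : ℕ} {D : (ℕ → ℝ) → ℝ} (h : ub_Grp a L (-1) D) (hc : Continuous D)
    (hP : ∀ b : ℕ → ℝ, ∃ P : Polynomial ℝ, P.natDegree ≤ d ∧
      ∀ y, D (Function.update b a y) = P.eval (2 * Real.cos (2 * y))) (hd : d < 3 * L) (b : ℕ → ℝ) :
    D b = 0 := by
  refine ub_generic hc (fun b hG => ?_) b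
  obtain ⟨P, hdeg, hP⟩ := hP b
  have hP0 : P = 0 := by
    refine ub_poly_zero hG (Ico (a + 1) (a + L + 1) ×ˢ ({-1, 0, 1} : Finset ℤ)) ?_ ?_ ?_
    · intro l hl
      have := (mem_product.1 hl).2
      simp only [mem_insert, mem_singleton] at this
      omega
    · rw [card_product, Nat.card_Ico]
      have : ({-1, 0, 1} : Finset ℤ).card = 3 := by decide
      rw [this]
      omega
    · rintro ⟨j, κ⟩ hl
      have h1 := mem_Ico.1 (mem_product.1 hl).1
      have h2 := (mem_product.1 hl).2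
      simp only [mem_insert, mem_singleton] at h1 h2
      rw [← hP]
      rcases h2 with h2 | h2 | h2
      · exact h.zero hG le_rfl (by omega) (by omega) (by omega) (by omega) rfl (Or.inr h2)
      · rw [h2]
        exact h.zero' le_rfl (by omega) (by omega) (by omega) (by omega) rfl
      · exact h.zero hG le_rfl (by omega) (by omega) (by omega) (by omega) rfl (Or.inl h2)
  have h3 := hP (b a)
  rw [Function.update_eq_self, hP0, Polynomial.eval_zero] at h3
  exact h3

/-- the step, symmetric case -/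
theorem ub_step_sym {a L d : ℕ} {ε : ℝ} {D : (ℕ → ℝ) → ℝ} (h : ub_Grp a L ε D) (hc : Continuous D)
    (hP : ∀ b : ℕ → ℝ, ∃ P : Polynomial ℝ, P.natDegree ≤ d ∧
      ∀ y, D (Function.update b a y) = P.eval (2 * Real.cos (2 * y))) (hd : d < 2 * L) (b : ℕ → ℝ) :
    D b = 0 := by
  refine ub_generic hc (fun b hG => ?_) b
  obtain ⟨P, hdeg, hP⟩ := hP b
  have hP0 : P = 0 := by
    refine ub_poly_zero hG (Ico (a + 1) (a + L + 1) ×ˢ ({-1, 1} : Finset ℤ)) ?_ ?_ ?_
    · intro l hl
      have := (mem_product.1 hl).2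
      simp only [mem_insert, mem_singleton] at this
      omega
    · rw [card_product, Nat.card_Ico]
      have : ({-1, 1} : Finset ℤ).card = 2 := by decide
      rw [this]
      omega
    · rintro ⟨j, κ⟩ hl
      have h1 := mem_Ico.1 (mem_product.1 hl).1
      have h2 := (mem_product.1 hl).2
      simp only [mem_insert, mem_singleton] at h1 h2
      rw [← hP]
      rcases h2 with h2 | h2
      · exact h.zero hG le_rfl (by omega) (by omega) (by omega) (by omega) rfl (Or.inr h2)
      · exact h.zero hG le_rfl (by omega) (by omega) (by omega) (by omega) rfl (Or.inl h2)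
  have h3 := hP (b a)
  rw [Function.update_eq_self, hP0, Polynomial.eval_zero] at h3
  exact h3

theorem ub_GrpX {m k : ℕ} (ih : ∀ b, Df m k b = 0) : ub_Grp 0 (2 * (m + 1)) (-1) (Df (m + 1) k) where
  eps := Or.inr rfl
  sw := by
    intro i b _ h
    rw [Df_swX (by omega)]
    ring
  ng := by
    intro i b _ h
    exact Df_ng (Or.inl (by omega)) b
  wh := by
    intro b hb hx
    exact Df_wheelX ih hb hx

theorem ub_GrpY {m k : ℕ} (ih : ∀ b, Df m k b = 0) :
    ub_Grp (2 * m + 2) (2 * (k + 1)) 1 (Df m (k + 1)) where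
  eps := Or.inl rfl
  sw := by
    intro i b h1 h2
    rw [Df_swY h1 (by omega)]
    ring
  ng := by
    intro i b h1 h2
    exact Df_ng (Or.inr ⟨h1, by omega⟩) b
  wh := by
    intro b hb hx
    exact Df_wheelY ih hb hx

theorem Df_stepX {m k : ℕ} (h : k + 2 ≤ 2 * (m + 1)) (ih : ∀ b, Df m k b = 0) (b : ℕ → ℝ) : Df (m + 1) k b = 0 :=
  ub_step_anti (ub_GrpX ih) (Df_continuous _ _) (fun b => Df_polyX (i := 0) (by omega) b) (by omega) b
theorem Df_stepY {m k : ℕ} (h : m + 2 ≤ 2 * (k + 1)) (ih : ∀ b, Df m k b = 0) (b : ℕ → ℝ) : Df m (k + 1) b = 0 :=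
  ub_step_sym (ub_GrpY ih) (Df_continuous _ _) (fun b => Df_polyY (i := 2 * m + 2) le_rfl (by omega) b) (by omega) b
theorem Df_one (h10 : ∀ b, Df 1 0 b = 0) (h01 : ∀ b, Df 0 1 b = 0) (b : ℕ → ℝ) : Df 1 1 b = 0 := by
  refine ub_generic (Df_continuous 1 1) (fun b hG => ?_) b
  have hX : ub_Grp 0 2 (-1) (Df 1 1) := ub_GrpX h01
  have hY : ub_Grp 4 2 1 (Df 1 1) := ub_GrpY h10
  -- the special value of `b 2`
  set c : ℕ → ℝ := Function.update b 2 (ub_nd b (3, -1)) with hc
  have hcb : ∀ j, j ≠ 2 → c j = b j := fun j hj => by rw [hc, Function.update_of_ne hj]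
  have hc2 : c 2 = ub_nd b (3, -1) := by rw [hc, Function.update_self]
  -- first step: `Df 1 1 c = 0`
  have hc0 : Df 1 1 c = 0 := by
    obtain ⟨P, hdeg, hP⟩ := Df_polyY (m := 1) (k := 1) (i := 4) (by omega) (by omega) c
    have hP0 : P = 0 := by
      refine ub_poly_zero hG ({(5, -1), (5, 1), (6, -1), (6, 1), (1, 1)} : Finset (ℕ × ℤ)) ?_ ?_ ?_
      · intro l hl
        simp only [mem_insert, mem_singleton] at hl
        rcases hl with rfl | rfl | rfl | rfl | rfl <;> simp
      · have : ({(5, -1), (5, 1), (6, -1), (6, 1), (1, 1)} : Finset (ℕ × ℤ)).card = 5 := by decide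
        rw [this]
        omega
      · intro l hl
        rw [← hP]
        simp only [mem_insert, mem_singleton] at hl
        rcases hl with rfl | rfl | rfl | rfl | rfl
        · exact hY.zero hG (by omega) (by omega) (by omega) (by omega) (by omega) (hcb 5 (by omega)) (Or.inr rfl)
        · exact hY.zero hG (by omega) (by omega) (by omega) (by omega) (by omega) (hcb 5 (by omega)) (Or.inl rfl)
        · exact hY.zero hG (by omega) (by omega) (by omega) (by omega) (by omega) (hcb 6 (by omega)) (Or.inr rfl)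
        · exact hY.zero hG (by omega) (by omega) (by omega) (by omega) (by omega) (hcb 6 (by omega)) (Or.inl rfl)
        · -- the special point
          set d : ℕ → ℝ := Function.update c 4 (ub_nd b (1, 1)) with hd
          have d4 : d 4 = ub_nd b (1, 1) := by rw [hd, Function.update_self]
          have d1 : d 1 = b 1 := by rw [hd, Function.update_of_ne (by omega), hcb 1 (by omega)]
          have d3 : d 3 = b 3 := by rw [hd, Function.update_of_ne (by omega), hcb 3 (by omega)]
          have d2 : d 2 = ub_nd b (3, -1) := by rw [hd, Function.update_of_ne (by omega), hc2]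
          have h5 := main_special d (by rw [d3, d2]; unfold ub_nd; push_cast; ring)
            (by rw [d4, d1]; unfold ub_nd; push_cast; ring)
            (by unfold xx; rw [d2, d3]; exact ub_nd_self hG 3 (Or.inr rfl))
            (by unfold xx; rw [d1, d4]; exact (ub_nd_self hG 1 (Or.inl rfl)).symm)
          unfold Df
          rw [h5, sub_self]
    have h3 := hP (c 4)
    rw [Function.update_eq_self, hP0, Polynomial.eval_zero] at h3
    exact h3
  obtain ⟨P, hdeg, hP⟩ := Df_polyX (m := 1) (k := 1) (i := 2) (by omega) b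
  have hP0 : P = 0 := by
    refine ub_poly_zero hG ({(0, -1), (0, 0), (0, 1), (1, -1), (1, 0), (1, 1), (3, -1)} : Finset (ℕ × ℤ)) ?_ ?_ ?_
    · intro l hl
      simp only [mem_insert, mem_singleton] at hl
      rcases hl with rfl | rfl | rfl | rfl | rfl | rfl | rfl <;> simp
    · have : ({(0, -1), (0, 0), (0, 1), (1, -1), (1, 0), (1, 1), (3, -1)} : Finset (ℕ × ℤ)).card = 7 := by
        decide
      rw [this]
      omega
    · intro l hl
      rw [← hP]
      simp only [mem_insert, mem_singleton] at hl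
      rcases hl with rfl | rfl | rfl | rfl | rfl | rfl | rfl
      · exact hX.zero hG (by omega) (by omega) (by omega) (by omega) (by omega) rfl (Or.inr rfl)
      · exact hX.zero' (by omega) (by omega) (by omega) (by omega) (by omega) rfl
      · exact hX.zero hG (by omega) (by omega) (by omega) (by omega) (by omega) rfl (Or.inl rfl)
      · exact hX.zero hG (by omega) (by omega) (by omega) (by omega) (by omega) rfl (Or.inr rfl)
      · exact hX.zero' (by omega) (by omega) (by omega) (by omega) (by omega) rfl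
      · exact hX.zero hG (by omega) (by omega) (by omega) (by omega) (by omega) rfl (Or.inl rfl)
      · exact hc0
  have h3 := hP (b 2)
  rw [Function.update_eq_self, hP0, Polynomial.eval_zero] at h3
  exact h3
end IP.Slit
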